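import Pool.Agent.Run7.h373.QE.E3c
import Pool.Agent.Run7.h373.QD.Fin

/-!
# Differences of consecutive values of a polynomial
-/

set_option autoImplicit false
set_option maxHeartbeats 1000000

namespace Run7.h373.QE.Dif

open Finset
open Polynomial (taylor natDegree leadingCoeff)
open scoped Polynomial

/-- the polynomial `G(x + 1) - G(x)` -/
noncomputable def DG (G : ℤ[X]) : ℤ[X] := taylor 1 G - G

lemma DG_eval (G : ℤ[X]) (x : ℤ) : (DG G).eval x = G.eval (x + 1) - G.eval x := by
  unfold DG
  rw [Polynomial.eval_sub, Polynomial.taylor_eval]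

/-- the coefficient of `x ^ e` in `G(x + 1) - G(x)`, `deg G = e + 1` -/
lemma DG_coeff (G : ℤ[X]) (e : ℕ) (hG : G.natDegree = e + 1) : (DG G).coeff e = (e + 1) * G.leadingCoeff := by
  unfold DG
  rw [Polynomial.coeff_sub, Polynomial.taylor_coeff, Polynomial.eval_eq_sum_range' (n := 2)]
  · rw [sum_range_succ, sum_range_one, Polynomial.hasseDeriv_coeff, Polynomial.hasseDeriv_coeff, leadingCoeff, hG]
    simp only [zero_add, Nat.choose_self, pow_zero, mul_one, one_pow, Nat.cast_one, one_mul]
    rw [add_comm 1 e, Nat.choose_succ_self_right]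
    push_cast
    ring
  · have h := Polynomial.natDegree_hasseDeriv_le G e
    omega

lemma DG_deg (G : ℤ[X]) (e : ℕ) (hG : G.natDegree = e + 1) : (DG G).natDegree = e := by
  have hl : G.leadingCoeff ≠ 0 := by
    rw [Ne, Polynomial.leadingCoeff_eq_zero]
    rintro rfl
    rw [Polynomial.natDegree_zero] at hG
    omega
  apply Polynomial.natDegree_eq_of_le_of_coeff_ne_zero
  · have h0 : G ≠ 0 := by
      rintro rfl
      rw [Polynomial.natDegree_zero] at hG
      omega
    have hd : (taylor 1 G).degree = G.degree := by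
      rw [Polynomial.degree_taylor]
    have h1 : (DG G).degree < G.degree := by
      unfold DG
      rw [← hd]
      apply Polynomial.degree_sub_lt_left hd
      · rw [Ne, ← Polynomial.degree_eq_bot, hd, Polynomial.degree_eq_bot]
        exact h0
      · rw [Polynomial.leadingCoeff_taylor]
    rw [Polynomial.degree_eq_natDegree h0, hG] at h1
    have h2 : (DG G).natDegree < e + 1 := by
      by_cases hz : DG G = 0
      · rw [hz, Polynomial.natDegree_zero]; omega
      · rwa [Polynomial.degree_eq_natDegree hz, Nat.cast_lt] at h1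
    omega
  · rw [DG_coeff G e hG]
    have : ((e : ℤ) + 1) ≠ 0 := by positivity
    exact mul_ne_zero this hl

lemma DG_lead (G : ℤ[X]) (e : ℕ) (hG : G.natDegree = e + 1) : (DG G).leadingCoeff = (e + 1) * G.leadingCoeff := by
  rw [leadingCoeff, DG_deg G e hG, DG_coeff G e hG]

end Run7.h373.QE.Dif
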