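import Pool.Agent.Run7.h373.QE.E3c
import Pool.Agent.Run7.h373.QD.Fin

/-!
# The two theorems on windows in a form ready for use
-/

set_option autoImplicit false
set_option maxHeartbeats 1000000

namespace Run7.h373.QE.Gen

open Finset
open Polynomial (X)
open scoped Polynomial

/-- the number of residues `a` modulo `p` such that `p` divides `F(a) + k` -/
def rho (F : ℤ[X]) (k : ℤ) (p : ℕ) : ℕ := #((range p).filter (fun a : ℕ => (p : ℤ) ∣ F.eval (a : ℤ) + k))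

/-- the product of `(p - rho(p)) / (p - 1)` over the primes `p ≤ z` -/
noncomputable def S (F : ℤ[X]) (k : ℤ) (z : ℕ) : ℝ :=
  ∏ p ∈ (range (z + 1)).filter Nat.Prime, ((p : ℝ) - rho F k p) / ((p : ℝ) - 1)

/-- the number of the integers `a < m ≤ b` such that `s (F(m) + k)` is a (positive) prime -/
noncomputable def P (F : ℤ[X]) (s k a b : ℤ) : ℕ := #((Ioc a b).filter (fun m : ℤ => Nat.Prime (s * (F.eval m + k)).toNat))

/-- the sum of `1 / log (s (F(m) + k))` over the integers `a < m ≤ b` with `s (F(m) + k) ≥ 2` -/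
noncomputable def M (F : ℤ[X]) (s k a b : ℤ) : ℝ :=
  ∑ m ∈ (Ioc a b).filter (fun m : ℤ => 2 ≤ s * (F.eval m + k)), 1 / Real.log ((s * (F.eval m + k) : ℤ) : ℝ)

lemma rho_eq (F : ℤ[X]) (k : ℤ) (p : ℕ) : rho F k p = Pool.Agent.TH204.WR.rho F k p := rfl

lemma rho_lt (F : ℤ[X]) (k : ℤ) (p : ℕ) (hp : p.Prime) (h : ∃ m : ℤ, ¬ (p : ℤ) ∣ F.eval m + k) :
    Pool.Agent.TH204.WR.rho F k p < p := by
  obtain ⟨m, hm⟩ := h
  have hp0 : (0 : ℤ) < p := by exact_mod_cast hp.pos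
  unfold Pool.Agent.TH204.WR.rho
  have hlt : (m % p).toNat < p := by
    have h1 := Int.emod_nonneg m hp0.ne'
    have h2 := Int.emod_lt_of_pos m hp0
    omega
  have hcast : (((m % p).toNat : ℕ) : ℤ) = m % p := Int.toNat_of_nonneg (Int.emod_nonneg m hp0.ne')
  have hss : (range p).filter (fun a : ℕ => (p : ℤ) ∣ F.eval (a : ℤ) + k) ⊂ range p := by
    rw [filter_ssubset]
    refine ⟨(m % p).toNat, mem_range.2 hlt, ?_⟩
    intro hd
    rw [hcast] at hd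
    apply hm
    have h1 : (p : ℤ) ∣ m - m % p := Int.dvd_self_sub_emod
    have h2 : (m - m % p) ∣ F.eval m - F.eval (m % p) := Polynomial.sub_dvd_eval_sub m (m % p) F
    have h3 := dvd_add (h1.trans h2) hd
    have e : F.eval m - F.eval (m % p) + (F.eval (m % p) + k) = F.eval m + k := by ring
    rwa [e] at h3
  have := card_lt_card hss
  rwa [card_range] at this

lemma S_eq (F : ℤ[X]) (k : ℤ) (z : ℕ) : S F k z = Pool.Agent.TH204.WR.hh F k z := by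
  unfold S Pool.Agent.TH204.WR.hh Pool.Agent.H373R2.T7.Vz
  rw [← prod_inv_distrib, ← prod_mul_distrib]
  have hs : (range (z + 1)).filter Nat.Prime = Pool.Agent.H373R2.T7.pz z := by
    ext p
    unfold Pool.Agent.H373R2.T7.pz
    rw [mem_filter, mem_filter, mem_range, mem_Icc]
    constructor
    · rintro ⟨h1, h2⟩
      exact ⟨⟨h2.one_le, by omega⟩, h2⟩
    · rintro ⟨⟨h1, h3⟩, h2⟩
      exact ⟨by omega, h2⟩
  rw [hs]
  apply prod_congr rfl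
  intro p hp
  unfold Pool.Agent.H373R2.T7.pz at hp
  have hp2 := (mem_filter.1 hp).2.two_le
  have hpr : (2 : ℝ) ≤ p := by exact_mod_cast hp2
  have h1 : (p : ℝ) ≠ 0 := by linarith
  have h2 : (p : ℝ) - 1 ≠ 0 := by linarith
  have h3 : (1 : ℝ) - 1 / p ≠ 0 := by
    rw [one_sub_div h1]
    exact div_ne_zero h2 h1
  rw [rho_eq]
  field_simp

/-- the integers of a window -/
lemma win_sum {α : Type*} [AddCommMonoid α] (a : ℤ) (H : ℕ) (g : ℤ → α) :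
    ∑ m ∈ Ioc a (a + H), g m = ∑ i ∈ Ioc 0 H, g (a + (i : ℤ)) := by
  refine sum_nbij' (fun m => (m - a).toNat) (fun i => a + (i : ℤ)) ?_ ?_ ?_ ?_ ?_
  · intro m hm
    rw [mem_Ioc] at hm ⊢
    omega
  · intro i hi
    rw [mem_Ioc] at hi ⊢
    omega
  · intro m hm
    rw [mem_Ioc] at hm
    omega
  · intro i hi
    omega
  · intro m hm
    rw [mem_Ioc] at hm
    congr 1
    omega

lemma P_eq (F : ℤ[X]) (s k a : ℤ) (H : ℕ) : P F s k a (a + H) = Run7.h373.QD.pC s F k a H := by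
  unfold P Run7.h373.QD.pC
  rw [card_filter, card_filter, win_sum]
  rfl

lemma M_eq (F : ℤ[X]) (s k a : ℤ) (H : ℕ) : M F s k a (a + H) = Run7.h373.QD.lS s F k a H := by
  unfold M Run7.h373.QD.lS
  rw [sum_filter, sum_filter, win_sum]
  refine sum_congr rfl fun i _ => ?_
  by_cases h : 2 ≤ s * (F.eval (a + (i : ℤ)) + k)
  · rw [if_pos h, if_pos (show 2 ≤ s * (Run7.h373.QD.vv F a i + k) from h)]
    unfold Pool.Agent.TH892.SW.wt Run7.h373.QD.vv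
    have h1 : (((s * (F.eval (a + (i : ℤ)) + k)).toNat : ℕ) : ℤ) = s * (F.eval (a + (i : ℤ)) + k) :=
      Int.toNat_of_nonneg (by omega)
    have h2 : (((s * (F.eval (a + (i : ℤ)) + k)).toNat : ℕ) : ℝ) = ((s * (F.eval (a + (i : ℤ)) + k) : ℤ) : ℝ) := by
      rw [← Int.cast_natCast, h1]
    rw [h2]
  · rw [if_neg h, if_neg (show ¬ 2 ≤ s * (Run7.h373.QD.vv F a i + k) from h)]

/-- the general statement -/
theorem every (d : ℕ) (hd : 1 ≤ d) (U C : ℕ) : ∃ B X₀ : ℕ, ∀ N : ℕ, X₀ ≤ N → ∀ F : ℤ[X], F.natDegree = d →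
    |(F.leadingCoeff : ℝ)| ≤ Real.log N ^ C → ∀ (a : ℤ) (H : ℕ),
    (N : ℝ) ^ (1 / (3 * (d : ℝ))) * Real.log N ^ B ≤ H →
    (∀ m ∈ Ioc a (a + H), |((F.eval m : ℤ) : ℝ)| ≤ N * Real.log N ^ C) →
    ∃ Bad ⊆ Icc (-(N : ℤ)) N, (#Bad : ℝ) ≤ N / Real.log N ^ U ∧
    ∀ k ∈ Icc (-(N : ℤ)) N, k ∉ Bad → (∀ p : ℕ, p.Prime → ∃ m : ℤ, ¬ (p : ℤ) ∣ F.eval m + k) →
    ∀ z : ℕ, Real.log N ^ B ≤ z → z ^ 3 ≤ N → 0 < S F k z ∧
    ∀ s : ℤ, (s = 1 ∨ s = -1) →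
      |(P F s k a (a + H) : ℝ) - S F k z * M F s k a (a + H)| ≤ S F k z * H / Real.log N ^ U := by
  obtain ⟨B, X₀, h0⟩ := Run7.h373.QD.final d hd U C
  refine ⟨B, X₀, fun N hN F hF hFl a H hH hv => ?_⟩
  obtain ⟨Bad, k1, k2, k3⟩ := h0 N hN F hF hFl a H hH (by
    intro i hi
    rw [mem_Ioc] at hi
    exact hv (a + i) (by rw [mem_Ioc]; omega))
  refine ⟨Bad, k1, k2, fun k hk hkB hadm z hz1 hz2 => ?_⟩
  obtain ⟨m1, m2⟩ := k3 k hk hkB (fun p hp => rho_lt F k p hp (hadm p hp)) z hz1 hz2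
  rw [S_eq]
  refine ⟨m1, fun s hs => ?_⟩
  rw [P_eq, M_eq]
  exact m2 s hs

lemma vv_eq (F : ℤ[X]) (a b : ℤ) (i : ℕ) (h : a ≤ b) : Run7.h373.QD.vv F a ((b - a).toNat + i) = F.eval (b + (i : ℤ)) := by
  unfold Run7.h373.QD.vv
  congr 1
  push_cast
  rw [Int.toNat_of_nonneg (by omega)]
  ring

lemma P_eq' (F : ℤ[X]) (s k a b : ℤ) (h : a ≤ b) (H : ℕ) : P F s k b (b + H) =
    Run7.h373.QE.pS s (fun i => Run7.h373.QD.vv F a ((b - a).toNat + i) + k) H := by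
  unfold P Run7.h373.QE.pS
  rw [card_filter, card_filter, win_sum]
  refine sum_congr rfl fun i _ => ?_
  simp only [vv_eq F a b i h]

lemma M_eq' (F : ℤ[X]) (s k a b : ℤ) (h : a ≤ b) (H : ℕ) : M F s k b (b + H) =
    Run7.h373.QE.wS s (fun i => Run7.h373.QD.vv F a ((b - a).toNat + i) + k) H := by
  unfold M Run7.h373.QE.wS
  rw [sum_filter, sum_filter, win_sum]
  refine sum_congr rfl fun i _ => ?_
  simp only [vv_eq F a b i h]
  by_cases h : 2 ≤ s * (F.eval (b + (i : ℤ)) + k)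
  · rw [if_pos h, if_pos h]
    unfold Pool.Agent.TH892.SW.wt
    have h1 : (((s * (F.eval (b + (i : ℤ)) + k)).toNat : ℕ) : ℤ) = s * (F.eval (b + (i : ℤ)) + k) :=
      Int.toNat_of_nonneg (by omega)
    have h2 : (((s * (F.eval (b + (i : ℤ)) + k)).toNat : ℕ) : ℝ) = ((s * (F.eval (b + (i : ℤ)) + k) : ℤ) : ℝ) := by
      rw [← Int.cast_natCast, h1]
    rw [h2]
  · rw [if_neg h, if_neg h]

/-- the general statement -/
theorem opt (d : ℕ) (hd : 2 ≤ d) (A : ℕ) (ε : ℝ) (hε : 0 < ε) : ∃ T : ℝ, 0 < T ∧ ∃ B X₀ : ℕ, ∀ N : ℕ, X₀ ≤ N →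
    ∀ F : ℤ[X], F.natDegree = d → |(F.leadingCoeff : ℝ)| ≤ A → ∀ (a : ℤ) (L H : ℕ),
    (N : ℝ) ^ (1 / (3 * ((d : ℝ) - 1))) * Real.log N ^ B ≤ L → T * Real.log N ≤ H →
    (∀ m ∈ Ioc a (a + L + H), |((F.eval m : ℤ) : ℝ)| ≤ A * N) →
    ∃ Bad ⊆ Icc (-(N : ℤ)) N ×ˢ Ico a (a + L), (#Bad : ℝ) ≤ ε * (N * L) ∧
    ∀ k ∈ Icc (-(N : ℤ)) N, ∀ b ∈ Ico a (a + L), (k, b) ∉ Bad →
    (∀ p : ℕ, p.Prime → ∃ m : ℤ, ¬ (p : ℤ) ∣ F.eval m + k) →
    ∀ z : ℕ, Real.log N ^ B ≤ z → z ^ 3 ≤ N → 0 < S F k z ∧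
    ∀ s : ℤ, (s = 1 ∨ s = -1) →
      |(P F s k b (b + H) : ℝ) - S F k z * M F s k b (b + H)| ≤ ε * (S F k z * (H / Real.log N)) := by
  obtain ⟨T, hT, B, X₀, h0⟩ := Run7.h373.QE.ee d hd A ε hε
  refine ⟨T, hT, B, X₀, fun N hN F hF hFl a L H hL hH hv => ?_⟩
  obtain ⟨Bad, k1, k2, k3⟩ := h0 N hN F hF hFl a L H hL hH (by
    intro i hi
    rw [mem_Ioc] at hi
    exact hv (a + i) (by rw [mem_Ioc]; omega))
  refine ⟨Bad.image (fun p => (p.1, a + (p.2 : ℤ))), ?_, ?_, ?_⟩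
  · intro p hp
    rw [mem_image] at hp
    obtain ⟨q, hq, rfl⟩ := hp
    have h1 := k1 hq
    rw [mem_product, mem_range] at h1
    rw [mem_product, mem_Ico]
    exact ⟨h1.1, by simp only; omega, by simp only; omega⟩
  · have h1 : (#(Bad.image (fun p => (p.1, a + (p.2 : ℤ)))) : ℝ) ≤ #Bad := by exact_mod_cast card_image_le
    exact h1.trans k2
  · intro k hk b hb hkb hadm z hz1 hz2
    rw [mem_Ico] at hb
    obtain ⟨m1, m2⟩ := k3 k hk (b - a).toNat (by rw [mem_range]; omega) (by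
      intro hc
      apply hkb
      rw [mem_image]
      refine ⟨_, hc, ?_⟩
      simp only
      rw [Int.toNat_of_nonneg (by omega), add_sub_cancel]) (fun p hp => rho_lt F k p hp (hadm p hp)) z hz1 hz2
    rw [S_eq]
    refine ⟨m1, fun s hs => ?_⟩
    rw [P_eq' F s k a b hb.1, M_eq' F s k a b hb.1]
    exact m2 s hs


end Run7.h373.QE.Gen
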