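import Pool.Agent.Run7.h373.QE.Gen

/-!
# The squares of the multiples of `q` in the two classes modulo `2 q`
-/

set_option autoImplicit false
set_option maxHeartbeats 1000000

namespace Run7.h373.QE.Fam

open Finset
open Polynomial (X C natDegree leadingCoeff)
open scoped Polynomial

/-- the polynomial `(q (2 x + u))²` -/
noncomputable def FQ (q u : ℤ) : ℤ[X] := C (4 * q ^ 2) * X ^ 2 + C (4 * q ^ 2 * u) * X + C (q ^ 2 * u ^ 2)

lemma FQ_eval (q u m : ℤ) : (FQ q u).eval m = (q * (2 * m + u)) ^ 2 := by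
  unfold FQ
  simp only [Polynomial.eval_add, Polynomial.eval_mul, Polynomial.eval_C, Polynomial.eval_pow, Polynomial.eval_X]
  ring

lemma FQ_deg (q u : ℤ) (hq : 1 ≤ q) : (FQ q u).natDegree = 2 :=
  Polynomial.natDegree_quadratic (by positivity)

lemma FQ_lead (q u : ℤ) (hq : 1 ≤ q) : (FQ q u).leadingCoeff = 4 * q ^ 2 :=
  Polynomial.leadingCoeff_quadratic (by positivity)

lemma four_sub (q m u c : ℤ) :
    ((q * (2 * (m + 1) + u)) ^ 2 + c) + ((q * (2 * (m - 1) + u)) ^ 2 + c) - 2 * ((q * (2 * m + u)) ^ 2 + c) = 8 * q ^ 2 := by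
  ring

/-- the local conditions: `q u + c` odd and `q ∤ c` -/
lemma adm (q : ℕ) (hq : q.Prime) (u c : ℤ) (h1 : ¬ (2 : ℤ) ∣ q * u + c) (h2 : ¬ (q : ℤ) ∣ c) (p : ℕ) (hp : p.Prime) :
    ∃ m : ℤ, ¬ (p : ℤ) ∣ ((q : ℤ) * (2 * m + u)) ^ 2 + c := by
  by_contra hc
  push Not at hc
  have e1 : (p : ℤ) ∣ 8 * (q : ℤ) ^ 2 := by
    rw [← four_sub (q : ℤ) 0 u c]
    exact dvd_sub (dvd_add (hc _) (hc _)) ((hc 0).mul_left 2)
  have e2 : p ∣ 8 * q ^ 2 := by exact_mod_cast e1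
  rcases (Nat.Prime.dvd_mul hp).1 e2 with h | h
  · have h3 : p ∣ 2 ^ 3 := by norm_num; exact h
    have h4 := (Nat.prime_dvd_prime_iff_eq hp Nat.prime_two).1 (hp.dvd_of_dvd_pow h3)
    have h5 := hc 0
    rw [h4] at h5
    apply h1
    have h6 : ((q : ℤ) * (2 * 0 + u)) ^ 2 + c - (q * u + c) = (q * u) * (q * u - 1) := by ring
    have h7 : (2 : ℤ) ∣ (q * u) * (q * u - 1) := by
      rcases Int.even_or_odd ((q : ℤ) * u) with h8 | h8
      · exact (even_iff_two_dvd.1 h8).mul_right _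
      · exact (even_iff_two_dvd.1 (h8.sub_odd odd_one)).mul_left _
    have h9 := dvd_sub h5 (h6 ▸ h7)
    rwa [sub_sub_cancel] at h9
  · have h4 := (Nat.prime_dvd_prime_iff_eq hp hq).1 (hp.dvd_of_dvd_pow h)
    have h5 := hc 0
    rw [h4] at h5
    apply h2
    have h6 : (q : ℤ) ∣ ((q : ℤ) * (2 * 0 + u)) ^ 2 := by
      rw [sq, mul_assoc]
      exact dvd_mul_right _ _
    exact (dvd_add_right h6).1 h5

end Run7.h373.QE.Fam
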