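import Pool.Agent.Run7.h373.QE.E3s

/-!
# Project QE: the assembly
-/

set_option autoImplicit false
set_option maxHeartbeats 1000000

namespace Run7.h373.QE

open Finset Filter
open scoped Polynomial
open Pool.Agent.H373R2.T7 (pz Vz lamz mem_pz)
open Pool.Agent.TH892.SW (ff ffn wt wt_nonneg wt_le)
open Pool.Agent.TH892.OW (fz lz evt_ll)
open Pool.Agent.TH204.WR (rho hh hh_nonneg)
open Run7.h373.QD (vv)
open Run7.h285.E3 (card_or cheb_ar)
open Pool.Agent.H442R2.EHI (evt_log_pow evt_log_ge)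

open Classical in
theorem ee (d : ℕ) (hd : 2 ≤ d) (A : ℕ) (ε : ℝ) (hε : 0 < ε) : ∃ T : ℝ, 0 < T ∧ ∃ B X₀ : ℕ, ∀ X : ℕ, X₀ ≤ X →
    ∀ F : ℤ[X], F.natDegree = d → |(F.leadingCoeff : ℝ)| ≤ A → ∀ (m₀ : ℤ) (M H : ℕ),
    (X : ℝ) ^ (1 / (3 * ((d : ℝ) - 1))) * Real.log X ^ B ≤ M → T * Real.log X ≤ H →
    (∀ n ∈ Ioc 0 (M + H), |((vv F m₀ n : ℤ) : ℝ)| ≤ A * X) →
    ∃ Bad ⊆ Icc (-(X : ℤ)) X ×ˢ range M, (#Bad : ℝ) ≤ ε * (X * M) ∧
    ∀ a ∈ Icc (-(X : ℤ)) X, ∀ t ∈ range M, (a, t) ∉ Bad → (∀ p : ℕ, p.Prime → rho F a p < p) →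
      ∀ ζ : ℕ, Real.log X ^ B ≤ ζ → ζ ^ 3 ≤ X → 0 < hh F a ζ ∧
        ∀ s : ℤ, (s = 1 ∨ s = -1) →
        |(pS s (fun i => vv F m₀ (t + i) + a) H : ℝ) - hh F a ζ * wS s (fun i => vv F m₀ (t + i) + a) H| ≤
          ε * (hh F a ζ * (H / Real.log X)) := by
  obtain ⟨ε₁, hε₁⟩ : ∃ ε₁, ε₁ = min ε 1 / 100 := ⟨_, rfl⟩
  have hmin : 0 < min ε 1 := lt_min hε one_pos
  have he0 : 0 < ε₁ := by rw [hε₁]; positivity
  have he1 : 12 * ε₁ ≤ ε := by rw [hε₁]; have := min_le_left ε 1; linarith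
  have he2 : ε₁ ≤ 1 / 100 := by rw [hε₁]; have := min_le_right ε 1; linarith
  obtain ⟨δ0, hδ0, hHG⟩ := hg d (by omega) A (ε / 4) (by positivity)
  obtain ⟨u, y0, hu1, hy0, hfl⟩ := fl_s d (by omega) ε₁ he0
  have hur : (0 : ℝ) < u := by exact_mod_cast hu1
  obtain ⟨Bg, Xg, hXg⟩ := hHG ε₁ he0 u hu1
  obtain ⟨θ, hθ⟩ : ∃ θ, θ = ε * (ε₁ * δ0) ^ 2 / 64 := ⟨_, rfl⟩
  have hθ0 : 0 < θ := by rw [hθ]; positivity
  obtain ⟨T, hT, E1, hff⟩ := mom_ff d hd A θ hθ0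
  obtain ⟨E, hE⟩ : ∃ E, E = E1 + 1 := ⟨_, rfl⟩
  obtain ⟨B, Xa, hff⟩ := hff E (by omega)
  obtain ⟨Xb, hfz⟩ := mom_fz d hd A θ hθ0 E u (by omega) hu1
  obtain ⟨Xc, hVz⟩ := Run7.h285.E2.Vz_sqrt E (by omega)
  obtain ⟨Xd, hwc⟩ := Run7.h285.E3.wt_close 1 ε₁ he0
  have hev : ∀ᶠ X : ℕ in atTop, (10000 + A + 16 / ε + 3 / (ε₁ * δ0) + 3 / ε₁ + (2 ^ (d + 1) / (ε₁ * (δ0 / 2))) ^ 2 : ℝ) ≤ Real.log X ∧
      ((y0 : ℝ) + 1) * Real.log (Real.log X) ^ 0 ≤ Real.log X ^ (1 / (u : ℝ)) ∧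
      Real.log X ^ 5 ≤ (X : ℝ) ^ (1 : ℝ) := by
    filter_upwards [evt_log_ge _, evt_ll 0 (1 / (u : ℝ)) (y0 + 1) (by positivity),
      evt_log_pow 5 1 (by norm_num)] with X a1 a2 a3
    exact ⟨a1, a2, a3⟩
  obtain ⟨Xe, hXe⟩ := eventually_atTop.1 hev
  refine ⟨T, by linarith, B + Bg, Xg + Xa + Xb + Xc + Xd + Xe, fun X hX F hF hFl m₀ M H hM hTH hval => ?_⟩
  obtain ⟨BadG, -, hBadG, hgood⟩ := hXg X (by omega) F hF hFl
  have hff := hff X (by omega) F hF hFl m₀ M H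
  have hVz := hVz X (by omega)
  have hwc := hwc X (by omega)
  obtain ⟨hl, hlu, hlX⟩ := hXe X (by omega)
  have p0 : (0 : ℝ) ≤ A := Nat.cast_nonneg _
  have p1 : 0 < 16 / ε := by positivity
  have p2 : 0 < 3 / (ε₁ * δ0) := by positivity
  have p3 : 0 < 3 / ε₁ := by positivity
  have p4 : 0 < (2 ^ (d + 1) / (ε₁ * (δ0 / 2))) ^ 2 := by positivity
  have hl1' : 1 ≤ Real.log X := by linarith
  have hTH' : Real.log X ≤ H := by
    have : 1 * Real.log X ≤ T * Real.log X := mul_le_mul_of_nonneg_right hT (by linarith)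
    linarith
  have hM1 : (X : ℝ) ^ (1 / (3 * ((d : ℝ) - 1))) * Real.log X ^ B ≤ M := by
    refine le_trans ?_ hM
    apply mul_le_mul_of_nonneg_left _ (by positivity)
    exact pow_le_pow_right₀ hl1' (by omega)
  have hM3 : (X : ℝ) ^ (1 / (3 * ((d : ℝ) - 1))) ≤ M := by
    refine le_trans ?_ hM1
    exact le_mul_of_one_le_right (by positivity) (one_le_pow₀ hl1')
  have hff := hff hM1 hTH hval
  have hfz := hfz X (by omega) F hF hFl m₀ M H hM3 hTH' hval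
  clear hXg hXe hev hHG
  rw [pow_zero, mul_one] at hlu
  rw [Real.rpow_one] at hlX
  have hXp : 1 ≤ X := by
    rcases Nat.eq_zero_or_pos X with h | h
    · rw [h] at hl1'; norm_num at hl1'
    · exact h
  have hX1 : (1 : ℝ) ≤ X := by exact_mod_cast hXp
  have hX0 : (0 : ℝ) < X := by linarith
  have hM0 : (0 : ℝ) < M := lt_of_lt_of_le (by positivity) hM3
  obtain ⟨w, hw⟩ : ∃ w, w = ⌊Real.log X ^ (1 / (u : ℝ))⌋₊ := ⟨_, rfl⟩
  obtain ⟨z, hz⟩ : ∃ z, z = ⌊Real.log X ^ E⌋₊ := ⟨_, rfl⟩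
  rw [← hz] at hff hfz hVz
  rw [← hw] at hfz hgood
  generalize Real.log X = l at *
  have hl0 : 0 < l := by linarith
  have hwl : (w : ℝ) ≤ l ^ (1 / (u : ℝ)) := by rw [hw]; exact Nat.floor_le (by positivity)
  have hwy : y0 ≤ w := by
    have h4 := Nat.lt_floor_add_one (l ^ (1 / (u : ℝ)))
    rw [← hw] at h4
    have h5 : (y0 : ℝ) < w := by linarith
    exact_mod_cast h5.le
  have hw2 : 2 ≤ w := by omega
  have hz2 : 2 ≤ z := by
    have h4 := Nat.lt_floor_add_one (l ^ E)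
    rw [← hz] at h4
    have h5 : l ≤ l ^ E := le_self_pow₀ hl1' (by omega)
    have h6 : (2 : ℝ) ≤ z := by linarith
    exact_mod_cast h6
  have hH0 : (0 : ℝ) < H := by linarith
  have hXM : 0 < (X : ℝ) * M := by positivity
  obtain ⟨S, hS⟩ : ∃ S, S = Icc (-(X : ℤ)) X ×ˢ range M := ⟨_, rfl⟩
  obtain ⟨lam1, hlam1⟩ : ∃ x, x = ε₁ * δ0 * ((H : ℝ) / (2 * l)) := ⟨_, rfl⟩
  obtain ⟨lam2, hlam2⟩ : ∃ x, x = ε₁ * δ0 * ((H : ℝ) / 2) := ⟨_, rfl⟩
  have hlam1p : 0 < lam1 := by rw [hlam1]; positivity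
  have hlam2p : 0 < lam2 := by rw [hlam2]; positivity
  -- counting
  have c1 : (#(S.filter (fun p => p.1 ∈ BadG)) : ℝ) ≤ ε / 4 * (X * M) := by
    have h4 : S.filter (fun p => p.1 ∈ BadG) ⊆ BadG ×ˢ range M := by
      intro p hp
      rw [mem_filter, hS, mem_product] at hp
      exact mem_product.2 ⟨hp.2, hp.1.2⟩
    have h5 := card_le_card h4
    rw [card_product, card_range] at h5
    have h6 : (#(S.filter (fun p => p.1 ∈ BadG)) : ℝ) ≤ #BadG * M := by exact_mod_cast h5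
    refine h6.trans ?_
    calc (#BadG : ℝ) * M ≤ (ε / 4 * X) * M := mul_le_mul_of_nonneg_right hBadG hM0.le
      _ = _ := by ring
  have cff : ∀ s : ℤ, (s = 1 ∨ s = -1) →
      (#(S.filter (fun p => lam1 < |∑ n ∈ Ioc 0 H, ff z (s * (vv F m₀ (p.2 + n) + p.1))|)) : ℝ) ≤ ε / 16 * (X * M) := by
    intro s hs
    rw [hS]
    refine (cheb2 (Icc (-(X : ℤ)) X) (range M) (fun a t => ∑ n ∈ Ioc 0 H, ff z (s * (vv F m₀ (t + n) + a)))
      lam1 _ hlam1p (hff s hs)).trans (le_of_eq ?_)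
    rw [hlam1]
    have e : ε₁ * δ0 * ((H : ℝ) / (2 * l)) = (ε₁ * δ0) * ((H : ℝ) / l / 2) := by field_simp
    rw [e]
    exact cheb_ar (X * M) (H / l) θ ε (ε₁ * δ0) (by positivity) (by positivity) hθ
  have cfz : ∀ s : ℤ, (s = 1 ∨ s = -1) →
      (#(S.filter (fun p => lam2 < |∑ n ∈ Ioc 0 H, fz w z (s * (vv F m₀ (p.2 + n) + p.1))|)) : ℝ) ≤ ε / 16 * (X * M) := by
    intro s hs
    rw [hS]
    refine (cheb2 (Icc (-(X : ℤ)) X) (range M) (fun a t => ∑ n ∈ Ioc 0 H, fz w z (s * (vv F m₀ (t + n) + a)))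
      lam2 _ hlam2p (hfz s hs)).trans (le_of_eq ?_)
    rw [hlam2]
    exact cheb_ar (X * M) H θ ε (ε₁ * δ0) hH0 (by positivity) hθ
  have cnn : (#(S.filter (fun p => (H : ℝ) / l ^ 4 < (nnY (fun n => vv F m₀ (p.2 + n) + p.1) H ((X : ℝ) / l ^ 6) : ℝ))) : ℝ) ≤
      ε / 4 * (X * M) := by
    rw [hS]
    refine (near2 F (Icc (-(X : ℤ)) X) m₀ M H ((X : ℝ) / l ^ 6) ((H : ℝ) / l ^ 4) (by positivity) (by positivity)).trans ?_
    have e : (M : ℝ) * (H * (2 * ((X : ℝ) / l ^ 6) + 1)) / ((H : ℝ) / l ^ 4) = M * (2 * X / l ^ 2 + l ^ 4) := by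
      field_simp
    rw [e]
    have h4 : 16 / ε ≤ l := by linarith
    rw [div_le_iff₀ hε] at h4
    have h5 : 2 * X / l ^ 2 ≤ ε / 8 * X := by
      rw [div_le_iff₀ (by positivity)]
      have h6 : l ≤ l ^ 2 := le_self_pow₀ hl1' (by norm_num)
      have h7 : 16 ≤ l ^ 2 * ε := h4.trans (mul_le_mul_of_nonneg_right h6 hε.le)
      nlinarith
    have h6 : l ^ 4 ≤ ε / 8 * X := by
      have h7 : 1 ≤ ε / 8 * l := by linarith
      calc l ^ 4 = 1 * l ^ 4 := (one_mul _).symm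
        _ ≤ (ε / 8 * l) * l ^ 4 := mul_le_mul_of_nonneg_right h7 (by positivity)
        _ = ε / 8 * l ^ 5 := by ring
        _ ≤ ε / 8 * X := mul_le_mul_of_nonneg_left hlX (by positivity)
    calc (M : ℝ) * (2 * X / l ^ 2 + l ^ 4) ≤ M * (ε / 8 * X + ε / 8 * X) := mul_le_mul_of_nonneg_left (by linarith) hM0.le
      _ = _ := by ring
  have c2 := card_or S _ _ _ _ c1 (card_or S _ _ _ _ (cff 1 (Or.inl rfl)) (card_or S _ _ _ _ (cff (-1) (Or.inr rfl))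
    (card_or S _ _ _ _ (cfz 1 (Or.inl rfl)) (card_or S _ _ _ _ (cfz (-1) (Or.inr rfl)) cnn))))
  refine ⟨_, ?_, c2.trans ?_, ?_⟩
  · rw [← hS]; exact filter_subset _ _
  · have : 0 ≤ ε * ((X : ℝ) * M) := by positivity
    linarith
  · intro a ha t ht hbad hadm ζ hζ1 hζ2
    rw [mem_filter] at hbad
    push Not at hbad
    obtain ⟨g1, g2, g3, g4, g5, g6⟩ := hbad (by rw [hS]; exact mem_product.2 ⟨ha, ht⟩)
    simp only at g1 g2 g3 g4 g5 g6
    obtain ⟨hδh, hhw⟩ := hgood a ha g1 hadm ζ (le_trans (pow_le_pow_right₀ hl1' (by omega)) hζ1) hζ2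
    obtain ⟨h, hhd⟩ : ∃ h, h = hh F a ζ := ⟨_, rfl⟩
    rw [← hhd] at hδh hhw ⊢
    have hh0 : 0 < h := by linarith
    refine ⟨hh0, fun s hs => ?_⟩
    have hle1 : lam1 ≤ ε₁ * δ0 * ((H : ℝ) / l) := by
      rw [hlam1]
      apply mul_le_mul_of_nonneg_left _ (by positivity)
      apply div_le_div_of_nonneg_left hH0.le hl0 (by linarith)
    have hle2 : lam2 ≤ ε₁ * δ0 * (H : ℝ) := by
      rw [hlam2]
      apply mul_le_mul_of_nonneg_left _ (by positivity)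
      linarith
    have hGs : |∑ n ∈ Ioc 0 H, ff z (s * (vv F m₀ (t + n) + a))| ≤ ε₁ * δ0 * ((H : ℝ) / l) := by
      rcases hs with h4 | h4 <;> rw [h4]
      · exact g2.trans hle1
      · exact g3.trans hle1
    have hFs : |∑ n ∈ Ioc 0 H, fz w z (s * (vv F m₀ (t + n) + a))| ≤ ε₁ * δ0 * (H : ℝ) := by
      rcases hs with h4 | h4 <;> rw [h4]
      · exact g4.trans hle2
      · exact g5.trans hle2
    have hV1 : δ0 / 2 ≤ hh F a w := by
      have h4 := (abs_le.1 hhw).1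
      have h5 : ε₁ * h ≤ 1 / 100 * h := mul_le_mul_of_nonneg_right he2 hh0.le
      linarith
    have hQ := hfl w hwy F hF a m₀ t H hadm l (δ0 / 2) (by linarith) (by positivity) hV1 hwl hTH' s
    have hVzl : (Vz z)⁻¹ ≤ l := by
      have h4 : √l ≤ l := by rw [Real.sqrt_le_left hl0.le]; nlinarith
      have h5 := inv_pos.2 (Pool.Agent.TH892.OW.Vz_pos z)
      linarith
    have hcomb := comb_s w z hz2 s hs (fun i => vv F m₀ (t + i) + a) H l h (hh F a w) δ0 ε₁ ((X : ℝ) / l ^ 6) ((H : ℝ) / l ^ 4)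
      hl1' he0 he2 hh0 hδh hGs hFs g6
      (by
        have h4 : 3 / (ε₁ * δ0) ≤ l := by linarith
        rw [div_le_iff₀ (by positivity)] at h4
        have h5 : l ≤ l ^ 2 := le_self_pow₀ hl1' (by norm_num)
        have h6 : 3 ≤ ε₁ * δ0 * l ^ 2 := by
          have := mul_le_mul_of_nonneg_left h5 (show 0 ≤ ε₁ * δ0 by positivity)
          linarith
        calc 3 * ((H : ℝ) / l ^ 4) * (Vz z)⁻¹ ≤ 3 * ((H : ℝ) / l ^ 4) * l := mul_le_mul_of_nonneg_left hVzl (by positivity)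
          _ = 3 * ((H : ℝ) / l ^ 3) := by field_simp
          _ ≤ (ε₁ * δ0 * l ^ 2) * ((H : ℝ) / l ^ 3) := mul_le_mul_of_nonneg_right h6 (by positivity)
          _ = ε₁ * δ0 * ((H : ℝ) / l) := by field_simp)
      (by
        have h4 : 3 / ε₁ ≤ l := by linarith
        rw [div_le_iff₀ (by positivity)] at h4
        have h5 : l ≤ l ^ 3 := le_self_pow₀ hl1' (by norm_num)
        have h6 : 3 ≤ ε₁ * l ^ 3 := by
          have := mul_le_mul_of_nonneg_left h5 he0.le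
          linarith
        calc 3 * ((H : ℝ) / l ^ 4) ≤ (ε₁ * l ^ 3) * ((H : ℝ) / l ^ 4) := mul_le_mul_of_nonneg_right h6 (by positivity)
          _ = ε₁ * ((H : ℝ) / l) := by field_simp)
      (by
        intro n hn hκ
        refine hwc _ hκ ?_
        rw [mem_Ioc] at hn
        rw [mem_range] at ht
        rw [mem_Icc] at ha
        have h4 : (((vv F m₀ (t + n) + a).natAbs : ℕ) : ℝ) = |((vv F m₀ (t + n) + a : ℤ) : ℝ)| := by
          rw [Nat.cast_natAbs, Int.cast_abs]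
        rw [h4]
        have h5 := hval (t + n) (by rw [mem_Ioc]; omega)
        have h6 : |((a : ℤ) : ℝ)| ≤ X := by
          rw [abs_le]
          constructor
          · have : ((-(X : ℤ) : ℤ) : ℝ) ≤ (a : ℝ) := by exact_mod_cast ha.1
            push_cast at this
            exact this
          · exact_mod_cast ha.2
        push_cast
        have h7 := abs_add_le ((vv F m₀ (t + n) : ℤ) : ℝ) (a : ℝ)
        rw [pow_one]
        have h8 : ((A : ℝ) + 1) * X ≤ l * X := mul_le_mul_of_nonneg_right (by linarith) hX0.le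
        linarith)
      hhw hQ
    refine hcomb.trans ?_
    exact mul_le_mul_of_nonneg_right he1 (by positivity)

end Run7.h373.QE
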