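import Pool.Agent.Run7.h373.QE.E3c
import Pool.Agent.Run7.h373.QW.Fin

/-!
# Project QE: quadratic polynomials, with the full constant
-/

set_option autoImplicit false
set_option maxHeartbeats 1000000

namespace Run7.h373.QE

open Finset Filter Topology
open scoped Polynomial
open Pool.Agent.N792 (Vc V1 partialC eps gcdProd Admissible fv)
open Pool.Agent.H373R2.T7 (pz Vz mem_pz)
open Pool.Agent.TH892.SW (wt wt_nonneg wt_le)
open Pool.Agent.TH204.WR (rho hh)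
open Run7.h373.QD (vv)
open Run7.h373.QW (qv pC lS lS_nonneg lS_le RR RR_low con)
open Pool.Agent.H442R2.EHI (evt_log_pow evt_log_ge)

/-- the polynomial `a X² + b X` -/
noncomputable def FQ (a b : ℤ) : ℤ[X] := Polynomial.C a * Polynomial.X ^ 2 + Polynomial.C b * Polynomial.X

lemma FQ_eval (a b x : ℤ) : (FQ a b).eval x = a * x ^ 2 + b * x := by
  unfold FQ; simp

lemma FQ_deg (a b : ℤ) (ha : 1 ≤ a) : (FQ a b).natDegree = 2 := by
  have h : FQ a b = Polynomial.C a * Polynomial.X ^ 2 + Polynomial.C b * Polynomial.X + Polynomial.C 0 := by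
    unfold FQ; simp
  rw [h]
  exact Polynomial.natDegree_quadratic (by omega)

lemma FQ_lead (a b : ℤ) (ha : 1 ≤ a) : (FQ a b).leadingCoeff = a := by
  have h : FQ a b = Polynomial.C a * Polynomial.X ^ 2 + Polynomial.C b * Polynomial.X + Polynomial.C 0 := by
    unfold FQ; simp
  rw [h]
  exact Polynomial.leadingCoeff_quadratic (by omega)

lemma rho_FQ (a b c : ℤ) (p : ℕ) : rho (FQ a b) c p = Pool.Agent.N792.rho a b c p := by
  unfold rho Pool.Agent.N792.rho fv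
  simp only [FQ_eval]

lemma hh_FQ (a b c : ℤ) (z : ℕ) : hh (FQ a b) c z = RR a b c z := by
  unfold hh RR
  rw [Run7.h373.QW.Vc_eq, ← Run7.h373.QW.pz_V1, div_eq_inv_mul]
  congr 1
  exact prod_congr rfl fun p _ => by rw [rho_FQ]

lemma adm_FQ (a b c : ℤ) (h : Admissible a b c) (p : ℕ) (hp : p.Prime) : rho (FQ a b) c p < p := by
  rw [rho_FQ]
  by_contra hc
  push Not at hc
  have hle : Pool.Agent.N792.rho a b c p ≤ p := by
    unfold Pool.Agent.N792.rho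
    refine (card_filter_le _ _).trans (le_of_eq (card_range p))
  have he : Pool.Agent.N792.rho a b c p = p := le_antisymm hle hc
  obtain ⟨z, hz⟩ : ∃ z : ℕ, z = p + a.toNat + 2 := ⟨_, rfl⟩
  have h1 := RR_low h (z := z) (by omega) (by omega)
  have h2 : RR a b c z = 0 := by
    unfold RR
    rw [Run7.h373.QW.Vc_eq]
    have hpz : p ∈ pz z := mem_pz.2 ⟨by have := hp.one_le; omega, hp⟩
    rw [prod_eq_zero hpz, zero_div]
    rw [he]
    have : (p : ℝ) ≠ 0 := by exact_mod_cast hp.ne_zero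
    rw [div_self this, sub_self]
  rw [h2] at h1
  have h3 := Pool.Agent.H373R2.T7.Vz_pos z
  have : 0 < Vz z ^ 2 := by positivity
  linarith

lemma pS_pC (s a b c : ℤ) (m₀ m H : ℕ) (h : m₀ ≤ m) :
    pS s (fun i => vv (FQ a b) (m₀ : ℤ) ((m - m₀) + i) + c) H = pC s a b c m (m + H) := by
  unfold pS pC
  have e : ∀ i : ℕ, vv (FQ a b) (m₀ : ℤ) ((m - m₀) + i) + c = qv a b c ((m + i : ℕ) : ℤ) := by
    intro i
    unfold vv qv
    rw [FQ_eval]
    have : ((m₀ : ℤ) + (((m - m₀) + i : ℕ) : ℤ)) = ((m + i : ℕ) : ℤ) := by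
      push_cast [Nat.cast_sub h]; ring
    rw [this]
  simp only [e]
  refine card_nbij' (fun i => m + i) (fun n => n - m) ?_ ?_ ?_ ?_
  · intro i hi
    rw [mem_coe, mem_filter, mem_Ioc] at hi ⊢
    exact ⟨⟨show m < m + i by omega, show m + i ≤ m + H by omega⟩, hi.2⟩
  · intro n hn
    rw [mem_coe, mem_filter, mem_Ioc] at hn ⊢
    refine ⟨⟨show 0 < n - m by omega, show n - m ≤ H by omega⟩, ?_⟩
    have e2 : m + (n - m) = n := by omega
    show (s * qv a b c ((m + (n - m) : ℕ) : ℤ)).toNat.Prime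
    rw [e2]
    exact hn.2
  · intro i _
    show m + i - m = i
    omega
  · intro n hn
    rw [mem_coe, mem_filter, mem_Ioc] at hn
    show m + (n - m) = n
    omega

lemma wS_lS (s a b c : ℤ) (m₀ m H : ℕ) (h : m₀ ≤ m) :
    wS s (fun i => vv (FQ a b) (m₀ : ℤ) ((m - m₀) + i) + c) H = lS s a b c m (m + H) := by
  unfold wS lS
  have e : ∀ i : ℕ, vv (FQ a b) (m₀ : ℤ) ((m - m₀) + i) + c = qv a b c ((m + i : ℕ) : ℤ) := by
    intro i
    unfold vv qv
    rw [FQ_eval]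
    have : ((m₀ : ℤ) + (((m - m₀) + i : ℕ) : ℤ)) = ((m + i : ℕ) : ℤ) := by
      push_cast [Nat.cast_sub h]; ring
    rw [this]
  simp only [e]
  refine sum_nbij' (fun i => m + i) (fun n => n - m) ?_ ?_ ?_ ?_ ?_
  · intro i hi
    rw [mem_filter, mem_Ioc] at hi ⊢
    exact ⟨by omega, hi.2⟩
  · intro n hn
    rw [mem_filter, mem_Ioc] at hn ⊢
    refine ⟨by omega, ?_⟩
    have e2 : m + (n - m) = n := by omega
    rw [e2]
    exact hn.2
  · intro i _
    omega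
  · intro n hn
    rw [mem_filter, mem_Ioc] at hn
    omega
  · intro i _; rfl

open Classical in
/-- **quadratic polynomials at the optimal scale** -/
theorem quad (A : ℕ) (ε : ℝ) (hε : 0 < ε) : ∃ T : ℝ, 0 < T ∧ ∃ B X₀ : ℕ, ∀ X : ℕ, X₀ ≤ X → ∀ a b : ℤ, 1 ≤ a → (a : ℝ) ≤ A →
    |(b : ℝ)| ≤ A * √X → ∀ m₀ M H : ℕ, (X : ℝ) ^ (1 / 3 : ℝ) * Real.log X ^ B ≤ M → T * Real.log X ≤ H →
    (m₀ : ℝ) + M + H ≤ A * √X →
    ∃ Bad ⊆ Icc (-(X : ℤ)) X ×ˢ Ico m₀ (m₀ + M), (#Bad : ℝ) ≤ ε * (X * M) ∧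
      ∀ c ∈ Icc (-(X : ℤ)) X, ∀ m ∈ Ico m₀ (m₀ + M), (c, m) ∉ Bad → Admissible a b c →
        ∃ S : ℝ, 0 < S ∧ Tendsto (fun z => partialC a b c z) atTop (𝓝 S) ∧ ∀ s : ℤ, (s = 1 ∨ s = -1) →
          |(pC s a b c m (m + H) : ℝ) - eps a b * S * gcdProd a b * lS s a b c m (m + H)| ≤
            ε * (eps a b * S * gcdProd a b * (H / Real.log X)) := by
  obtain ⟨A', hA'⟩ : ∃ A' : ℕ, A' = A ^ 3 + A ^ 2 + A := ⟨_, rfl⟩
  obtain ⟨T, hT, B, X1, h1⟩ := ee 2 le_rfl A' (ε / 4) (by positivity)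
  obtain ⟨E, hE⟩ : ∃ E, E = B + 40 := ⟨_, rfl⟩
  obtain ⟨X2, h2⟩ := con 2 1 E (by omega)
  have hev : ∀ᶠ X : ℕ in atTop, (10000 + A + 16 / ε : ℝ) ≤ Real.log X ∧ Real.log X ^ (3 * E) ≤ (X : ℝ) ^ (1 : ℝ) := by
    filter_upwards [evt_log_ge _, evt_log_pow (3 * E) 1 (by norm_num)] with X a1 a2
    exact ⟨a1, a2⟩
  obtain ⟨X3, h3⟩ := eventually_atTop.1 hev
  refine ⟨T, hT, B, X1 + X2 + X3, fun X hX a b ha1 ha2 hb m₀ M H hM hH hW => ?_⟩
  obtain ⟨hl, hlX⟩ := h3 X (by omega)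
  have q1 : 0 < 16 / ε := by positivity
  have hA0 : (0 : ℝ) ≤ A := Nat.cast_nonneg _
  have hX0 : (0 : ℝ) ≤ X := Nat.cast_nonneg _
  have hF := FQ_deg a b ha1
  have hFl := FQ_lead a b ha1
  have hm0 : (0 : ℝ) ≤ m₀ := Nat.cast_nonneg _
  have hM0' : (0 : ℝ) ≤ M := Nat.cast_nonneg _
  have hH0' : (0 : ℝ) ≤ H := Nat.cast_nonneg _
  have hsX : √(X : ℝ) * √(X : ℝ) = X := Real.mul_self_sqrt hX0
  have hval : ∀ n ∈ Ioc 0 (M + H), |((vv (FQ a b) (m₀ : ℤ) n : ℤ) : ℝ)| ≤ (A' : ℝ) * X := by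
    intro n hn
    rw [mem_Ioc] at hn
    unfold vv
    rw [FQ_eval]
    push_cast
    have g1 : ((m₀ : ℝ) + n) ≤ A * √X := by
      have : (n : ℝ) ≤ M + H := by exact_mod_cast hn.2
      linarith
    have g0 : (0 : ℝ) ≤ (m₀ : ℝ) + n := by positivity
    have g2 : ((m₀ : ℝ) + n) ^ 2 ≤ A ^ 2 * X := by
      calc ((m₀ : ℝ) + n) ^ 2 ≤ (A * √X) ^ 2 := pow_le_pow_left₀ g0 g1 2
        _ = A ^ 2 * X := by rw [mul_pow, sq (√(X : ℝ)), hsX]
    have ha0 : (0 : ℝ) ≤ a := by exact_mod_cast (by omega : 0 ≤ a)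
    have g3 : (a : ℝ) * ((m₀ : ℝ) + n) ^ 2 ≤ A * (A ^ 2 * X) := mul_le_mul ha2 g2 (by positivity) hA0
    have g4 : |(b : ℝ) * ((m₀ : ℝ) + n)| ≤ A ^ 2 * X := by
      rw [abs_mul, abs_of_nonneg g0]
      calc |(b : ℝ)| * ((m₀ : ℝ) + n) ≤ (A * √X) * (A * √X) := mul_le_mul hb g1 g0 (by positivity)
        _ = A ^ 2 * (√X * √X) := by ring
        _ = A ^ 2 * X := by rw [hsX]
    have g5 := abs_add_le ((a : ℝ) * ((m₀ : ℝ) + n) ^ 2) ((b : ℝ) * ((m₀ : ℝ) + n))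
    rw [abs_of_nonneg (by positivity : (0 : ℝ) ≤ (a : ℝ) * ((m₀ : ℝ) + n) ^ 2)] at g5
    rw [hA']
    push_cast
    have g6 : 0 ≤ (A : ℝ) * X := by positivity
    nlinarith
  obtain ⟨Bad1, k1, k2, k3⟩ := h1 X (by omega) (FQ a b) hF (by
      rw [hFl, hA', abs_of_nonneg (by exact_mod_cast (by omega : 0 ≤ a))]
      push_cast
      have : 0 ≤ (A : ℝ) ^ 3 + (A : ℝ) ^ 2 := by positivity
      linarith) (m₀ : ℤ) M H (by
      norm_num
      norm_num at hM
      exact hM) hH hval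
  have hA1 : (a : ℝ) ≤ Real.log X ^ 1 := by
    rw [pow_one]; linarith
  obtain ⟨Bad2, j1, j2, j3⟩ := h2 X (by omega) a b ha1 hA1 (by
    refine hb.trans ?_
    rw [pow_one, mul_comm]
    exact mul_le_mul_of_nonneg_left (by linarith) (Real.sqrt_nonneg _))
  clear h1 h2 h3 hev hA1
  generalize Real.log (X : ℝ) = l at *
  have hl0 : 0 < l := by linarith
  have hl1 : 1 ≤ l := by linarith
  have hε16 : 16 ≤ ε * l := by
    have : 16 / ε ≤ l := by linarith
    rw [div_le_iff₀ hε] at this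
    linarith
  obtain ⟨z, hz⟩ : ∃ z, z = ⌊l ^ E⌋₊ := ⟨_, rfl⟩
  rw [← hz] at j3
  have hz1 : l ^ B ≤ z := by
    have g1 := Nat.lt_floor_add_one (l ^ E)
    rw [← hz] at g1
    have g2 : l ^ B * l ≤ l ^ E := by
      rw [← pow_succ]; exact pow_le_pow_right₀ hl1 (by omega)
    have g3 : 1 ≤ l ^ B := one_le_pow₀ hl1
    nlinarith
  have hz2 : z ^ 3 ≤ X := by
    have g1 : (z : ℝ) ≤ l ^ E := by rw [hz]; exact Nat.floor_le (by positivity)
    have g2 : (z : ℝ) ^ 3 ≤ X := by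
      calc (z : ℝ) ^ 3 ≤ (l ^ E) ^ 3 := pow_le_pow_left₀ (Nat.cast_nonneg _) g1 3
        _ = l ^ (3 * E) := by rw [← pow_mul, mul_comm]
        _ ≤ X := by rw [Real.rpow_one] at hlX; exact hlX
    exact_mod_cast g2
  refine ⟨(Bad1.image (fun p => (p.1, m₀ + p.2))) ∪ (Bad2 ×ˢ Ico m₀ (m₀ + M)), ?_, ?_, ?_⟩
  · apply union_subset
    · intro p hp
      rw [mem_image] at hp
      obtain ⟨r, hr, rfl⟩ := hp
      have g1 := k1 hr
      rw [mem_product, mem_range] at g1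
      rw [mem_product, mem_Ico]
      exact ⟨g1.1, by simp only; omega, by simp only; omega⟩
    · exact product_subset_product_left j1
  · have g1 := card_union_le (Bad1.image (fun p => (p.1, m₀ + p.2))) (Bad2 ×ˢ Ico m₀ (m₀ + M))
    have g2 : (#(Bad1.image (fun p => (p.1, m₀ + p.2)) ∪ (Bad2 ×ˢ Ico m₀ (m₀ + M))) : ℝ) ≤ #Bad1 + #Bad2 * M := by
      have g3 : #(Bad1.image (fun p => (p.1, m₀ + p.2))) ≤ #Bad1 := card_image_le
      rw [card_product, Nat.card_Ico, Nat.add_sub_cancel_left] at g1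
      exact_mod_cast g1.trans (Nat.add_le_add_right g3 _)
    have g4 : (#Bad2 : ℝ) * M ≤ (ε / 16 * X) * M := by
      apply mul_le_mul_of_nonneg_right _ hM0'
      refine j2.trans ?_
      rw [div_le_iff₀ (by positivity)]
      have g5 : 1 ≤ ε / 16 * l := by linarith
      have g6 : l ≤ l ^ 2 := le_self_pow₀ hl1 (by norm_num)
      calc (X : ℝ) = X * 1 := (mul_one _).symm
        _ ≤ X * (ε / 16 * l) := mul_le_mul_of_nonneg_left g5 hX0
        _ ≤ X * (ε / 16 * l ^ 2) := by gcongr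
        _ = ε / 16 * X * l ^ 2 := by ring
    have g7 : 0 ≤ ε * ((X : ℝ) * M) := by positivity
    linarith
  · intro c hc m hm hbad hadm
    rw [mem_union, not_or, mem_product] at hbad
    obtain ⟨f1, f2⟩ := hbad
    have hc2 : c ∉ Bad2 := fun h => f2 ⟨h, hm⟩
    obtain ⟨S, hS0, hS1, hS2⟩ := j3 c hc hc2 hadm
    refine ⟨S, hS0, hS1, fun s hs => ?_⟩
    rw [mem_Ico] at hm
    obtain ⟨n1, n2⟩ := k3 c hc (m - m₀) (by rw [mem_range]; omega) (by
      intro hcc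
      apply f1
      rw [mem_image]
      refine ⟨_, hcc, ?_⟩
      simp only
      rw [Nat.add_sub_cancel' hm.1]) (fun p hp => adm_FQ a b c hadm p hp) z hz1 hz2
    have n3 := n2 s hs
    rw [pS_pC s a b c m₀ m H hm.1, wS_lS s a b c m₀ m H hm.1] at n3
    have hRR : Vc a b c z / V1 z = hh (FQ a b) c z := by rw [hh_FQ]; rfl
    rw [hRR] at hS2
    have hW0 := lS_nonneg s a b c m (m + H)
    have hW1 := lS_le s a b c m (m + H) (by omega)
    have hW2 : ((m + H : ℕ) : ℝ) - m = H := by push_cast; ring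
    rw [hW2] at hW1
    generalize lS s a b c m (m + H) = W at *
    generalize (pC s a b c m (m + H) : ℝ) = P at *
    generalize hh (FQ a b) c z = h at *
    generalize eps a b * S * gcdProd a b = K at *
    obtain ⟨q, hq⟩ : ∃ q, q = (H : ℝ) / l := ⟨_, rfl⟩
    rw [← hq] at n3 ⊢
    have hq0 : 0 ≤ q := by rw [hq]; positivity
    have hHq : (H : ℝ) = q * l := by rw [hq]; field_simp
    have hl2 : h / l ^ 2 ≤ h / 2 := by
      apply div_le_div_of_nonneg_left n1.le (by norm_num)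
      nlinarith
    have s1 := abs_le.1 hS2
    have s2 : h ≤ 2 * K := by linarith
    have s3 : |(h - K) * W| ≤ ε / 4 * (h * q) := by
      rw [abs_mul, abs_of_nonneg hW0, abs_sub_comm]
      calc |K - h| * W ≤ (h / l ^ 2) * (3 / 2 * H) := mul_le_mul hS2 hW1 hW0 (by positivity)
        _ = 3 / (2 * l) * (h * q) := by rw [hHq]; field_simp
        _ ≤ ε / 4 * (h * q) := by
            apply mul_le_mul_of_nonneg_right _ (by positivity)
            rw [div_le_iff₀ (by positivity)]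
            linarith
    have s4 : P - K * W = (P - h * W) + (h - K) * W := by ring
    rw [s4]
    have s5 := abs_add_le (P - h * W) ((h - K) * W)
    have s6 : h * q ≤ 2 * K * q := mul_le_mul_of_nonneg_right s2 hq0
    have s7 : ε / 2 * (h * q) ≤ ε / 2 * (2 * K * q) := mul_le_mul_of_nonneg_left s6 (by positivity)
    linarith

end Run7.h373.QE
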