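import Pool.Agent.Run7.h373.QE.Quad

/-!
# A prime plus a square: the quadratic polynomials `n - m²`
-/

set_option autoImplicit false
set_option maxHeartbeats 1000000

namespace Run7.h373.QE.Sq

open Finset Filter Topology
open Pool.Agent.N792 (partialC eps gcdProd Admissible)
open Pool.Agent.TH892.SW (wt)
open Run7.h373.QW (qv pC lS)

/-- the product of `1 - (n / p) / (p - 1)` over the primes `3 ≤ p ≤ z` -/
noncomputable def Cn (n z : ℕ) : ℝ := ∏ p ∈ (Icc 3 z).filter Nat.Prime, (1 - (jacobiSym n p : ℝ) / ((p : ℝ) - 1))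

/-- the number of the `u < m ≤ v` with `n - m²` prime -/
def cnt (n u v : ℕ) : ℕ := #((Ioc u v).filter (fun m : ℕ => Nat.Prime (n - m ^ 2)))

/-- the sum of `1 / log (n - m²)` over the `u < m ≤ v` with `m² + 2 ≤ n` -/
noncomputable def lsum (n u v : ℕ) : ℝ := ∑ m ∈ (Ioc u v).filter (fun m : ℕ => m ^ 2 + 2 ≤ n), 1 / Real.log ((n - m ^ 2 : ℕ) : ℝ)

lemma adm (n : ℕ) (hn : ¬ IsSquare n) : Admissible 1 0 (-(n : ℤ)) := by
  refine ⟨by norm_num, fun d hd _ _ => isUnit_of_dvd_one hd, fun h => ?_, fun h => ?_⟩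
  · have := h.1
    norm_num at this
  · apply hn
    obtain ⟨r, hr⟩ := h
    have h1 : 4 * (n : ℤ) = r * r := by
      rw [← hr]; ring
    have h2 : (2 : ℤ) ∣ r := by
      have : (2 : ℤ) ∣ r * r := by rw [← h1]; exact ⟨2 * n, by ring⟩
      rcases Int.Prime.dvd_mul' Nat.prime_two (by exact_mod_cast this) with h | h <;> exact_mod_cast h
    obtain ⟨k, hk⟩ := h2
    have h3 : (n : ℤ) = k * k := by
      rw [hk] at h1
      nlinarith
    refine ⟨k.natAbs, ?_⟩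
    have h4 : (n : ℤ) = ((k.natAbs * k.natAbs : ℕ) : ℤ) := by
      rw [h3]; push_cast; rw [← abs_mul_abs_self k]
    exact_mod_cast h4

lemma partialC_eq (n z : ℕ) : partialC 1 0 (-(n : ℤ)) z = Cn n z := by
  unfold partialC Cn
  have hs : (Icc 3 z).filter (fun p : ℕ => p.Prime ∧ ¬ (p : ℤ) ∣ 1) = (Icc 3 z).filter Nat.Prime := by
    refine filter_congr fun p _ => ?_
    constructor
    · exact fun h => h.1
    · intro h
      refine ⟨h, fun hd => ?_⟩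
      have h1 : (p : ℤ) ≤ 1 := Int.le_of_dvd (by norm_num) hd
      have := h.two_le
      omega
  rw [hs]
  refine prod_congr rfl fun p hp => ?_
  rw [mem_filter, mem_Icc] at hp
  have h1 : (0 : ℤ) ^ 2 - 4 * 1 * (-(n : ℤ)) = 2 ^ 2 * n := by ring
  have h2 : jacobiSym (2 ^ 2) p = 1 := by
    apply jacobiSym.sq_one'
    have h3 : Nat.Coprime 2 p := by
      rw [Nat.coprime_primes Nat.prime_two hp.2]
      omega
    exact h3
  rw [h1, jacobiSym.mul_left, h2, one_mul]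

lemma eps_eq : eps 1 0 = 1 := by
  unfold eps
  rw [if_neg (by norm_num)]

lemma gcdProd_eq : gcdProd 1 0 = 1 := by
  unfold gcdProd
  simp

lemma val_eq (n m : ℕ) : (-1 * qv 1 0 (-(n : ℤ)) m).toNat = n - m ^ 2 := by
  unfold qv
  have h : -1 * (1 * (m : ℤ) ^ 2 + 0 * m + -(n : ℤ)) = (n : ℤ) - ((m ^ 2 : ℕ) : ℤ) := by push_cast; ring
  rw [h]
  omega

lemma pC_cnt (n u v : ℕ) : pC (-1) 1 0 (-(n : ℤ)) u v = cnt n u v := by
  unfold pC cnt
  congr 1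
  refine filter_congr fun m _ => ?_
  rw [val_eq]

lemma lS_lsum (n u v : ℕ) : lS (-1) 1 0 (-(n : ℤ)) u v = lsum n u v := by
  unfold lS lsum
  have hs : (Ioc u v).filter (fun m : ℕ => 2 ≤ -1 * qv 1 0 (-(n : ℤ)) m) = (Ioc u v).filter (fun m : ℕ => m ^ 2 + 2 ≤ n) := by
    refine filter_congr fun m _ => ?_
    unfold qv
    have h : -1 * (1 * (m : ℤ) ^ 2 + 0 * m + -(n : ℤ)) = (n : ℤ) - ((m ^ 2 : ℕ) : ℤ) := by push_cast; ring
    rw [h]
    omega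
  rw [hs]
  refine sum_congr rfl fun m _ => ?_
  rw [val_eq]
  rfl

/-- the exceptional set, in terms of `n` -/
lemma bad_card (N : ℕ) (Bad : Finset ℤ) : #((Icc 1 N).filter (fun n : ℕ => -(n : ℤ) ∈ Bad)) ≤ #Bad := by
  refine card_le_card_of_injOn (fun n : ℕ => -(n : ℤ)) ?_ ?_
  · intro n hn
    rw [mem_coe, mem_filter] at hn
    exact hn.2
  · intro x _ y _ h
    simp only at h
    omega

/-- windows of length `N^(1/6)` -/
theorem every (U C : ℕ) : ∃ B X₀ : ℕ, ∀ N : ℕ, X₀ ≤ N → ∀ u H : ℕ, (N : ℝ) ^ (1 / 6 : ℝ) * Real.log N ^ B ≤ H →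
    (u : ℝ) + H ≤ √N * Real.log N ^ C →
    ∃ Bad ⊆ Icc 1 N, (#Bad : ℝ) ≤ N / Real.log N ^ U ∧ ∀ n ∈ Icc 1 N, n ∉ Bad → ¬ IsSquare n →
      ∃ S : ℝ, 0 < S ∧ Tendsto (fun z => Cn n z) atTop (𝓝 S) ∧
        |(cnt n u (u + H) : ℝ) - S * lsum n u (u + H)| ≤ S * H / Real.log N ^ U := by
  obtain ⟨B, X₀, h⟩ := Run7.h373.QW.final U C
  obtain ⟨X₁, h1⟩ := Run7.h385.CR.ev_lge 1
  refine ⟨B, X₀ + X₁, fun N hN u H hH hu => ?_⟩
  have hl1 := h1 N (by omega)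
  obtain ⟨Bad, k1, k2, k3⟩ := h N (by omega) 1 0 le_rfl (by
      push_cast
      exact one_le_pow₀ hl1) (by
      push_cast
      rw [abs_zero]
      positivity) u H hH hu
  refine ⟨(Icc 1 N).filter (fun n : ℕ => -(n : ℤ) ∈ Bad), filter_subset _ _, ?_, ?_⟩
  · refine le_trans ?_ k2
    exact_mod_cast bad_card N Bad
  · intro n hn hnb hsq
    rw [mem_filter, not_and] at hnb
    have hnb := hnb hn
    rw [mem_Icc] at hn
    obtain ⟨S, m1, m2, m3⟩ := k3 (-(n : ℤ)) (by rw [mem_Icc]; omega) hnb (adm n hsq)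
    refine ⟨S, m1, ?_, ?_⟩
    · refine m2.congr fun z => ?_
      exact partialC_eq n z
    · have h3 := m3 (-1) (Or.inr rfl)
      rw [pC_cnt, lS_lsum, eps_eq, gcdProd_eq, one_mul, mul_one] at h3
      exact h3

lemma bad_card2 (N u L : ℕ) (Bad : Finset (ℤ × ℕ)) :
    #((Icc 1 N ×ˢ Ico u (u + L)).filter (fun p : ℕ × ℕ => (-(p.1 : ℤ), p.2) ∈ Bad)) ≤ #Bad := by
  refine card_le_card_of_injOn (fun p : ℕ × ℕ => (-(p.1 : ℤ), p.2)) ?_ ?_
  · intro p hp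
    rw [mem_coe, mem_filter] at hp
    exact hp.2
  · intro x _ y _ h
    simp only [Prod.mk.injEq] at h
    exact Prod.ext (by omega) h.2

/-- windows of length `T log N` -/
theorem opt (A : ℕ) (ε : ℝ) (hε : 0 < ε) : ∃ T : ℝ, 0 < T ∧ ∃ B X₀ : ℕ, ∀ N : ℕ, X₀ ≤ N → ∀ m₀ L H : ℕ,
    (N : ℝ) ^ (1 / 3 : ℝ) * Real.log N ^ B ≤ L → T * Real.log N ≤ H → (m₀ : ℝ) + L + H ≤ A * √N →
    ∃ Bad ⊆ Icc 1 N ×ˢ Ico m₀ (m₀ + L), (#Bad : ℝ) ≤ ε * (N * L) ∧
      ∀ n ∈ Icc 1 N, ∀ u ∈ Ico m₀ (m₀ + L), (n, u) ∉ Bad → ¬ IsSquare n →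
      ∃ S : ℝ, 0 < S ∧ Tendsto (fun z => Cn n z) atTop (𝓝 S) ∧
        |(cnt n u (u + H) : ℝ) - S * lsum n u (u + H)| ≤ ε * (S * (H / Real.log N)) := by
  obtain ⟨T, hT, B, X₀, h⟩ := Run7.h373.QE.quad (A + 1) ε hε
  refine ⟨T, hT, B, X₀, fun N hN m₀ L H hL hH hu => ?_⟩
  have hs : 0 ≤ √(N : ℝ) := Real.sqrt_nonneg _
  obtain ⟨Bad, k1, k2, k3⟩ := h N hN 1 0 le_rfl (by
      push_cast
      have : (0 : ℝ) ≤ A := Nat.cast_nonneg _
      linarith) (by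
      push_cast
      rw [abs_zero]
      positivity) m₀ L H hL hH (by
      push_cast
      linarith)
  refine ⟨(Icc 1 N ×ˢ Ico m₀ (m₀ + L)).filter (fun p : ℕ × ℕ => (-(p.1 : ℤ), p.2) ∈ Bad), filter_subset _ _, ?_, ?_⟩
  · refine le_trans ?_ k2
    exact_mod_cast bad_card2 N m₀ L Bad
  · intro n hn u hu' hnb hsq
    rw [mem_filter, not_and, mem_product] at hnb
    have hnb := hnb ⟨hn, hu'⟩
    rw [mem_Icc] at hn
    obtain ⟨S, m1, m2, m3⟩ := k3 (-(n : ℤ)) (by rw [mem_Icc]; omega) u hu' hnb (adm n hsq)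
    refine ⟨S, m1, ?_, ?_⟩
    · refine m2.congr fun z => ?_
      exact partialC_eq n z
    · have h3 := m3 (-1) (Or.inr rfl)
      rw [pC_cnt, lS_lsum, eps_eq, gcdProd_eq, one_mul, mul_one] at h3
      exact h3

end Run7.h373.QE.Sq
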