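import Pool.Agent.Run7.h373.QD.MomB

/-!
# Project QE: the second moment over the constant term
-/

set_option autoImplicit false
set_option maxHeartbeats 4000000

namespace Run7.h373.QE

open Finset MeasureTheory
open Polynomial (taylor)
open scoped Polynomial
open Run7.h373.QD
open Pool.Agent.H469R2.NK (e norm_e e_add conj_e e_zero)
open Pool.Agent.TH892.SW (ff sq_ff)
open Pool.Agent.H373R2.T7 (ev_log')
open Pool.Agent.H373R2.NB (Ph Ph_poly IW IW_all)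
open Run7.h385.CR (ev_lge)
open Run7.h757.CR (S_FI)

/-- the second moment over the constant term for polynomials of any degree, a larger range of constant terms -/
theorem t1w (hFI : S_FI) (d : ℕ) (hd : 1 ≤ d) : ∀ U C : ℕ, ∃ E1 : ℕ, ∀ E : ℕ, E1 ≤ E → ∃ B X₀ : ℕ, ∀ X : ℕ, X₀ ≤ X →
    ∀ F : ℤ[X], F.natDegree = d → |(F.leadingCoeff : ℝ)| ≤ Real.log X ^ C → ∀ (m : ℤ) (H : ℕ),
    (X : ℝ) ^ (1 / (3 * (d : ℝ))) * Real.log X ^ B ≤ H →
    (∀ j < H, |((pv F m j : ℤ) : ℝ)| ≤ X * Real.log X ^ C) → ∀ s : ℤ, (s = 1 ∨ s = -1) →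
    ∑ c ∈ Icc (-((⌊X * Real.log X ^ C⌋₊ : ℕ) : ℤ)) ⌊X * Real.log X ^ C⌋₊,
      (∑ j ∈ range H, ff ⌊Real.log X ^ E⌋₊ (s * (pv F m j + c))) ^ 2 ≤
      X * (H : ℝ) ^ 2 / Real.log X ^ U := by
  intro U C
  obtain ⟨cw, w, hcw, hwey⟩ := weyl_inv d hd
  obtain ⟨A₁, hA₁⟩ : ∃ A₁ : ℕ, A₁ = U + C + 4 := ⟨_, rfl⟩
  obtain ⟨q1, hq1⟩ : ∃ q1 : ℕ, q1 = A₁ * w + C + 1 := ⟨_, rfl⟩
  obtain ⟨D, hD⟩ : ∃ D : ℕ, D = 2 * q1 + U + 3 := ⟨_, rfl⟩
  obtain ⟨U', hU'⟩ : ∃ U' : ℕ, U' = 2 * q1 + C + U + 1 := ⟨_, rfl⟩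
  obtain ⟨CF, hCF⟩ := hFI (q1 + 1) U'
  refine ⟨q1, fun E hE => ?_⟩
  obtain ⟨XF, hXF⟩ := hCF (E + 1)
  obtain ⟨N2, hsq⟩ := sq_ff E
  obtain ⟨y1, hy1⟩ : ∃ y1 : ℕ, y1 = C + 1 + 2 * CF := ⟨_, rfl⟩
  obtain ⟨B, hB⟩ : ∃ B : ℕ, B = y1 + A₁ * w + 3 := ⟨_, rfl⟩
  obtain ⟨x1, hx1⟩ := ev_lge (864 + 72 * 2 ^ U' + 2 ^ (q1 + 1) + 2 ^ (E + 1) + cw * d.factorial + 10)
  obtain ⟨x2, hx2⟩ := ev_log' D 1
  obtain ⟨x3, hx3⟩ := ev_log' (C + y1 + 2 * CF + D + 2) 4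
  refine ⟨B, max (max (x1 + x2) (x3 + XF ^ 2)) (N2 + 1), fun X hX F hF hlead m H hH1 hval s hs => ?_⟩
  have hXx1 : x1 ≤ X := by
    have := (le_max_left _ _).trans ((le_max_left _ _).trans hX); omega
  have hXx2 : x2 ≤ X := by
    have := (le_max_left _ _).trans ((le_max_left _ _).trans hX); omega
  have hXx3 : x3 ≤ X := by
    have := (le_max_right _ _).trans ((le_max_left _ _).trans hX); omega
  have hXXF : XF ^ 2 ≤ X := by
    have := (le_max_right _ _).trans ((le_max_left _ _).trans hX); omega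
  have hXN2 : N2 + 1 ≤ X := (le_max_right _ _).trans hX
  have hLbig := hx1 X hXx1
  have hLD := hx2 X hXx2
  have hLC := hx3 X hXx3
  rw [one_mul] at hLD
  set L := Real.log X with hLdef
  have p1 : (0 : ℝ) < 2 ^ U' := by positivity
  have p2 : (0 : ℝ) < 2 ^ (q1 + 1) := by positivity
  have p3 : (0 : ℝ) < 2 ^ (E + 1) := by positivity
  have p4 : (0 : ℝ) ≤ cw * d.factorial := by positivity
  have hL10 : 10 ≤ L := by nlinarith
  have hL0 : 0 < L := by linarith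
  have hL1 : 1 ≤ L := by linarith
  have hLp : ∀ n : ℕ, 0 < L ^ n := fun n => by positivity
  have hLp1 : ∀ n : ℕ, 1 ≤ L ^ n := fun n => one_le_pow₀ hL1
  have hLmono : ∀ {i j : ℕ}, i ≤ j → L ^ i ≤ L ^ j := fun h => pow_le_pow_right₀ hL1 h
  have hX1 : (1 : ℝ) ≤ X := by exact_mod_cast (by omega : 1 ≤ X)
  have hX0 : (0 : ℝ) < X := by linarith
  have hsX : √(X : ℝ) * √(X : ℝ) = X := Real.mul_self_sqrt hX0.le
  have hsX0 : 0 < √(X : ℝ) := Real.sqrt_pos.2 hX0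
  have hsX1 : 1 ≤ √(X : ℝ) := by rw [Real.one_le_sqrt]; exact hX1
  have hd0 : (0 : ℝ) < d := by exact_mod_cast hd
  -- H
  have h6 : (1 : ℝ) ≤ (X : ℝ) ^ (1 / (3 * (d : ℝ))) := Real.one_le_rpow hX1 (by positivity)
  have hHr1 : (1 : ℝ) ≤ H := by
    calc (1 : ℝ) = 1 * 1 := by ring
      _ ≤ (X : ℝ) ^ (1 / (3 * (d : ℝ))) * L ^ B := by gcongr; exact hLp1 B
      _ ≤ H := hH1
  have hH0 : (0 : ℝ) < H := by linarith
  have hHn : 1 ≤ H := by exact_mod_cast hHr1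
  have h3 : (X : ℝ) ^ (1 / 3 : ℝ) * L ^ B ≤ (H : ℝ) ^ d := by
    have e1 : (X : ℝ) ^ (1 / 3 : ℝ) = ((X : ℝ) ^ (1 / (3 * (d : ℝ)))) ^ d := by
      rw [← Real.rpow_natCast, ← Real.rpow_mul hX0.le]
      congr 1
      field_simp
    calc (X : ℝ) ^ (1 / 3 : ℝ) * L ^ B ≤ ((X : ℝ) ^ (1 / (3 * (d : ℝ)))) ^ d * (L ^ B) ^ d := by
          rw [e1]
          apply mul_le_mul_of_nonneg_left _ (by positivity)
          exact le_self_pow₀ (hLp1 B) (by omega)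
      _ = ((X : ℝ) ^ (1 / (3 * (d : ℝ))) * L ^ B) ^ d := by rw [mul_pow]
      _ ≤ (H : ℝ) ^ d := by gcongr
  -- K
  set K : ℕ := ⌈2 * (X : ℝ) * L ^ C⌉₊ with hKdef
  have hK1 : 2 * (X : ℝ) * L ^ C ≤ K := Nat.le_ceil _
  have hXLC : (X : ℝ) ≤ X * L ^ C := le_mul_of_one_le_right hX0.le (hLp1 _)
  have hK2 : (K : ℝ) ≤ 3 * X * L ^ C := by
    have h1 : (K : ℝ) < 2 * (X : ℝ) * L ^ C + 1 := Nat.ceil_lt_add_one (by positivity)
    linarith
  have hXK : (X : ℝ) ≤ K := by linarith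
  have hK0 : (0 : ℝ) < K := by linarith
  have hKX2 : (K : ℝ) ≤ X * √X := by
    calc (K : ℝ) ≤ 3 * X * L ^ C := hK2
      _ ≤ 4 * X * L ^ (C + y1 + 2 * CF + D + 2) := by
          have h1 := hLmono (show C ≤ C + y1 + 2 * CF + D + 2 by omega)
          have h2 : (X : ℝ) * L ^ C ≤ X * L ^ (C + y1 + 2 * CF + D + 2) := mul_le_mul_of_nonneg_left h1 hX0.le
          have h3 : 0 ≤ (X : ℝ) * L ^ C := by positivity
          nlinarith
      _ = X * (4 * L ^ (C + y1 + 2 * CF + D + 2)) := by ring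
      _ ≤ X * √X := by gcongr
  have hlogK1 : L ≤ Real.log K := Real.log_le_log hX0 hXK
  have hlogK2 : Real.log K ≤ 2 * L := by
    have h1 : (K : ℝ) ≤ (X : ℝ) ^ 2 := by
      calc (K : ℝ) ≤ X * √X := hKX2
        _ ≤ X * (√X * √X) := by gcongr; nlinarith
        _ = X ^ 2 := by rw [hsX]; ring
    have h2 := Real.log_le_log hK0 h1
    rw [Real.log_pow] at h2
    push_cast at h2
    exact h2
  -- z
  set z : ℕ := ⌊L ^ E⌋₊ with hz
  have hz1 : 1 ≤ z := by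
    rw [hz]; exact Nat.le_floor (by push_cast; exact hLp1 E)
  have hz2 : (z : ℝ) ≤ L ^ E := Nat.floor_le (hLp E).le
  obtain ⟨hG, -⟩ := hsq K (by exact_mod_cast (by
    have : (N2 : ℝ) + 1 ≤ X := by exact_mod_cast hXN2
    linarith : (N2 : ℝ) ≤ K)) z hz1 (hz2.trans (pow_le_pow_left₀ hL0.le hlogK1 E))
  have hG0 : ∀ y : ℤ, |ff z y| ≤ 6 * L := fun y => (hG y).trans (by linarith)
  -- the parameters
  set q₀ : ℕ := ⌊L ^ q1⌋₊ with hq₀
  set Y : ℕ := ⌈(X : ℝ) ^ (1 / 3 : ℝ) * L ^ y1⌉₊ with hY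
  set x₀ : ℕ := ⌈(X : ℝ) / L ^ D⌉₊ with hx₀
  have hqq1 : (q₀ : ℝ) ≤ L ^ q1 := Nat.floor_le (hLp _).le
  have h51 : (1 : ℝ) ≤ (X : ℝ) ^ (1 / 3 : ℝ) := Real.one_le_rpow hX1 (by norm_num)
  have hY1 : (X : ℝ) ^ (1 / 3 : ℝ) * L ^ y1 ≤ Y := Nat.le_ceil _
  have hbig1 : (1 : ℝ) ≤ (X : ℝ) ^ (1 / 3 : ℝ) * L ^ y1 := by
    calc (1 : ℝ) = 1 * 1 := by ring
      _ ≤ _ := by gcongr; exact hLp1 _
  have hY2 : (Y : ℝ) ≤ 2 * ((X : ℝ) ^ (1 / 3 : ℝ) * L ^ y1) := by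
    have h1 := (Nat.ceil_lt_add_one (show 0 ≤ (X : ℝ) ^ (1 / 3 : ℝ) * L ^ y1 by positivity)).le
    linarith
  have hYr1 : (1 : ℝ) ≤ Y := hbig1.trans hY1
  have hYn : 1 ≤ Y := by exact_mod_cast hYr1
  have hx₀1 : (X : ℝ) / L ^ D ≤ x₀ := Nat.le_ceil _
  have hx₀2 : (x₀ : ℝ) ≤ X / L ^ D + 1 := (Nat.ceil_lt_add_one (by positivity)).le
  -- upper bound for Y
  have hX13 : (X : ℝ) ^ (1 / 3 : ℝ) ≤ √X := by
    rw [Real.sqrt_eq_rpow]
    exact Real.rpow_le_rpow_of_exponent_le hX1 (by norm_num)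
  have hYup : (Y : ℝ) * L ^ (2 * CF) * L ≤ X / L ^ D := by
    rw [le_div_iff₀ (hLp _)]
    have hYs : (Y : ℝ) ≤ 2 * (√X * L ^ y1) := hY2.trans (by gcongr)
    have hmm : 2 * L ^ (y1 + 2 * CF + 1 + D) ≤ 4 * L ^ (C + y1 + 2 * CF + D + 2) := by
      have h1 := hLmono (show y1 + 2 * CF + 1 + D ≤ C + y1 + 2 * CF + D + 2 by omega)
      have h2 := hLp (C + y1 + 2 * CF + D + 2)
      linarith
    calc (Y : ℝ) * L ^ (2 * CF) * L * L ^ D ≤ (2 * (√X * L ^ y1)) * L ^ (2 * CF) * L * L ^ D := by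
          gcongr
      _ = √X * (2 * L ^ (y1 + 2 * CF + 1 + D)) := by ring
      _ ≤ √X * (4 * L ^ (C + y1 + 2 * CF + D + 2)) := mul_le_mul_of_nonneg_left hmm hsX0.le
      _ ≤ √X * √X := by gcongr
      _ = X := hsX
  have hx₀s : √(X : ℝ) ≤ x₀ := by
    refine le_trans ?_ hx₀1
    rw [le_div_iff₀ (hLp _)]
    calc √(X : ℝ) * L ^ D ≤ √X * √X := by gcongr
      _ = X := hsX
  have hx₀n : 1 ≤ x₀ := by
    have : (1 : ℝ) ≤ x₀ := hsX1.trans hx₀s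
    exact_mod_cast this
  -- the values
  have hval' : ∀ c ∈ Icc (-((⌊X * L ^ C⌋₊ : ℕ) : ℤ)) ⌊X * L ^ C⌋₊, ∀ j ∈ range H, s * (pv F m j + c) ≤ K := by
    intro c hc j hj
    rw [mem_Icc] at hc
    rw [mem_range] at hj
    have h1 := abs_le.1 (hval j hj)
    have hfl : ((⌊X * L ^ C⌋₊ : ℕ) : ℝ) ≤ X * L ^ C := Nat.floor_le (by positivity)
    have ha1' : (c : ℝ) ≤ ((⌊X * L ^ C⌋₊ : ℕ) : ℝ) := by exact_mod_cast hc.2
    have ha2' : -((⌊X * L ^ C⌋₊ : ℕ) : ℝ) ≤ c := by exact_mod_cast hc.1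
    have ha1 : (c : ℝ) ≤ X * L ^ C := by linarith
    have ha2 : -(X * L ^ C) ≤ (c : ℝ) := by linarith
    have h2 : ((s * (pv F m j + c) : ℤ) : ℝ) ≤ K := by
      rcases hs with h | h
      · rw [h]; push_cast; linarith [h1.1, h1.2]
      · rw [h]; push_cast; linarith [h1.1, h1.2]
    exact_mod_cast h2
  -- the short windows
  have hv0 : (0 : ℝ) ≤ 2 ^ U' / L ^ U' := by positivity
  have hV : ∀ q, 1 ≤ q → q ≤ q₀ → ∀ a x : ℕ, x₀ ≤ x → x < K →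
      ∑ m ∈ Ioc x (2 * x), ‖∑ n ∈ Ioc m (m + Y), (ff z (n : ℤ) : ℂ) * e ((a : ℝ) * n / q)‖ ^ 2 ≤
        x * (Y : ℝ) ^ 2 * (2 ^ U' / L ^ U') := by
    intro q hqa hqb a x hxx1 hxx2
    have hxr1 : (x₀ : ℝ) ≤ x := by exact_mod_cast hxx1
    have hxr2 : (x : ℝ) ≤ K := by exact_mod_cast hxx2.le
    have hxs : √(X : ℝ) ≤ x := hx₀s.trans hxr1
    have hx0 : (0 : ℝ) < x := by linarith
    have hlx1 : L / 2 ≤ Real.log x := by
      have h1 := Real.log_le_log hsX0 hxs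
      rw [Real.log_sqrt hX0.le] at h1
      exact h1
    have hlx2 : Real.log x ≤ 2 * L := (Real.log_le_log hx0 hxr2).trans hlogK2
    have hlx0 : 0 < Real.log x := by linarith
    have hxXF : XF ≤ x := by
      have h1 : (XF : ℝ) ≤ √X := by
        apply Real.le_sqrt_of_sq_le
        exact_mod_cast hXXF
      exact_mod_cast h1.trans hxs
    have hpw : ∀ k : ℕ, (2 : ℝ) ^ (k + 1) ≤ L → L ^ k ≤ Real.log x ^ (k + 1) := by
      intro k hk
      calc L ^ k ≤ (2 * Real.log x) ^ k := pow_le_pow_left₀ hL0.le (by linarith) k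
        _ = 2 ^ k * Real.log x ^ k := mul_pow _ _ _
        _ ≤ Real.log x * Real.log x ^ k := by
            apply mul_le_mul_of_nonneg_right _ (by positivity)
            have : (2 : ℝ) ^ (k + 1) = 2 * 2 ^ k := by ring
            linarith
        _ = _ := by ring
    have hqr : (q : ℝ) ≤ L ^ q1 := by
      have : (q : ℝ) ≤ q₀ := by exact_mod_cast hqb
      linarith
    have c1 : (q : ℝ) ≤ Real.log x ^ (q1 + 1) := hqr.trans (hpw q1 (by nlinarith))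
    have c2 : q ≤ z := by
      rw [hz]
      exact Nat.le_floor (hqr.trans (hLmono hE))
    have c3 : (z : ℝ) ≤ Real.log x ^ (E + 1) := hz2.trans (hpw E (by nlinarith))
    have hlxC : Real.log x ^ CF ≤ L ^ (2 * CF) := by
      calc Real.log x ^ CF ≤ (L ^ 2) ^ CF := by
            apply pow_le_pow_left₀ hlx0.le
            nlinarith
        _ = _ := by rw [← pow_mul]
    have c4 : (x : ℝ) ^ (1 / 3 : ℝ) * Real.log x ^ CF ≤ Y := by
      have h1 : (x : ℝ) ^ (1 / 3 : ℝ) ≤ (X : ℝ) ^ (1 / 3 : ℝ) * L ^ (C + 1) := by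
        have h2 : (x : ℝ) ≤ X * (L ^ (C + 1)) ^ 3 := by
          calc (x : ℝ) ≤ 3 * X * L ^ C := hxr2.trans hK2
            _ ≤ L * X * L ^ C := by gcongr; linarith
            _ = X * L ^ (C + 1) := by ring
            _ ≤ X * (L ^ (C + 1)) ^ 3 := by
                gcongr
                exact le_self_pow₀ (hLp1 _) (by norm_num)
        have h3 : (X : ℝ) * (L ^ (C + 1)) ^ 3 = ((X : ℝ) ^ (1 / 3 : ℝ) * L ^ (C + 1)) ^ 3 := by
          rw [mul_pow]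
          congr 1
          rw [← Real.rpow_natCast, ← Real.rpow_mul hX0.le]
          norm_num
        rw [h3] at h2
        calc (x : ℝ) ^ (1 / 3 : ℝ) ≤ (((X : ℝ) ^ (1 / 3 : ℝ) * L ^ (C + 1)) ^ 3) ^ (1 / 3 : ℝ) :=
              Real.rpow_le_rpow hx0.le h2 (by norm_num)
          _ = _ := by
              rw [← Real.rpow_natCast, ← Real.rpow_mul (by positivity)]
              norm_num
      calc (x : ℝ) ^ (1 / 3 : ℝ) * Real.log x ^ CF ≤
            ((X : ℝ) ^ (1 / 3 : ℝ) * L ^ (C + 1)) * L ^ (2 * CF) := by gcongr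
        _ = (X : ℝ) ^ (1 / 3 : ℝ) * L ^ y1 := by rw [hy1, pow_add L (C + 1) (2 * CF)]; ring
        _ ≤ Y := hY1
    have c5 : (Y : ℝ) * Real.log x ^ CF ≤ x := by
      calc (Y : ℝ) * Real.log x ^ CF ≤ Y * L ^ (2 * CF) * 1 := by rw [mul_one]; gcongr
        _ ≤ Y * L ^ (2 * CF) * L := by gcongr
        _ ≤ X / L ^ D := hYup
        _ ≤ x := hx₀1.trans hxr1
    have h1 := hXF x hxXF z q hqa c1 c2 c3 a Y c4 c5
    refine h1.trans ?_
    rw [div_eq_mul_inv]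
    apply mul_le_mul_of_nonneg_left _ (by positivity)
    rw [inv_le_comm₀ (by positivity) (by positivity), inv_div]
    calc L ^ U' / 2 ^ U' = (L / 2) ^ U' := by rw [div_pow]
      _ ≤ Real.log x ^ U' := pow_le_pow_left₀ (by positivity) hlx1 _
  have hff0 : ∀ v : ℤ, v ≤ 0 → ff z v = 0 := by
    intro v hv
    unfold ff
    rw [if_neg (by omega)]
  -- the Weyl sums
  obtain ⟨T, hT⟩ : ∃ T : ℝ, T = cw * (L ^ A₁) ^ w := ⟨_, rfl⟩
  have hcwL : (cw : ℝ) * d.factorial ≤ L := by linarith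
  have hfac1 : (1 : ℝ) ≤ d.factorial := by exact_mod_cast Nat.factorial_pos d
  have hcw1 : (1 : ℝ) ≤ cw := by exact_mod_cast hcw
  have hT1 : T ≤ L ^ (A₁ * w + 1) := by
    rw [hT, ← pow_mul, pow_succ, mul_comm (L ^ (A₁ * w)) L]
    apply mul_le_mul_of_nonneg_right _ (hLp _).le
    nlinarith
  have hT0 : 0 < T := by rw [hT]; positivity
  have hTH : T / (H : ℝ) ^ d ≤ 1 / (((2 * Y : ℕ) : ℝ) + 1) := by
    rw [div_le_div_iff₀ (by positivity) (by positivity), one_mul]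
    push_cast
    calc T * (2 * (Y : ℝ) + 1) ≤ L ^ (A₁ * w + 1) * (5 * ((X : ℝ) ^ (1 / 3 : ℝ) * L ^ y1)) := by
          gcongr
          linarith
      _ ≤ L ^ (A₁ * w + 1) * (L * ((X : ℝ) ^ (1 / 3 : ℝ) * L ^ y1)) := by
          gcongr
          linarith
      _ = (X : ℝ) ^ (1 / 3 : ℝ) * L ^ (y1 + A₁ * w + 2) := by ring
      _ ≤ (X : ℝ) ^ (1 / 3 : ℝ) * L ^ B :=
          mul_le_mul_of_nonneg_left (hLmono (by omega)) (by positivity)
      _ ≤ (H : ℝ) ^ d := h3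
  have hY3 : 1 / (((2 * Y : ℕ) : ℝ) + 1) < 1 := by
    rw [div_lt_one (by positivity)]
    push_cast
    linarith
  have hM : ∀ α : ℝ, ‖WS (pv F m) H α‖ ^ 2 ≤ ((H : ℝ) / L ^ A₁) ^ 2 ∨
      ∃ q : ℕ, 1 ≤ q ∧ q ≤ q₀ ∧ ∃ a : ℤ, |q * α - a| < 1 ∧ |α - a / q| ≤ 1 / (((2 * Y : ℕ) : ℝ) + 1) := by
    intro α
    rcases hwey F m H (L ^ A₁) α hF hHn (hLp1 _) with h | ⟨q, hqa, hqb, a, ha⟩
    · left
      exact pow_le_pow_left₀ (norm_nonneg _) h 2
    · right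
      rw [← hT] at hqb ha
      have hlc0 : F.leadingCoeff ≠ 0 := by
        intro h0
        rw [Polynomial.leadingCoeff_eq_zero] at h0
        rw [h0, Polynomial.natDegree_zero] at hF
        omega
      obtain ⟨σ, hσ1, hσ2⟩ : ∃ σ : ℤ, (σ = 1 ∨ σ = -1) ∧ F.leadingCoeff = σ * (F.leadingCoeff.natAbs : ℤ) := by
        rcases Int.natAbs_eq F.leadingCoeff with h | h
        · exact ⟨1, Or.inl rfl, by rw [one_mul]; exact h⟩
        · exact ⟨-1, Or.inr rfl, by rw [neg_one_mul]; exact h⟩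
      have hna1 : 1 ≤ F.leadingCoeff.natAbs := Int.natAbs_pos.2 hlc0
      have hnar : ((F.leadingCoeff.natAbs : ℕ) : ℝ) = |(F.leadingCoeff : ℝ)| := by
        rw [← Int.cast_abs, ← Int.natCast_natAbs, Int.cast_natCast]
      have hq'1 : 1 ≤ q * d.factorial * F.leadingCoeff.natAbs :=
        Nat.one_le_iff_ne_zero.2 (mul_ne_zero (mul_ne_zero (by omega) (Nat.factorial_ne_zero d)) (by omega))
      have hq'r : (0 : ℝ) < ((q * d.factorial * F.leadingCoeff.natAbs : ℕ) : ℝ) := by exact_mod_cast hq'1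
      have hσr : (σ : ℝ) * σ = 1 := by rcases hσ1 with h | h <;> rw [h] <;> norm_num
      have hσa : |(σ : ℝ)| = 1 := by rcases hσ1 with h | h <;> rw [h] <;> norm_num
      have e1 : ((q * d.factorial * F.leadingCoeff.natAbs : ℕ) : ℝ) * α - ((σ * a : ℤ) : ℝ) =
          σ * (q * (α * ((d.factorial : ℝ) * (F.leadingCoeff : ℤ))) - a) := by
        have e2 : ((F.leadingCoeff : ℤ) : ℝ) = σ * |(F.leadingCoeff : ℝ)| := by
          have h5 := congrArg (fun t : ℤ => (t : ℝ)) hσ2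
          simp only [Int.cast_mul, Int.natCast_natAbs, Int.cast_abs] at h5
          exact h5
        push_cast
        rw [hnar]
        linear_combination (-(q : ℝ) * d.factorial * α * |(F.leadingCoeff : ℝ)|) * hσr -
          (q : ℝ) * d.factorial * α * σ * e2
      have e3 : |((q * d.factorial * F.leadingCoeff.natAbs : ℕ) : ℝ) * α - ((σ * a : ℤ) : ℝ)| ≤ T / (H : ℝ) ^ d := by
        rw [e1, abs_mul, hσa, one_mul]
        exact ha
      refine ⟨q * d.factorial * F.leadingCoeff.natAbs, hq'1, ?_, σ * a, ?_, ?_⟩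
      · rw [hq₀]
        apply Nat.le_floor
        push_cast
        rw [hnar]
        rw [← Int.cast_abs] at hlead
        calc (q : ℝ) * d.factorial * |(F.leadingCoeff : ℝ)| ≤ (cw * (L ^ A₁) ^ w) * d.factorial * L ^ C := by
              rw [← hT]
              have : |(F.leadingCoeff : ℝ)| ≤ L ^ C := by rw [← Int.cast_abs]; exact hlead
              gcongr
          _ = (cw * d.factorial) * (L ^ (A₁ * w) * L ^ C) := by rw [← pow_mul]; ring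
          _ ≤ L * (L ^ (A₁ * w) * L ^ C) := by gcongr
          _ = L ^ q1 := by rw [hq1, pow_add, pow_add]; ring
      · exact lt_of_le_of_lt (e3.trans hTH) hY3
      · have e4 : α - ((σ * a : ℤ) : ℝ) / ((q * d.factorial * F.leadingCoeff.natAbs : ℕ) : ℝ) =
            (((q * d.factorial * F.leadingCoeff.natAbs : ℕ) : ℝ) * α - ((σ * a : ℤ) : ℝ)) /
              ((q * d.factorial * F.leadingCoeff.natAbs : ℕ) : ℝ) := by
          field_simp
        rw [e4, abs_div, abs_of_pos hq'r]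
        refine (div_le_self (abs_nonneg _) ?_).trans (e3.trans hTH)
        exact_mod_cast hq'1
  have hcore := core (pv F m) (ff z) hff0 (6 * L) hG0 ⌊X * L ^ C⌋₊ K H Y q₀ x₀ s hs hval' (((H : ℝ) / L ^ A₁) ^ 2)
    (by positivity) hM hYn hx₀n (2 ^ U' / L ^ U') hv0 hV
  refine hcore.trans ?_
  refine fin_ineq (G := 2 ^ U') (A₁ := A₁) (q1 := q1) (D := D) (U' := U') (C := C) (by linarith) p1.le hX0.le hA₁ hD hU' ?_ ?_
  · calc ((H : ℝ) / L ^ A₁) ^ 2 * (K * (6 * L) ^ 2) ≤ ((H : ℝ) / L ^ A₁) ^ 2 * ((3 * X * L ^ C) * (6 * L) ^ 2) := by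
          gcongr
      _ = _ := by rw [div_pow, ← pow_mul, mul_comm A₁ 2]
  · have h1 : (q₀ : ℝ) * (q₀ + 1) ≤ 2 * L ^ (2 * q1) := by
      have h2 : (q₀ : ℝ) + 1 ≤ 2 * L ^ q1 := by
        have := hLp1 q1
        linarith
      calc (q₀ : ℝ) * (q₀ + 1) ≤ L ^ q1 * (2 * L ^ q1) := by gcongr
        _ = _ := by ring
    have h2 : (x₀ : ℝ) + 2 * Y + 1 ≤ 2 * X / L ^ D := by
      have h3 : (Y : ℝ) * 10 ≤ X / L ^ D := by
        calc (Y : ℝ) * 10 ≤ Y * L := by gcongr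
          _ = Y * 1 * L := by ring
          _ ≤ Y * L ^ (2 * CF) * L := by gcongr; exact hLp1 _
          _ ≤ _ := hYup
      have h4 : 2 * (X : ℝ) / L ^ D = 2 * (X / L ^ D) := by ring
      linarith
    calc (H : ℝ) ^ 2 * (q₀ * (q₀ + 1)) * (3 * ((x₀ + 2 * Y + 1) * (6 * L) ^ 2 + 2 * K * (2 ^ U' / L ^ U')))
        ≤ (H : ℝ) ^ 2 * (2 * L ^ (2 * q1)) * (3 * ((2 * X / L ^ D) * (6 * L) ^ 2 +
          2 * (3 * X * L ^ C) * (2 ^ U' / L ^ U'))) := by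
          gcongr
      _ = _ := by ring

end Run7.h373.QE
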