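import Pool.Agent.Run7.h373.QE.Tv
import Pool.Agent.Run7.h373.QE.Mom
import Pool.Agent.Run7.h373.QW.FI
import Pool.Agent.Run7.h545.CR.E1
import Pool.Agent.Run7.h285.E2b

/-!
# Project QE: the second moment over the pairs of the primes minus their model
-/

set_option autoImplicit false
set_option maxHeartbeats 1000000

namespace Run7.h373.QE

open Finset Filter
open Polynomial (taylor natDegree leadingCoeff hasseDeriv)
open scoped Polynomial
open Run7.h373.QD (vv pv)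
open Pool.Agent.TH892.SW (ff)
open Pool.Agent.H373R2.T7 (Vz)
open Pool.Agent.Y868.TB (evt_root)
open Run7.h385.CR (ev_lge)

/-- the difference polynomial `F(x + j) - F(x + i)` -/
noncomputable def Dp (F : ℤ[X]) (i j : ℕ) : ℤ[X] := taylor (j : ℤ) F - taylor (i : ℤ) F

lemma Dp_eval (F : ℤ[X]) (i j : ℕ) (x : ℤ) : (Dp F i j).eval x = F.eval (x + j) - F.eval (x + i) := by
  unfold Dp
  rw [Polynomial.eval_sub, Polynomial.taylor_eval, Polynomial.taylor_eval]

lemma Dp_vv (F : ℤ[X]) (m₀ : ℤ) (i j t : ℕ) : vv F m₀ (t + j) - vv F m₀ (t + i) = pv (Dp F i j) (m₀ - 1) t := by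
  unfold vv pv
  rw [Dp_eval]
  push_cast
  have e1 : m₀ - 1 + 1 + (t : ℤ) + j = m₀ + (t + j) := by ring
  have e2 : m₀ - 1 + 1 + (t : ℤ) + i = m₀ + (t + i) := by ring
  rw [e1, e2]

lemma taylor_coeff_pred (F : ℤ[X]) (e : ℕ) (hF : F.natDegree = e + 1) (r : ℤ) :
    (taylor r F).coeff e = F.coeff e + ((e : ℤ) + 1) * F.leadingCoeff * r := by
  rw [Polynomial.taylor_coeff]
  have h1 : (hasseDeriv e F).natDegree < 2 := by
    have := Polynomial.natDegree_hasseDeriv_le F e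
    omega
  rw [Polynomial.eval_eq_sum_range' h1, sum_range_succ, sum_range_one, Polynomial.hasseDeriv_coeff,
    Polynomial.hasseDeriv_coeff]
  have e1 : (0 + e).choose e = 1 := by rw [zero_add, Nat.choose_self]
  have e2 : (1 + e).choose e = e + 1 := by rw [add_comm, Nat.choose_succ_self_right]
  have e3 : F.coeff (1 + e) = F.leadingCoeff := by
    unfold Polynomial.leadingCoeff
    rw [hF, add_comm]
  rw [e1, e2, e3, zero_add]
  push_cast
  ring

lemma Dp_deg (F : ℤ[X]) (e : ℕ) (hF : F.natDegree = e + 1) (i j : ℕ) (hij : i ≠ j) :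
    (Dp F i j).natDegree = e ∧ (Dp F i j).leadingCoeff = ((e : ℤ) + 1) * F.leadingCoeff * ((j : ℤ) - i) := by
  have hF0 : F ≠ 0 := by
    rintro rfl
    rw [Polynomial.natDegree_zero] at hF
    omega
  have hl0 : F.leadingCoeff ≠ 0 := Polynomial.leadingCoeff_ne_zero.2 hF0
  have h1 : (Dp F i j).coeff e = ((e : ℤ) + 1) * F.leadingCoeff * ((j : ℤ) - i) := by
    unfold Dp
    rw [Polynomial.coeff_sub, taylor_coeff_pred F e hF, taylor_coeff_pred F e hF]
    ring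
  have h2 : (Dp F i j).coeff e ≠ 0 := by
    rw [h1]
    apply mul_ne_zero (mul_ne_zero (by omega) hl0)
    intro h
    apply hij
    have : (i : ℤ) = j := by linarith
    exact_mod_cast this
  have h3 : (Dp F i j).natDegree ≤ e := by
    rw [Polynomial.natDegree_le_iff_coeff_eq_zero]
    intro N hN
    unfold Dp
    rw [Polynomial.coeff_sub]
    rcases Nat.lt_or_ge (e + 1) N with h | h
    · rw [Polynomial.coeff_eq_zero_of_natDegree_lt (by rw [Polynomial.natDegree_taylor, hF]; exact h),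
        Polynomial.coeff_eq_zero_of_natDegree_lt (by rw [Polynomial.natDegree_taylor, hF]; exact h), sub_zero]
    · have hN' : N = F.natDegree := by omega
      rw [hN', Polynomial.coeff_taylor_natDegree, Polynomial.coeff_taylor_natDegree, sub_self]
  have h4 : (Dp F i j).natDegree = e := Polynomial.natDegree_eq_of_le_of_coeff_ne_zero h3 h2
  refine ⟨h4, ?_⟩
  unfold Polynomial.leadingCoeff
  rw [h4]
  exact h1

/-- **the second moment of `ff` over the pairs** -/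
theorem e1 (d : ℕ) (hd : 2 ≤ d) (A : ℕ) : ∃ K₀ : ℝ, 1 ≤ K₀ ∧ ∀ U D : ℕ, ∃ E1 : ℕ, ∀ E : ℕ, E1 ≤ E → ∃ B X₀ : ℕ,
    ∀ X : ℕ, X₀ ≤ X → ∀ F : ℤ[X], F.natDegree = d → |(F.leadingCoeff : ℝ)| ≤ A → ∀ (m₀ : ℤ) (M H : ℕ), 1 ≤ H →
    (H : ℝ) ≤ Real.log X ^ D → (X : ℝ) ^ (1 / (3 * ((d : ℝ) - 1))) * Real.log X ^ B ≤ M →
    (∀ n ∈ Ioc 0 (M + H), |((vv F m₀ n : ℤ) : ℝ)| ≤ A * X) → ∀ s : ℤ, (s = 1 ∨ s = -1) →
    V2 (ff ⌊Real.log X ^ E⌋₊) s F X m₀ M H ≤ X * M * (K₀ * H / Real.log X + (H : ℝ) ^ 2 / Real.log X ^ U) := by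
  obtain ⟨e, he⟩ : ∃ e, d = e + 1 := ⟨d - 1, by omega⟩
  have he1 : 1 ≤ e := by omega
  have hA0 : (0 : ℝ) ≤ A := Nat.cast_nonneg _
  refine ⟨450 * (A + 1), by linarith, fun U D => ?_⟩
  obtain ⟨E1, hE1⟩ := t1w Run7.h373.QW.FI e he1 (2 * U + 6) (D + 1)
  refine ⟨E1 + 1, fun E hE => ?_⟩
  obtain ⟨B, X0, h0⟩ := hE1 E (by omega)
  obtain ⟨X1, h1⟩ := Pool.Agent.TH892.SW.sq_ff E
  obtain ⟨X2, h2⟩ := Run7.h285.E2.Vz_sqrt E (by omega)
  obtain ⟨X3, h3⟩ := ev_lge (10000 + 9 * (A + 1) + d * A + 2 * A)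
  obtain ⟨X4, h4⟩ := evt_root (3 * e) (D + U + 4) (by omega) (36 * 2 ^ d * A)
  obtain ⟨X5, h5⟩ := evt_root 2 2 (by omega) 1
  refine ⟨B, X0 + X1 + X2 + X3 + X4 + X5 + 1, fun X hX F hF hFl m₀ M H hH1 hHD hM hval s hs => ?_⟩
  have g2 := h2 X (by omega)
  have g3 := h3 X (by omega)
  have g4 := h4 X (by omega)
  have g5 := h5 X (by omega)
  have g0 := h0 X (by omega)
  have g1 := h1 X (by omega)
  set L := Real.log X with hL
  have hL4 : 10000 ≤ L := by
    have : 0 ≤ (d : ℝ) * A := by positivity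
    linarith
  have hL9 : 9 * ((A : ℝ) + 1) ≤ L := by
    have : 0 ≤ (d : ℝ) * A := by positivity
    linarith
  have hLdA : (d : ℝ) * A ≤ L := by linarith
  have hL2A : 2 * (A : ℝ) ≤ L := by
    have : 0 ≤ (d : ℝ) * A := by positivity
    linarith
  have hLA1 : (A : ℝ) + 1 ≤ L := by linarith
  have hL0 : 0 < L := by linarith
  have hL1 : 1 ≤ L := by linarith
  have hLp : ∀ n : ℕ, 0 < L ^ n := fun n => by positivity
  have hLp1 : ∀ n : ℕ, 1 ≤ L ^ n := fun n => one_le_pow₀ hL1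
  have hLmono : ∀ {i j : ℕ}, i ≤ j → L ^ i ≤ L ^ j := fun h => pow_le_pow_right₀ hL1 h
  have hX1 : (1 : ℝ) ≤ X := by exact_mod_cast (by omega : 1 ≤ X)
  have hX0 : (0 : ℝ) < X := by linarith
  have hd1 : ((d : ℝ) - 1) = e := by rw [he]; push_cast; ring
  rw [hd1] at hM
  have her : (1 : ℝ) ≤ e := by exact_mod_cast he1
  have hM0 : (X : ℝ) ^ (1 / (3 * (e : ℝ))) ≤ M := by
    refine le_trans ?_ hM
    exact le_mul_of_one_le_right (by positivity) (hLp1 B)
  have hM1 : (0 : ℝ) ≤ M := Nat.cast_nonneg _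
  have hHr : (1 : ℝ) ≤ H := by exact_mod_cast hH1
  -- `z`
  obtain ⟨z, hz⟩ : ∃ z : ℕ, z = ⌊L ^ E⌋₊ := ⟨_, rfl⟩
  rw [← hz] at g2 ⊢
  have hz1 : 1 ≤ z := by rw [hz]; exact Nat.le_floor (by push_cast; exact hLp1 E)
  have hz2 : (z : ℝ) ≤ L ^ E := by rw [hz]; exact Nat.floor_le (hLp E).le
  obtain ⟨hff, -⟩ := g1 z hz1 hz2
  have hVi0 : 0 < (Vz z)⁻¹ := inv_pos.2 (Pool.Agent.H373R2.T7.Vz_pos z)
  have hV2 : (Vz z)⁻¹ ^ 2 ≤ L := by
    have h6 : (Vz z)⁻¹ ≤ √L := by linarith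
    calc (Vz z)⁻¹ ^ 2 ≤ √L ^ 2 := pow_le_pow_left₀ hVi0.le h6 2
      _ = L := Real.sq_sqrt hL0.le
  -- `K`
  obtain ⟨K, hK⟩ : ∃ K : ℕ, K = (A + 1) * X := ⟨_, rfl⟩
  have hKr : (K : ℝ) = (A + 1) * X := by rw [hK]; push_cast; ring
  have hKX : (X : ℝ) ≤ K := by rw [hKr]; nlinarith
  have hK0 : (0 : ℝ) < K := by linarith
  have hLK : L ≤ Real.log K := Real.log_le_log hX0 hKX
  have hvalK : ∀ a ∈ Icc (-(X : ℤ)) X, ∀ n ∈ Ioc 0 (M + H), s * (vv F m₀ n + a) ≤ K := by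
    intro a ha n hn
    rw [mem_Icc] at ha
    have h6 := abs_le.1 (hval n hn)
    have ha1 : (a : ℝ) ≤ X := by exact_mod_cast ha.2
    have ha2 : -(X : ℝ) ≤ a := by exact_mod_cast ha.1
    have h7 : ((s * (vv F m₀ n + a) : ℤ) : ℝ) ≤ K := by
      rw [hKr]
      rcases hs with h | h
      · rw [h]; push_cast; linarith [h6.1, h6.2]
      · rw [h]; push_cast; linarith [h6.1, h6.2]
    exact_mod_cast h7
  -- the diagonal
  have hdiag : ∑ k ∈ Icc (1 : ℤ) K, ff z k ^ 2 ≤ 450 * ((A + 1) * X) / L := by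
    have h6 := Run7.h545.CR.ff_int (X := K) (z := z) (u := 1) (v := K) (by linarith) (by
      obtain ⟨y5, hy5⟩ : ∃ y : ℝ, y = √(K : ℝ) := ⟨_, rfl⟩
      have h7 := h5 K (by
        have : X ≤ K := by exact_mod_cast hKX
        omega)
      rw [one_mul] at h7
      rw [Real.sqrt_eq_rpow]
      norm_num at h7 ⊢
      exact h7) (hV2.trans hLK) (by
      have : (0 : ℤ) ≤ K := Int.natCast_nonneg K
      linarith)
    refine h6.trans ?_
    rw [← hKr]
    exact div_le_div_of_nonneg_left (by positivity) hL0 hLK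
  -- total variation
  have hTV := tv d F (by omega) m₀ (M + H) (A * X) (by positivity) (fun i h6 h7 => hval i (by rw [mem_Ioc]; omega))
  -- off-diagonal terms
  have hR : ∀ i ∈ Ioc 0 H, ∀ j ∈ Ioc 0 H, i < j →
      |∑ k ∈ Icc (1 : ℤ) K, ff z k * ∑ t ∈ range M, ff z (k + s * (vv F m₀ (t + j) - vv F m₀ (t + i)))| ≤
      X * M / L ^ (U + 1) := by
    intro i hi j hj hij
    rw [mem_Ioc] at hi hj
    have hss : s * s = 1 := by rcases hs with h | h <;> rw [h] <;> norm_num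
    obtain ⟨hdeg, hlead⟩ := Dp_deg F e (by omega) i j hij.ne
    obtain ⟨G, hG⟩ : ∃ G, G = Dp F i j := ⟨_, rfl⟩
    rw [← hG] at hdeg hlead
    have hT : ∀ k : ℤ, ∑ t ∈ range M, ff z (k + s * (vv F m₀ (t + j) - vv F m₀ (t + i))) =
        ∑ t ∈ range M, ff z (s * (pv G (m₀ - 1) t + s * k)) := by
      intro k
      refine sum_congr rfl fun t _ => ?_
      rw [Dp_vv, hG]
      congr 1
      rw [mul_add, ← mul_assoc, hss, one_mul, add_comm]
    simp_rw [hT]
    have hpvb : ∀ t < M, |((pv G (m₀ - 1) t : ℤ) : ℝ)| ≤ X * L ^ (D + 1) := by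
      intro t ht
      rw [hG, ← Dp_vv]
      push_cast
      refine (abs_sub _ _).trans ?_
      have h6 := hval (t + j) (by rw [mem_Ioc]; omega)
      have h7 := hval (t + i) (by rw [mem_Ioc]; omega)
      have h8 : L ≤ L ^ (D + 1) := le_self_pow₀ hL1 (by omega)
      have h9 : 2 * (A : ℝ) * X ≤ X * L ^ (D + 1) := by nlinarith
      linarith
    have hlG : |(G.leadingCoeff : ℝ)| ≤ L ^ (D + 1) := by
      rw [hlead]
      push_cast
      rw [abs_mul, abs_mul]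
      have h6 : |((e : ℝ) + 1)| = d := by
        rw [abs_of_nonneg (by positivity), he]; push_cast; ring
      have h7 : |((j : ℝ) - i)| ≤ L ^ D := by
        rw [abs_of_nonneg (by
          have : (i : ℝ) ≤ j := by exact_mod_cast hij.le
          linarith)]
        have : (j : ℝ) ≤ H := by exact_mod_cast hj.2
        have h8 : (0 : ℝ) ≤ i := Nat.cast_nonneg _
        linarith
      rw [h6]
      calc (d : ℝ) * |(F.leadingCoeff : ℝ)| * |((j : ℝ) - i)| ≤ d * A * L ^ D := by gcongr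
        _ ≤ L * L ^ D := mul_le_mul_of_nonneg_right hLdA (hLp D).le
        _ = _ := by rw [pow_succ]; ring
    have hmom := g0 G hdeg hlG (m₀ - 1) M hM hpvb s hs
    rw [← hz] at hmom
    -- Cauchy-Schwarz
    have hcs := sum_mul_sq_le_sq_mul_sq (Icc (1 : ℤ) K) (fun k => ff z k)
      (fun k => ∑ t ∈ range M, ff z (s * (pv G (m₀ - 1) t + s * k)))
    have hT2 : ∑ k ∈ Icc (1 : ℤ) K, (∑ t ∈ range M, ff z (s * (pv G (m₀ - 1) t + s * k))) ^ 2 ≤
        X * (M : ℝ) ^ 2 / L ^ (2 * U + 6) := by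
      refine le_trans ?_ hmom
      have hinj : Set.InjOn (fun k : ℤ => s * k) (Icc (1 : ℤ) K) := by
        intro x _ y _ h
        simp only at h
        have h6 : s * (s * x) = s * (s * y) := by rw [h]
        rw [← mul_assoc, ← mul_assoc, hss, one_mul, one_mul] at h6
        exact h6
      rw [← sum_image (f := fun c => (∑ t ∈ range M, ff z (s * (pv G (m₀ - 1) t + c))) ^ 2) hinj]
      apply sum_le_sum_of_subset_of_nonneg
      · intro c hc
        rw [mem_image] at hc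
        obtain ⟨k, hk, rfl⟩ := hc
        rw [mem_Icc] at hk
        have hKf : K ≤ ⌊X * L ^ (D + 1)⌋₊ := by
          apply Nat.le_floor
          rw [hKr]
          have h8 : L ≤ L ^ (D + 1) := le_self_pow₀ hL1 (by omega)
          nlinarith
        have hKf' : (K : ℤ) ≤ (⌊X * L ^ (D + 1)⌋₊ : ℕ) := by exact_mod_cast hKf
        rw [mem_Icc]
        rcases hs with h | h
        · rw [h]; constructor <;> linarith [hk.1, hk.2]
        · rw [h]; constructor <;> linarith [hk.1, hk.2]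
      · intro _ _ _; exact sq_nonneg _
    have hf2 : ∑ k ∈ Icc (1 : ℤ) K, ff z k ^ 2 ≤ K * (9 * L ^ 2) := by
      calc ∑ k ∈ Icc (1 : ℤ) K, ff z k ^ 2 ≤ ∑ _k ∈ Icc (1 : ℤ) K, 9 * L ^ 2 := by
            refine sum_le_sum fun k _ => ?_
            rw [← sq_abs]
            calc |ff z k| ^ 2 ≤ (3 * L) ^ 2 := pow_le_pow_left₀ (abs_nonneg _) (hff k) 2
              _ = _ := by ring
        _ = _ := by
            rw [sum_const, nsmul_eq_mul, Int.card_Icc]
            congr 2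
            omega
    apply abs_le_of_sq_le_sq _ (by positivity)
    refine hcs.trans ?_
    calc (∑ k ∈ Icc (1 : ℤ) K, ff z k ^ 2) *
          ∑ k ∈ Icc (1 : ℤ) K, (∑ t ∈ range M, ff z (s * (pv G (m₀ - 1) t + s * k))) ^ 2
        ≤ (K * (9 * L ^ 2)) * (X * (M : ℝ) ^ 2 / L ^ (2 * U + 6)) :=
          mul_le_mul hf2 hT2 (sum_nonneg fun _ _ => sq_nonneg _) (by positivity)
      _ = (9 * (A + 1)) * (X ^ 2 * (M : ℝ) ^ 2 / L ^ (2 * U + 4)) := by
          rw [hKr, show 2 * U + 6 = (2 * U + 4) + 2 by ring, pow_add L (2 * U + 4) 2]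
          field_simp
      _ ≤ L ^ 2 * (X ^ 2 * (M : ℝ) ^ 2 / L ^ (2 * U + 4)) := by
          apply mul_le_mul_of_nonneg_right _ (by positivity)
          nlinarith
      _ = (X * M / L ^ (U + 1)) ^ 2 := by
          rw [div_pow, ← pow_mul, show (U + 1) * 2 = 2 * U + 2 by ring, show 2 * U + 4 = (2 * U + 2) + 2 by ring,
            pow_add L (2 * U + 2) 2]
          field_simp
  have hE := e0 (ff z) (3 * L) (X * M / L ^ (U + 1)) (2 ^ d * (4 * (A * X))) s F X M H K m₀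
    (fun k hk => by unfold ff; rw [if_neg (by omega)]) hff hs (by positivity) hvalK hTV hR
  refine hE.trans ?_
  have t1 : (H : ℝ) * M * (∑ k ∈ Icc (1 : ℤ) K, ff z k ^ 2) ≤ X * M * (450 * (A + 1) * H / L) := by
    calc (H : ℝ) * M * (∑ k ∈ Icc (1 : ℤ) K, ff z k ^ 2) ≤ H * M * (450 * ((A + 1) * X) / L) := by gcongr
      _ = _ := by ring
  have t2 : (3 * L) ^ 2 * (H * (2 ^ d * (4 * (A * X)))) ≤ X * M / L ^ (U + 1) := by
    rw [le_div_iff₀ (hLp _)]
    calc (3 * L) ^ 2 * (H * (2 ^ d * (4 * (A * X)))) * L ^ (U + 1) ≤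
          (3 * L) ^ 2 * (L ^ D * (2 ^ d * (4 * (A * X)))) * L ^ (U + 1) := by gcongr
      _ = X * (36 * 2 ^ d * A * L ^ (D + U + 3)) := by ring
      _ ≤ X * (36 * 2 ^ d * A * L ^ (D + U + 4)) := by
          apply mul_le_mul_of_nonneg_left _ hX0.le
          apply mul_le_mul_of_nonneg_left _ (by positivity)
          exact hLmono (by omega)
      _ ≤ X * (X : ℝ) ^ ((1 : ℝ) / ((3 * e : ℕ) : ℝ)) := mul_le_mul_of_nonneg_left g4 hX0.le
      _ ≤ X * M := by
          apply mul_le_mul_of_nonneg_left _ hX0.le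
          refine le_trans (le_of_eq ?_) hM0
          push_cast
          rfl
  have t3 : (H : ℝ) ^ 2 * (X * M / L ^ (U + 1) + (3 * L) ^ 2 * (H * (2 ^ d * (4 * (A * X))))) ≤
      X * M * ((H : ℝ) ^ 2 / L ^ U) := by
    calc (H : ℝ) ^ 2 * (X * M / L ^ (U + 1) + (3 * L) ^ 2 * (H * (2 ^ d * (4 * (A * X))))) ≤
          (H : ℝ) ^ 2 * (2 * (X * M / L ^ (U + 1))) := by
            apply mul_le_mul_of_nonneg_left _ (by positivity)
            linarith
      _ = (2 / L) * (X * M * ((H : ℝ) ^ 2 / L ^ U)) := by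
          rw [pow_succ L U]
          field_simp
      _ ≤ 1 * (X * M * ((H : ℝ) ^ 2 / L ^ U)) := by
          apply mul_le_mul_of_nonneg_right _ (by positivity)
          rw [div_le_one hL0]
          linarith
      _ = _ := one_mul _
  have t4 : X * M * (450 * (A + 1) * H / L + (H : ℝ) ^ 2 / L ^ U) =
      X * M * (450 * (A + 1) * H / L) + X * M * ((H : ℝ) ^ 2 / L ^ U) := by ring
  rw [t4]
  linarith

end Run7.h373.QE
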