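import Pool.Agent.Run7.h373.QD.Siv
import Pool.Agent.Run7.h285.E0

/-!
# Project QE: total variation, and the second moment over the pairs (constant term, starting point)
-/

set_option autoImplicit false
set_option maxHeartbeats 1000000

namespace Run7.h373.QE

open Finset
open Polynomial (taylor natDegree)
open scoped Polynomial
open Run7.h373.QD (vv pieces)
open Run7.h285.E0 (gJ gJ_of gJ_not gJ_abs asum)

/-- the total variation of a polynomial on an interval -/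
lemma tv (d : ℕ) (F : ℤ[X]) (hF : F.natDegree ≤ d) (m : ℤ) (N : ℕ) (K : ℝ) (hK0 : 0 ≤ K)
    (hK : ∀ i : ℕ, 1 ≤ i → i ≤ N → |((vv F m i : ℤ) : ℝ)| ≤ K) :
    ∑ i ∈ Ico 1 N, |((vv F m (i + 1) - vv F m i : ℤ) : ℝ)| ≤ 2 ^ d * (4 * K) := by
  obtain ⟨D, hD⟩ : ∃ D : ℤ[X], D = taylor 1 F - F := ⟨_, rfl⟩
  have hDe : D.natDegree ≤ d := by
    rw [hD]
    refine (Polynomial.natDegree_sub_le _ _).trans ?_
    rw [Polynomial.natDegree_taylor]
    exact max_le hF hF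
  have hDv : ∀ i : ℕ, vv D m i = vv F m (i + 1) - vv F m i := by
    intro i
    unfold vv
    rw [hD, Polynomial.eval_sub, Polynomial.taylor_eval]
    push_cast
    rw [add_assoc]
  obtain ⟨N', hN'⟩ : ∃ N', N' = N - 1 := ⟨_, rfl⟩
  obtain ⟨err, herr⟩ : ∃ err : ℕ → ℕ → ℝ, err = fun u v =>
      ∑ i ∈ Ioc (min u N') (min v N'), |((vv F m (i + 1) - vv F m i : ℤ) : ℝ)| := ⟨_, rfl⟩
  have hsub : ∀ u v w, u ≤ v → v ≤ w → err u w ≤ err u v + err v w := by
    intro u v w huv hvw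
    rw [herr]
    simp only
    rw [sum_Ioc_consecutive _ (min_le_min_right _ huv) (min_le_min_right _ hvw)]
  have key := pieces err hsub m d D hDe (4 * K) (by
    intro u v huv hsg
    rw [herr]
    simp only
    obtain ⟨u', hu'⟩ : ∃ u', u' = min u N' := ⟨_, rfl⟩
    obtain ⟨v', hv'⟩ : ∃ v', v' = min v N' := ⟨_, rfl⟩
    rw [← hu', ← hv']
    rcases Nat.lt_or_ge u' v' with h | h
    · obtain ⟨v'', hv''⟩ : ∃ v'', v' = v'' + 1 := ⟨v' - 1, by omega⟩
      have hul : u ≤ N' := by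
        by_contra hc
        have : u' = N' := by rw [hu']; omega
        omega
      have hu2 : u' = u := by rw [hu']; omega
      rw [hv'', sum_Ioc_succ_top (by omega)]
      have hlast : |((vv F m (v'' + 1 + 1) - vv F m (v'' + 1) : ℤ) : ℝ)| ≤ 2 * K := by
        push_cast
        refine (abs_sub _ _).trans ?_
        have h1 := hK (v'' + 1 + 1) (by omega) (by omega)
        have h2 := hK (v'' + 1) (by omega) (by omega)
        linarith
      have htel : ∑ i ∈ Ioc u' v'', ((vv F m (i + 1) - vv F m i : ℤ) : ℝ) =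
          ((vv F m (v'' + 1) : ℤ) : ℝ) - ((vv F m (u' + 1) : ℤ) : ℝ) := by
        have h3 : ∀ n, u' ≤ n → ∑ i ∈ Ioc u' n, ((vv F m (i + 1) - vv F m i : ℤ) : ℝ) =
            ((vv F m (n + 1) : ℤ) : ℝ) - ((vv F m (u' + 1) : ℤ) : ℝ) := by
          intro n hn
          induction n, hn using Nat.le_induction with
          | base => simp
          | succ n hn ih =>
            rw [sum_Ioc_succ_top (by omega), ih]
            push_cast
            ring
        exact h3 v'' (by omega)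
      have hmain : ∑ i ∈ Ioc u' v'', |((vv F m (i + 1) - vv F m i : ℤ) : ℝ)| ≤ 2 * K := by
        have h1 := hK (v'' + 1) (by omega) (by omega)
        have h2 := hK (u' + 1) (by omega) (by omega)
        have h1' := abs_le.1 h1
        have h2' := abs_le.1 h2
        rcases hsg with hsg | hsg
        · have e1 : ∑ i ∈ Ioc u' v'', |((vv F m (i + 1) - vv F m i : ℤ) : ℝ)| =
              ∑ i ∈ Ioc u' v'', ((vv F m (i + 1) - vv F m i : ℤ) : ℝ) := by
            refine sum_congr rfl fun i hi => ?_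
            rw [mem_Ioc] at hi
            apply abs_of_nonneg
            have := hsg i (by omega) (by omega)
            rw [hDv] at this
            exact_mod_cast this
          rw [e1, htel]
          linarith
        · have e1 : ∑ i ∈ Ioc u' v'', |((vv F m (i + 1) - vv F m i : ℤ) : ℝ)| =
              -∑ i ∈ Ioc u' v'', ((vv F m (i + 1) - vv F m i : ℤ) : ℝ) := by
            rw [← sum_neg_distrib]
            refine sum_congr rfl fun i hi => ?_
            rw [mem_Ioc] at hi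
            apply abs_of_nonpos
            have := hsg i (by omega) (by omega)
            rw [hDv] at this
            exact_mod_cast this
          rw [e1, htel]
          linarith
      linarith
    · rw [Ioc_eq_empty (by omega), sum_empty]
      linarith) 0 N' (Nat.zero_le _)
  rw [herr] at key
  simp only at key
  rw [Nat.zero_min, min_self] at key
  have e2 : Ioc 0 N' = Ico 1 N := by
    ext i
    rw [mem_Ioc, mem_Ico]
    omega
  rw [← e2]
  exact key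

/-- the second moment over the pairs -/
noncomputable def V2 (g : ℤ → ℝ) (s : ℤ) (F : ℤ[X]) (X : ℕ) (m₀ : ℤ) (M H : ℕ) : ℝ :=
  ∑ a ∈ Icc (-(X : ℤ)) X, ∑ t ∈ range M, (∑ i ∈ Ioc 0 H, g (s * (vv F m₀ (t + i) + a))) ^ 2

/-- differences -/
lemma diff_le (F : ℤ[X]) (m₀ : ℤ) (M H : ℕ) (TV : ℝ)
    (hTV : ∑ n ∈ Ico 1 (M + H), |((vv F m₀ (n + 1) - vv F m₀ n : ℤ) : ℝ)| ≤ TV) (i j : ℕ) (hi : 1 ≤ i) (hij : i ≤ j)
    (hj : j ≤ H) : ∑ t ∈ range M, |((vv F m₀ (t + j) - vv F m₀ (t + i) : ℤ) : ℝ)| ≤ H * TV := by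
  have h1 : ∀ t, |((vv F m₀ (t + j) - vv F m₀ (t + i) : ℤ) : ℝ)| ≤
      ∑ l ∈ Ico i j, |((vv F m₀ (t + l + 1) - vv F m₀ (t + l) : ℤ) : ℝ)| := by
    intro t
    have h2 : ∀ n, i ≤ n → ((vv F m₀ (t + n) - vv F m₀ (t + i) : ℤ) : ℝ) =
        ∑ l ∈ Ico i n, ((vv F m₀ (t + l + 1) - vv F m₀ (t + l) : ℤ) : ℝ) := by
      intro n hn
      induction n, hn using Nat.le_induction with
      | base => simp
      | succ n hn ih =>
        rw [sum_Ico_succ_top (by omega), ← ih]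
        push_cast
        rw [← add_assoc]
        ring
    rw [h2 j hij]
    exact abs_sum_le_sum_abs _ _
  have h0 : 0 ≤ TV := (sum_nonneg fun _ _ => abs_nonneg _).trans hTV
  calc ∑ t ∈ range M, |((vv F m₀ (t + j) - vv F m₀ (t + i) : ℤ) : ℝ)|
      ≤ ∑ t ∈ range M, ∑ l ∈ Ico i j, |((vv F m₀ (t + l + 1) - vv F m₀ (t + l) : ℤ) : ℝ)| := sum_le_sum fun t _ => h1 t
    _ = ∑ l ∈ Ico i j, ∑ t ∈ range M, |((vv F m₀ (t + l + 1) - vv F m₀ (t + l) : ℤ) : ℝ)| := sum_comm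
    _ ≤ ∑ l ∈ Ico i j, TV := by
        refine sum_le_sum fun l hl => ?_
        rw [mem_Ico] at hl
        refine le_trans ?_ hTV
        have e1 : ∑ t ∈ range M, |((vv F m₀ (t + l + 1) - vv F m₀ (t + l) : ℤ) : ℝ)| =
            ∑ n ∈ (range M).image (fun t => t + l), |((vv F m₀ (n + 1) - vv F m₀ n : ℤ) : ℝ)| := by
          rw [sum_image (fun x _ y _ h => by simpa using h)]
        rw [e1]
        apply sum_le_sum_of_subset_of_nonneg
        · intro n hn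
          rw [mem_image] at hn
          obtain ⟨t, ht, rfl⟩ := hn
          rw [mem_range] at ht
          rw [mem_Ico]
          omega
        · intro _ _ _; exact abs_nonneg _
    _ = (j - i : ℕ) * TV := by rw [sum_const, nsmul_eq_mul, Nat.card_Ico]
    _ ≤ H * TV := by
        apply mul_le_mul_of_nonneg_right _ h0
        exact_mod_cast (by omega : j - i ≤ H)

/-- the sum of the products -/
noncomputable def SS (g : ℤ → ℝ) (K : ℕ) (s : ℤ) (F : ℤ[X]) (A : Finset ℤ) (m₀ : ℤ) (M i j : ℕ) : ℝ :=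
  ∑ t ∈ range M, ∑ a ∈ A, gJ g 1 K (s * (vv F m₀ (t + i) + a)) * gJ g 1 K (s * (vv F m₀ (t + j) + a))

lemma SS_comm (g : ℤ → ℝ) (K : ℕ) (s : ℤ) (F : ℤ[X]) (A : Finset ℤ) (m₀ : ℤ) (M i j : ℕ) :
    SS g K s F A m₀ M i j = SS g K s F A m₀ M j i := by
  unfold SS
  exact sum_congr rfl fun m _ => sum_congr rfl fun a _ => mul_comm _ _

lemma SS_eq (g : ℤ → ℝ) (K : ℕ) (s : ℤ) (hs : s = 1 ∨ s = -1) (F : ℤ[X]) (A : Finset ℤ) (m₀ : ℤ) (M i j : ℕ)
    (hA : ∀ t ∈ range M, ∀ k ∈ Icc (1 : ℤ) K, s * k - vv F m₀ (t + i) ∈ A) :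
    SS g K s F A m₀ M i j =
      ∑ k ∈ Icc (1 : ℤ) K, g k * ∑ t ∈ range M, gJ g 1 K (k + s * (vv F m₀ (t + j) - vv F m₀ (t + i))) := by
  unfold SS
  rw [sum_congr rfl fun m hm => asum g 1 K s _ _ hs A (hA m hm), sum_comm]
  exact sum_congr rfl fun k _ => (mul_sum _ _ _).symm

lemma SS_diag (g : ℤ → ℝ) (K : ℕ) (s : ℤ) (hs : s = 1 ∨ s = -1) (F : ℤ[X]) (A : Finset ℤ) (m₀ : ℤ) (M i : ℕ)
    (hA : ∀ t ∈ range M, ∀ k ∈ Icc (1 : ℤ) K, s * k - vv F m₀ (t + i) ∈ A) :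
    SS g K s F A m₀ M i i = M * ∑ k ∈ Icc (1 : ℤ) K, g k ^ 2 := by
  rw [SS_eq g K s hs F A m₀ M i i hA, mul_sum]
  refine sum_congr rfl fun k hk => ?_
  simp only [sub_self, mul_zero, add_zero]
  rw [gJ_of g hk, sum_const, nsmul_eq_mul, card_range]
  ring

lemma SS_off (g : ℤ → ℝ) (G0 R TV : ℝ) (K : ℕ) (s : ℤ) (hs : s = 1 ∨ s = -1) (F : ℤ[X]) (A : Finset ℤ) (m₀ : ℤ)
    (M H i j : ℕ) (hg0 : ∀ k, k ≤ 0 → g k = 0) (hG : ∀ k, |g k| ≤ G0) (hi : i ∈ Ioc 0 H) (hj : j ∈ Ioc 0 H) (hij : i < j)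
    (hA : ∀ t ∈ range M, ∀ k ∈ Icc (1 : ℤ) K, s * k - vv F m₀ (t + i) ∈ A)
    (hTV : ∑ n ∈ Ico 1 (M + H), |((vv F m₀ (n + 1) - vv F m₀ n : ℤ) : ℝ)| ≤ TV)
    (hR : |∑ k ∈ Icc (1 : ℤ) K, g k * ∑ t ∈ range M, g (k + s * (vv F m₀ (t + j) - vv F m₀ (t + i)))| ≤ R) :
    |SS g K s F A m₀ M i j| ≤ R + G0 ^ 2 * (H * TV) := by
  have hG0 : 0 ≤ G0 := (abs_nonneg _).trans (hG 0)
  rw [mem_Ioc] at hi hj
  rw [SS_eq g K s hs F A m₀ M i j hA]
  obtain ⟨D, hD⟩ : ∃ D : ℕ → ℤ, D = fun t => vv F m₀ (t + j) - vv F m₀ (t + i) := ⟨_, rfl⟩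
  have hDt : ∀ t, vv F m₀ (t + j) - vv F m₀ (t + i) = D t := fun t => by rw [hD]
  have hdl := diff_le F m₀ M H TV hTV i j (by omega) hij.le hj.2
  simp only [hDt] at hR hdl ⊢
  have e1 : ∑ k ∈ Icc (1 : ℤ) K, g k * ∑ t ∈ range M, gJ g 1 K (k + s * D t) =
      ∑ k ∈ Icc (1 : ℤ) K, g k * ∑ t ∈ range M, g (k + s * D t) -
        ∑ t ∈ range M, ∑ k ∈ Icc (1 : ℤ) K, g k * (g (k + s * D t) - gJ g 1 K (k + s * D t)) := by
    rw [sum_comm (s := range M), ← sum_sub_distrib]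
    refine sum_congr rfl fun k _ => ?_
    rw [← mul_sum, sum_sub_distrib]
    ring
  rw [e1]
  refine (abs_sub _ _).trans (add_le_add hR ?_)
  refine (abs_sum_le_sum_abs _ _).trans ?_
  have h2 : ∀ t ∈ range M, |∑ k ∈ Icc (1 : ℤ) K, g k * (g (k + s * D t) - gJ g 1 K (k + s * D t))| ≤
      G0 ^ 2 * |((D t : ℤ) : ℝ)| := by
    intro t _
    refine (abs_sum_le_sum_abs _ _).trans ?_
    have h3 : ∀ k ∈ Icc (1 : ℤ) K, |g k * (g (k + s * D t) - gJ g 1 K (k + s * D t))| ≤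
        if (K : ℤ) < k + s * D t then G0 ^ 2 else 0 := by
      intro k hk
      rw [abs_mul]
      split_ifs with hc
      · rw [gJ_not g (by rw [mem_Icc]; omega), sub_zero, sq]
        exact mul_le_mul (hG _) (hG _) (abs_nonneg _) hG0
      · rcases le_or_gt (k + s * D t) 0 with h4 | h4
        · rw [hg0 _ h4, gJ_not g (by rw [mem_Icc]; omega), sub_zero, abs_zero, mul_zero]
        · rw [gJ_of g (by rw [mem_Icc]; omega), sub_self, abs_zero, mul_zero]
    refine (sum_le_sum h3).trans ?_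
    rw [← sum_filter, sum_const, nsmul_eq_mul, mul_comm]
    apply mul_le_mul_of_nonneg_left _ (sq_nonneg _)
    have h4 : #((Icc (1 : ℤ) K).filter (fun k => (K : ℤ) < k + s * D t)) ≤ (D t).natAbs := by
      have h5 : (Icc (1 : ℤ) K).filter (fun k => (K : ℤ) < k + s * D t) ⊆ Ioc ((K : ℤ) - (D t).natAbs) K := by
        intro k hk
        rw [mem_filter, mem_Icc] at hk
        rw [mem_Ioc]
        have h6 : s * D t ≤ (D t).natAbs := by
          rcases hs with h | h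
          · rw [h]; omega
          · rw [h]; omega
        constructor
        · linarith [hk.2]
        · exact hk.1.2
      refine (card_le_card h5).trans ?_
      rw [Int.card_Ioc]
      omega
    have h5 : ((#((Icc (1 : ℤ) K).filter (fun k => (K : ℤ) < k + s * D t)) : ℕ) : ℝ) ≤ (((D t).natAbs : ℕ) : ℝ) := by
      exact_mod_cast h4
    rw [Nat.cast_natAbs, Int.cast_abs] at h5
    exact h5
  refine (sum_le_sum h2).trans ?_
  rw [← mul_sum]
  exact mul_le_mul_of_nonneg_left hdl (sq_nonneg _)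

/-- **the second moment over the pairs** -/
theorem e0 (g : ℤ → ℝ) (G0 R TV : ℝ) (s : ℤ) (F : ℤ[X]) (X M H K : ℕ) (m₀ : ℤ) (hg0 : ∀ k, k ≤ 0 → g k = 0)
    (hG : ∀ k, |g k| ≤ G0) (hs : s = 1 ∨ s = -1) (hR0 : 0 ≤ R)
    (hval : ∀ a ∈ Icc (-(X : ℤ)) X, ∀ n ∈ Ioc 0 (M + H), s * (vv F m₀ n + a) ≤ K)
    (hTV : ∑ n ∈ Ico 1 (M + H), |((vv F m₀ (n + 1) - vv F m₀ n : ℤ) : ℝ)| ≤ TV)
    (hR : ∀ i ∈ Ioc 0 H, ∀ j ∈ Ioc 0 H, i < j →
      |∑ k ∈ Icc (1 : ℤ) K, g k * ∑ t ∈ range M, g (k + s * (vv F m₀ (t + j) - vv F m₀ (t + i)))| ≤ R) :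
    V2 g s F X m₀ M H ≤ H * M * (∑ k ∈ Icc (1 : ℤ) K, g k ^ 2) + (H : ℝ) ^ 2 * (R + G0 ^ 2 * (H * TV)) := by
  have hG0 : 0 ≤ G0 := (abs_nonneg _).trans (hG 0)
  have hTV0 : 0 ≤ TV := (sum_nonneg fun _ _ => abs_nonneg _).trans hTV
  set Z : ℤ := (X : ℤ) + K + ∑ n ∈ Ioc 0 (M + H), |vv F m₀ n| with hZ
  set A : Finset ℤ := Icc (-Z) Z with hA
  have hS0 : 0 ≤ ∑ n ∈ Ioc 0 (M + H), |vv F m₀ n| := sum_nonneg fun _ _ => abs_nonneg _
  have hZX : (X : ℤ) ≤ Z := by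
    rw [hZ]; linarith [Int.natCast_nonneg K]
  have hAk : ∀ i ∈ Ioc 0 H, ∀ t ∈ range M, ∀ k ∈ Icc (1 : ℤ) K, s * k - vv F m₀ (t + i) ∈ A := by
    intro i hi t ht k hk
    rw [mem_Ioc] at hi
    rw [mem_Icc] at hk
    rw [mem_range] at ht
    have h1 : |vv F m₀ (t + i)| ≤ ∑ n ∈ Ioc 0 (M + H), |vv F m₀ n| :=
      single_le_sum (f := fun n => |vv F m₀ n|) (fun _ _ => abs_nonneg _) (by rw [mem_Ioc]; omega)
    have h2 := abs_le.1 h1
    rw [hA, mem_Icc, hZ]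
    have hX0 : (0 : ℤ) ≤ X := Int.natCast_nonneg X
    rcases hs with rfl | rfl
    · constructor <;> linarith [h2.1, h2.2]
    · constructor <;> linarith [h2.1, h2.2]
  have h1 : V2 g s F X m₀ M H ≤
      ∑ a ∈ A, ∑ t ∈ range M, (∑ i ∈ Ioc 0 H, gJ g 1 K (s * (vv F m₀ (t + i) + a))) ^ 2 := by
    unfold V2
    have h2 : ∀ a ∈ Icc (-(X : ℤ)) X,
        ∑ t ∈ range M, (∑ i ∈ Ioc 0 H, g (s * (vv F m₀ (t + i) + a))) ^ 2 =
        ∑ t ∈ range M, (∑ i ∈ Ioc 0 H, gJ g 1 K (s * (vv F m₀ (t + i) + a))) ^ 2 := by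
      intro a ha
      refine sum_congr rfl fun t ht => ?_
      congr 1
      refine sum_congr rfl fun i hi => ?_
      rw [mem_range] at ht
      rw [mem_Ioc] at hi
      have h3 := hval a ha (t + i) (by rw [mem_Ioc]; omega)
      rcases le_or_gt (s * (vv F m₀ (t + i) + a)) 0 with h | h
      · rw [hg0 _ h, gJ_not]
        rw [mem_Icc]; intro hc; linarith [hc.1]
      · rw [gJ_of g]
        rw [mem_Icc]; exact ⟨h, h3⟩
    rw [sum_congr rfl h2]
    apply sum_le_sum_of_subset_of_nonneg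
    · intro a ha
      rw [mem_Icc] at ha
      rw [hA, mem_Icc]; constructor <;> linarith [ha.1, ha.2]
    · intro a _ _
      exact sum_nonneg fun m _ => sq_nonneg _
  have h3 : ∑ a ∈ A, ∑ t ∈ range M, (∑ i ∈ Ioc 0 H, gJ g 1 K (s * (vv F m₀ (t + i) + a))) ^ 2 =
      ∑ i ∈ Ioc 0 H, ∑ j ∈ Ioc 0 H, SS g K s F A m₀ M i j := by
    unfold SS
    rw [sum_comm]
    have h4 : ∀ t ∈ range M, ∑ a ∈ A, (∑ i ∈ Ioc 0 H, gJ g 1 K (s * (vv F m₀ (t + i) + a))) ^ 2 =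
        ∑ i ∈ Ioc 0 H, ∑ j ∈ Ioc 0 H, ∑ a ∈ A, gJ g 1 K (s * (vv F m₀ (t + i) + a)) *
          gJ g 1 K (s * (vv F m₀ (t + j) + a)) := by
      intro t _
      simp_rw [sq (∑ i ∈ Ioc 0 H, _), sum_mul_sum]
      rw [sum_comm]
      exact sum_congr rfl fun i _ => sum_comm
    rw [sum_congr rfl h4, sum_comm]
    exact sum_congr rfl fun i _ => sum_comm
  rw [h3] at h1
  refine h1.trans ?_
  set O : ℝ := R + G0 ^ 2 * (H * TV) with hO
  have hO0 : 0 ≤ O := by rw [hO]; positivity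
  set D : ℝ := M * ∑ k ∈ Icc (1 : ℤ) K, g k ^ 2 with hD
  have h5 : ∀ i ∈ Ioc 0 H, ∑ j ∈ Ioc 0 H, SS g K s F A m₀ M i j ≤ D + H * O := by
    intro i hi
    rw [← add_sum_erase _ _ hi]
    apply add_le_add
    · exact (SS_diag g K s hs F A m₀ M i (hAk i hi)).le
    · calc ∑ j ∈ (Ioc 0 H).erase i, SS g K s F A m₀ M i j ≤ ∑ _j ∈ (Ioc 0 H).erase i, O := by
            refine sum_le_sum fun j hj => ?_
            rw [mem_erase] at hj
            rcases lt_or_gt_of_ne hj.1 with h | h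
            · rw [SS_comm]
              exact (le_abs_self _).trans (SS_off g G0 R TV K s hs F A m₀ M H j i hg0 hG hj.2 hi h (hAk j hj.2) hTV
                (hR j hj.2 i hi h))
            · exact (le_abs_self _).trans (SS_off g G0 R TV K s hs F A m₀ M H i j hg0 hG hi hj.2 h (hAk i hi) hTV
                (hR i hi j hj.2 h))
        _ = #((Ioc 0 H).erase i) * O := by rw [sum_const, nsmul_eq_mul]
        _ ≤ H * O := by
            apply mul_le_mul_of_nonneg_right _ hO0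
            have : #((Ioc 0 H).erase i) ≤ H := by
              refine (card_le_card (erase_subset _ _)).trans ?_
              rw [Nat.card_Ioc]; omega
            exact_mod_cast this
  calc ∑ i ∈ Ioc 0 H, ∑ j ∈ Ioc 0 H, SS g K s F A m₀ M i j ≤ ∑ _i ∈ Ioc 0 H, (D + H * O) := sum_le_sum h5
    _ = H * (D + H * O) := by rw [sum_const, nsmul_eq_mul, Nat.card_Ioc, Nat.sub_zero]
    _ = _ := by rw [hD, hO]; ring

end Run7.h373.QE
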