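import Pool.Agent.Run7.h373.QE.E2a
import Pool.Agent.Run7.h373.QE.Tv
import Pool.Agent.Run7.h373.QD.Siv

/-!
# Project QE: the off-diagonal terms for the difference of two sieve models
-/

set_option autoImplicit false
set_option maxHeartbeats 1000000

namespace Run7.h373.QE

open Finset
open Polynomial (taylor natDegree leadingCoeff)
open scoped Polynomial
open Pool.Agent.H373R2.T7 (pz Vz lamz mem_pz Vz_ge)
open Pool.Agent.TH204.WR (rho xp hh hh_nonneg hh_mul prod_nonneg' prod_le_one')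
open Pool.Agent.TH892.OW (Vz_anti one_le_Vz_inv card_pf fz lz fz_abs)
open Run7.h373.QD (vv model sum_win)

/-- the model, with or without a fixed prime divisor -/
theorem model' (d : ℕ) (hd : 1 ≤ d) : ∃ C1 y0 : ℕ, 1 ≤ C1 ∧ 2 ≤ y0 ∧ ∀ k : ℕ, C1 ≤ k → ∀ z : ℕ, y0 ≤ z → ∀ (F : ℤ[X]) (c m : ℤ),
    F.natDegree ≤ d → ∀ M : ℕ,
    |∑ t ∈ range M, lamz z (F.eval (m + t) + c).natAbs - M * hh F c z| ≤
      (2 * (1 / 2 : ℝ) ^ k) * hh F c z * M + (z : ℝ) ^ (C1 * k + 1) := by
  obtain ⟨C1, y0, hC1, hy0, h⟩ := model d hd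
  refine ⟨C1, y0, hC1, hy0, fun k hk z hz F c m hF M => ?_⟩
  have hz1 : 1 ≤ z := by omega
  by_cases hadm : ∀ p ∈ pz z, rho F c p < p
  · have h1 := h k hk z hz F c (m - 1) hF hadm 0 M (Nat.zero_le _)
    have h2 := sum_win F (m - 1) M (fun v => lamz z (v + c).natAbs)
    rw [sum_sub_distrib, ← h2, sum_const, Nat.card_Ioc, nsmul_eq_mul, Nat.sub_zero, Nat.cast_zero, sub_zero] at h1
    have e1 : ∑ j ∈ range M, lamz z (F.eval (m - 1 + 1 + j) + c).natAbs = ∑ t ∈ range M, lamz z (F.eval (m + t) + c).natAbs := by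
      refine sum_congr rfl fun t _ => ?_
      rw [sub_add_cancel]
    rw [e1] at h1
    exact h1
  · push Not at hadm
    obtain ⟨p, hp, hpr⟩ := hadm
    have hpp := (mem_pz.1 hp).2
    have hp0 : (0 : ℤ) < p := by exact_mod_cast hpp.pos
    have hall : ∀ x : ℤ, (p : ℤ) ∣ F.eval x + c := by
      intro x
      have h1 : (range p).filter (fun a : ℕ => (p : ℤ) ∣ F.eval (a : ℤ) + c) = range p := by
        apply eq_of_subset_of_card_le (filter_subset _ _)
        rw [card_range]
        exact hpr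
      have hlt : (x % p).toNat < p := by
        have h1 := Int.emod_nonneg x hp0.ne'
        have h2 := Int.emod_lt_of_pos x hp0
        omega
      have hcast : (((x % p).toNat : ℕ) : ℤ) = x % p := Int.toNat_of_nonneg (Int.emod_nonneg x hp0.ne')
      have h2 : (x % p).toNat ∈ (range p).filter (fun a : ℕ => (p : ℤ) ∣ F.eval (a : ℤ) + c) := by
        rw [h1]; exact mem_range.2 hlt
      have h3 := (mem_filter.1 h2).2
      rw [hcast] at h3
      have h4 : (p : ℤ) ∣ x - x % p := Int.dvd_self_sub_emod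
      have h5 : (x - x % p) ∣ F.eval x - F.eval (x % p) := Polynomial.sub_dvd_eval_sub x (x % p) F
      have h6 := dvd_add (h4.trans h5) h3
      have e : F.eval x - F.eval (x % p) + (F.eval (x % p) + c) = F.eval x + c := by ring
      rwa [e] at h6
    have hrho : rho F c p = p := le_antisymm (Pool.Agent.TH204.WR.rho_le F c p) hpr
    have hhh : hh F c z = 0 := by
      unfold hh
      rw [prod_eq_zero hp, mul_zero]
      rw [hrho]
      have : (p : ℝ) ≠ 0 := by exact_mod_cast hpp.ne_zero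
      rw [div_self this, sub_self]
    have hlam : ∀ t ∈ range M, lamz z (F.eval (m + t) + c).natAbs = 0 := by
      intro t _
      unfold lamz
      rw [if_neg]
      intro h1
      exact h1 p hp (Int.natCast_dvd.1 (hall (m + t)))
    rw [sum_eq_zero hlam, hhh]
    simp only [mul_zero, sub_zero, abs_zero, zero_mul, zero_add]
    positivity

/-- the difference of the two models without the condition that the argument is positive -/
noncomputable def fz' (w z : ℕ) (y : ℤ) : ℝ := lamz z y.natAbs - lamz w y.natAbs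

lemma fz_eq' (w z : ℕ) (y : ℤ) (hy : 1 ≤ y) : fz w z y = fz' w z y := by
  unfold fz fz' lz
  rw [if_pos (by omega), if_pos (by omega)]
  have : y.toNat = y.natAbs := by omega
  rw [this]

lemma fz'_abs (w z : ℕ) (hw : 1 ≤ w) (hwz : w ≤ z) (y : ℤ) : |fz' w z y| ≤ (Vz z)⁻¹ := by
  unfold fz'
  have h1 := Pool.Agent.TH892.SW.lamz_nonneg z y.natAbs (by omega)
  have h2 := Pool.Agent.TH892.SW.lamz_nonneg w y.natAbs (by omega)
  have h3 := Pool.Agent.TH892.SW.lamz_le z y.natAbs (by omega)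
  have h4 := (Pool.Agent.TH892.SW.lamz_le w y.natAbs (by omega)).trans (Vz_anti hwz)
  rw [abs_le]; constructor <;> linarith

lemma fz'_sign (w z : ℕ) (s y : ℤ) (hs : s = 1 ∨ s = -1) : fz' w z (s * y) = fz' w z y := by
  unfold fz'
  have : (s * y).natAbs = y.natAbs := by
    rcases hs with h | h <;> rw [h] <;> simp
  rw [this]

/-- the off-diagonal terms -/
lemma fz_off (F G : ℤ[X]) (w z : ℕ) (hw : 1 ≤ w) (hwz : w ≤ z) (s : ℤ) (hs : s = 1 ∨ s = -1) (m₀ : ℤ) (M K i j : ℕ)
    (hG : ∀ t : ℕ, vv F m₀ (t + j) - vv F m₀ (t + i) = G.eval (m₀ + t)) (TD δ : ℝ)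
    (hTD : ∑ t ∈ range M, |((vv F m₀ (t + j) - vv F m₀ (t + i) : ℤ) : ℝ)| ≤ TD)
    (hz : ∀ c : ℤ, |∑ t ∈ range M, lamz z (G.eval (m₀ + t) + c).natAbs - M * hh G c z| ≤ δ)
    (hw' : ∀ c : ℤ, |∑ t ∈ range M, lamz w (G.eval (m₀ + t) + c).natAbs - M * hh G c w| ≤ δ) :
    |∑ k ∈ Icc (1 : ℤ) K, fz w z k * ∑ t ∈ range M, fz w z (k + s * (vv F m₀ (t + j) - vv F m₀ (t + i)))| ≤
      (Vz z)⁻¹ * (M * ∑ c ∈ Icc (-(K : ℤ)) K, |hh G c z - hh G c w|) + K * ((Vz z)⁻¹ * (2 * δ)) + (Vz z)⁻¹ ^ 2 * TD := by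
  have hss : s * s = 1 := by rcases hs with h | h <;> rw [h] <;> norm_num
  have hV0 : 0 ≤ (Vz z)⁻¹ := inv_nonneg.2 (Pool.Agent.H373R2.T7.Vz_pos z).le
  have hM0 : (0 : ℝ) ≤ M := Nat.cast_nonneg _
  obtain ⟨D, hD⟩ : ∃ D : ℕ → ℤ, D = fun t => vv F m₀ (t + j) - vv F m₀ (t + i) := ⟨_, rfl⟩
  have hDt : ∀ t, vv F m₀ (t + j) - vv F m₀ (t + i) = D t := fun t => by rw [hD]
  have hGt : ∀ t : ℕ, D t = G.eval (m₀ + t) := fun t => by rw [← hG t, hDt]
  simp only [hDt] at hTD ⊢
  have e1 : ∑ k ∈ Icc (1 : ℤ) K, fz w z k * ∑ t ∈ range M, fz w z (k + s * D t) =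
      ∑ k ∈ Icc (1 : ℤ) K, fz w z k * ∑ t ∈ range M, fz' w z (k + s * D t) -
        ∑ t ∈ range M, ∑ k ∈ Icc (1 : ℤ) K, fz w z k * (fz' w z (k + s * D t) - fz w z (k + s * D t)) := by
    rw [sum_comm (s := range M), ← sum_sub_distrib]
    refine sum_congr rfl fun k _ => ?_
    rw [← mul_sum, sum_sub_distrib]
    ring
  rw [e1]
  refine (abs_sub _ _).trans (add_le_add ?_ ?_)
  · -- the main part
    refine (abs_sum_le_sum_abs _ _).trans ?_
    have h1 : ∀ k ∈ Icc (1 : ℤ) K, |fz w z k * ∑ t ∈ range M, fz' w z (k + s * D t)| ≤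
        (Vz z)⁻¹ * (M * |hh G (s * k) z - hh G (s * k) w|) + (Vz z)⁻¹ * (2 * δ) := by
      intro k _
      rw [abs_mul, ← mul_add]
      apply mul_le_mul (fz_abs w z hwz k) _ (abs_nonneg _) hV0
      have e2 : ∑ t ∈ range M, fz' w z (k + s * D t) =
          ∑ t ∈ range M, lamz z (G.eval (m₀ + t) + s * k).natAbs - ∑ t ∈ range M, lamz w (G.eval (m₀ + t) + s * k).natAbs := by
        rw [← sum_sub_distrib]
        refine sum_congr rfl fun t _ => ?_
        rw [← fz'_sign w z s (k + s * D t) hs]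
        have e3 : s * (k + s * D t) = G.eval (m₀ + t) + s * k := by
          rw [mul_add, ← mul_assoc, hss, one_mul, hGt, add_comm]
        rw [e3]
        rfl
      rw [e2]
      have e4 : ∑ t ∈ range M, lamz z (G.eval (m₀ + t) + s * k).natAbs - ∑ t ∈ range M, lamz w (G.eval (m₀ + t) + s * k).natAbs =
          (∑ t ∈ range M, lamz z (G.eval (m₀ + t) + s * k).natAbs - M * hh G (s * k) z) -
          (∑ t ∈ range M, lamz w (G.eval (m₀ + t) + s * k).natAbs - M * hh G (s * k) w) +
          M * (hh G (s * k) z - hh G (s * k) w) := by ring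
      rw [e4]
      refine (abs_add_le _ _).trans ?_
      have a1 := abs_sub (∑ t ∈ range M, lamz z (G.eval (m₀ + t) + s * k).natAbs - M * hh G (s * k) z)
        (∑ t ∈ range M, lamz w (G.eval (m₀ + t) + s * k).natAbs - M * hh G (s * k) w)
      have a2 := hz (s * k)
      have a3 := hw' (s * k)
      rw [abs_mul, abs_of_nonneg hM0]
      linarith
    refine (sum_le_sum h1).trans ?_
    rw [sum_add_distrib, ← mul_sum, ← mul_sum, sum_const, nsmul_eq_mul]
    have hcard : (#(Icc (1 : ℤ) K) : ℝ) = K := by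
      rw [Int.card_Icc]
      congr 1
      omega
    rw [hcard]
    apply add_le_add _ le_rfl
    apply mul_le_mul_of_nonneg_left _ hV0
    apply mul_le_mul_of_nonneg_left _ hM0
    have hinj : Set.InjOn (fun k : ℤ => s * k) (Icc (1 : ℤ) K) := by
      intro x _ y _ h
      simp only at h
      have h6 : s * (s * x) = s * (s * y) := by rw [h]
      rw [← mul_assoc, ← mul_assoc, hss, one_mul, one_mul] at h6
      exact h6
    rw [← sum_image (f := fun c => |hh G c z - hh G c w|) hinj]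
    apply sum_le_sum_of_subset_of_nonneg
    · intro c hc
      rw [mem_image] at hc
      obtain ⟨k, hk, rfl⟩ := hc
      rw [mem_Icc] at hk
      rw [mem_Icc]
      rcases hs with h | h
      · rw [h]; constructor <;> linarith [hk.1, hk.2]
      · rw [h]; constructor <;> linarith [hk.1, hk.2]
    · intro _ _ _; exact abs_nonneg _
  · -- the boundary
    refine (abs_sum_le_sum_abs _ _).trans ?_
    have h2 : ∀ t ∈ range M, |∑ k ∈ Icc (1 : ℤ) K, fz w z k * (fz' w z (k + s * D t) - fz w z (k + s * D t))| ≤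
        (Vz z)⁻¹ ^ 2 * |((D t : ℤ) : ℝ)| := by
      intro t _
      refine (abs_sum_le_sum_abs _ _).trans ?_
      have h3 : ∀ k ∈ Icc (1 : ℤ) K, |fz w z k * (fz' w z (k + s * D t) - fz w z (k + s * D t))| ≤
          if k + s * D t ≤ 0 then (Vz z)⁻¹ ^ 2 else 0 := by
        intro k hk
        rw [abs_mul]
        split_ifs with hc
        · rw [Pool.Agent.TH892.OW.fz_neg w z _ hc, sub_zero, sq]
          exact mul_le_mul (fz_abs w z hwz k) (fz'_abs w z hw hwz _) (abs_nonneg _) hV0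
        · rw [fz_eq' w z (k + s * D t) (by omega), sub_self, abs_zero, mul_zero]
      refine (sum_le_sum h3).trans ?_
      rw [← sum_filter, sum_const, nsmul_eq_mul, mul_comm]
      apply mul_le_mul_of_nonneg_left _ (sq_nonneg _)
      have h4 : #((Icc (1 : ℤ) K).filter (fun k => k + s * D t ≤ 0)) ≤ (D t).natAbs := by
        have h5 : (Icc (1 : ℤ) K).filter (fun k => k + s * D t ≤ 0) ⊆ Icc 1 ((D t).natAbs : ℤ) := by
          intro k hk
          rw [mem_filter, mem_Icc] at hk
          rw [mem_Icc]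
          have h6 : -(s * D t) ≤ (D t).natAbs := by
            rcases hs with h | h
            · rw [h]; omega
            · rw [h]; omega
          constructor
          · exact hk.1.1
          · linarith [hk.2]
        refine (card_le_card h5).trans ?_
        rw [Int.card_Icc]
        omega
      have h5 : ((#((Icc (1 : ℤ) K).filter (fun k => k + s * D t ≤ 0)) : ℕ) : ℝ) ≤ (((D t).natAbs : ℕ) : ℝ) := by
        exact_mod_cast h4
      rw [Nat.cast_natAbs, Int.cast_abs] at h5
      exact h5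
    refine (sum_le_sum h2).trans ?_
    rw [← mul_sum]
    exact mul_le_mul_of_nonneg_left hTD (sq_nonneg _)

end Run7.h373.QE
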