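import Pool.Agent.Run7.h373.QE.E1
import Pool.Agent.Run7.h373.QE.E2b
import Pool.Agent.Run7.h373.QD.Fin

/-!
# Project QE: the second moment over the pairs of the difference of two sieve models
-/

set_option autoImplicit false
set_option maxHeartbeats 4000000

namespace Run7.h373.QE

open Finset Filter
open Polynomial (taylor natDegree leadingCoeff)
open scoped Polynomial
open Pool.Agent.H373R2.T7 (pz Vz lamz mem_pz Vz_ge)
open Pool.Agent.TH204.WR (rho xp hh hh_nonneg)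
open Pool.Agent.TH892.OW (Vz_anti one_le_Vz_inv card_pf fz lz fz_abs evt_ll evt_ll_ge Vz_log)
open Pool.Agent.H442R2.EHI (evt_log_pow evt_log_ge)
open Pool.Agent.Y868.TB (evt_root)
open Run7.h373.QD (vv model sum_win pickn)
open Run7.h385.CR (ev_lge)

lemma V_bd (E : ℕ) (hE : 1 ≤ E) : ∃ Cv : ℝ, 1 ≤ Cv ∧ ∃ X0 : ℕ, ∀ X : ℕ, X0 ≤ X →
    (Vz ⌊Real.log X ^ E⌋₊)⁻¹ ≤ Cv * Real.log (Real.log X) ^ 2 := by
  obtain ⟨C, hC, hVl⟩ := Vz_log
  obtain ⟨X1, hX1⟩ := ev_lge 10000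
  have hEr : (1 : ℝ) ≤ E := by exact_mod_cast hE
  refine ⟨C * E ^ 2, by nlinarith, X1, fun X hX => ?_⟩
  have hl := hX1 X hX
  generalize Real.log X = l at *
  obtain ⟨z, hz⟩ : ∃ z, z = ⌊l ^ E⌋₊ := ⟨_, rfl⟩
  rw [← hz]
  have hl1 : 1 ≤ l := by linarith
  have hzle : (z : ℝ) ≤ l ^ E := by rw [hz]; exact Nat.floor_le (by positivity)
  have hlE : l ≤ l ^ E := le_self_pow₀ hl1 (by omega)
  have hz3 : 3 ≤ z := by
    have h3 := Nat.lt_floor_add_one (l ^ E)
    rw [← hz] at h3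
    have : (3 : ℝ) ≤ z := by linarith
    exact_mod_cast this
  have hzr : (3 : ℝ) ≤ z := by exact_mod_cast hz3
  have h3 : Real.log z ≤ E * Real.log l := by
    have := Real.log_le_log (by linarith) hzle
    rwa [Real.log_pow] at this
  have h4 : 0 ≤ Real.log z := Real.log_nonneg (by linarith)
  refine (hVl z hz3).trans ?_
  calc C * Real.log z ^ 2 ≤ C * (E * Real.log l) ^ 2 := by gcongr
    _ = _ := by ring

lemma log2_le (H D : ℕ) (L : ℝ) (hL : 1 ≤ L) (hH1 : 1 ≤ H) (hH : (H : ℝ) ≤ L ^ D) (hm : 2 * (D : ℝ) ≤ Real.log L) :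
    ((Nat.log 2 H : ℕ) : ℝ) ≤ Real.log L ^ 2 := by
  have h1 : 2 ^ Nat.log 2 H ≤ H := Nat.pow_log_le_self 2 (by omega)
  have h2 : ((2 : ℝ) ^ Nat.log 2 H) ≤ H := by exact_mod_cast h1
  have h3 := Real.log_le_log (by positivity) (h2.trans hH)
  rw [Real.log_pow, Real.log_pow] at h3
  have h4 : (0.6 : ℝ) ≤ Real.log 2 := by have := Real.log_two_gt_d9; linarith
  have h5 : (0 : ℝ) ≤ (Nat.log 2 H : ℕ) := Nat.cast_nonneg _
  have h6 : 0 ≤ Real.log L := Real.log_nonneg hL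
  nlinarith

/-- the arithmetic of the off-diagonal terms -/
lemma ar_main {X M K V S w κ k e2 m A1 : ℝ} (hX : 0 ≤ X) (hM : 0 ≤ M) (hV : 1 ≤ V) (hm : 204 ≤ m)
    (hK : K = A1 * X) (hAV : A1 * V ^ 2 ≤ m ^ 5) (hκ : κ = 1 / m ^ 8) (hk : k ≤ m ^ 2)
    (hw : m ^ 40 ≤ w) (hKw : w ≤ K) (he : e2 ≤ m)
    (hS : S ≤ K * (V * (24 * κ + 10 * k / w + k / K + 16 * e2 / (w * κ ^ 2)))) :
    V * (M * S) ≤ X * M * (1 / (4 * m ^ 2)) := by
  have hm0 : 0 < m := by linarith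
  have hm1 : 1 ≤ m := by linarith
  have hw0 : 0 < w := lt_of_lt_of_le (by positivity) hw
  have hKp : 0 < K := lt_of_lt_of_le hw0 hKw
  have h1 : 24 * κ + 10 * k / w + k / K + 16 * e2 / (w * κ ^ 2) ≤ 51 / m ^ 8 := by
    have a1 : 24 * κ = 24 / m ^ 8 := by rw [hκ]; ring
    have a2 : 10 * k / w ≤ 10 / m ^ 8 := by
      rw [div_le_div_iff₀ hw0 (by positivity)]
      calc 10 * k * m ^ 8 ≤ 10 * m ^ 2 * m ^ 8 := by gcongr
        _ = 10 * m ^ 10 := by ring
        _ ≤ 10 * m ^ 40 := by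
            apply mul_le_mul_of_nonneg_left _ (by norm_num)
            exact pow_le_pow_right₀ hm1 (by norm_num)
        _ ≤ 10 * w := by linarith
    have a3 : k / K ≤ 1 / m ^ 8 := by
      rw [div_le_div_iff₀ hKp (by positivity)]
      calc k * m ^ 8 ≤ m ^ 2 * m ^ 8 := by gcongr
        _ = m ^ 10 := by ring
        _ ≤ m ^ 40 := pow_le_pow_right₀ hm1 (by norm_num)
        _ ≤ 1 * K := by linarith
    have a4 : 16 * e2 / (w * κ ^ 2) ≤ 16 / m ^ 8 := by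
      have e1 : 16 * e2 / (w * κ ^ 2) = 16 * e2 * m ^ 16 / w := by
        rw [hκ]; field_simp
      rw [e1, div_le_div_iff₀ hw0 (by positivity)]
      calc 16 * e2 * m ^ 16 * m ^ 8 ≤ 16 * m * m ^ 16 * m ^ 8 := by gcongr
        _ = 16 * m ^ 25 := by ring
        _ ≤ 16 * m ^ 40 := by
            apply mul_le_mul_of_nonneg_left _ (by norm_num)
            exact pow_le_pow_right₀ hm1 (by norm_num)
        _ ≤ 16 * w := by linarith
    have a5 : 51 / m ^ 8 = 24 / m ^ 8 + 10 / m ^ 8 + 1 / m ^ 8 + 16 / m ^ 8 := by ring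
    rw [a5, a1]
    linarith
  calc V * (M * S) ≤ V * (M * (K * (V * (51 / m ^ 8)))) := by
        apply mul_le_mul_of_nonneg_left _ (by linarith)
        apply mul_le_mul_of_nonneg_left _ hM
        refine hS.trans ?_
        apply mul_le_mul_of_nonneg_left _ hKp.le
        apply mul_le_mul_of_nonneg_left h1 (by linarith)
    _ = X * M * ((A1 * V ^ 2) * (51 / m ^ 8)) := by rw [hK]; ring
    _ ≤ X * M * (m ^ 5 * (51 / m ^ 8)) := by
        apply mul_le_mul_of_nonneg_left _ (by positivity)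
        apply mul_le_mul_of_nonneg_right hAV (by positivity)
    _ ≤ X * M * (1 / (4 * m ^ 2)) := by
        apply mul_le_mul_of_nonneg_left _ (by positivity)
        have e1 : m ^ 5 * (51 / m ^ 8) = 51 / m ^ 3 := by field_simp
        rw [e1, div_le_div_iff₀ (by positivity) (by positivity)]
        have : m ^ 3 = m * m ^ 2 := by ring
        rw [this]
        nlinarith [sq_nonneg m]

/-- **the second moment of `fz` over the pairs** -/
theorem e2 (d : ℕ) (hd : 2 ≤ d) (A : ℕ) : ∀ D E u : ℕ, 1 ≤ E → 1 ≤ u → ∃ X₀ : ℕ,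
    ∀ X : ℕ, X₀ ≤ X → ∀ F : ℤ[X], F.natDegree = d → |(F.leadingCoeff : ℝ)| ≤ A → ∀ (m₀ : ℤ) (M H : ℕ), 1 ≤ H →
    (H : ℝ) ≤ Real.log X ^ D → (X : ℝ) ^ (1 / (3 * ((d : ℝ) - 1))) ≤ M →
    (∀ n ∈ Ioc 0 (M + H), |((vv F m₀ n : ℤ) : ℝ)| ≤ A * X) → ∀ s : ℤ, (s = 1 ∨ s = -1) →
    V2 (fz ⌊Real.log X ^ (1 / (u : ℝ))⌋₊ ⌊Real.log X ^ E⌋₊) s F X m₀ M H ≤
      X * M * (H * √(Real.log X) + (H : ℝ) ^ 2 / Real.log (Real.log X) ^ 2) := by
  intro D E u hE hu
  obtain ⟨e, he⟩ : ∃ e, d = e + 1 := ⟨d - 1, by omega⟩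
  have he1 : 1 ≤ e := by omega
  have her : (1 : ℝ) ≤ e := by exact_mod_cast he1
  have hur : (1 : ℝ) ≤ u := by exact_mod_cast hu
  have hur0 : (0 : ℝ) < u := by linarith
  have hA0 : (0 : ℝ) ≤ A := Nat.cast_nonneg _
  obtain ⟨Cv, hCv1, Xv, hXv⟩ := V_bd E hE
  obtain ⟨C1, y0, hC1, hy0, hmod⟩ := model' e he1
  obtain ⟨Xp, hXp⟩ := pickn E 2 C1 (6 * e) (by omega)
  have hev : ∀ᶠ X : ℕ in atTop, (10000 : ℝ) ≤ Real.log X ∧
      (204 + (A + 1) * Cv ^ 2 + 8 * (e : ℝ) ^ 2 + 2 * D + 4 * e + d * A + d + y0 + 2 : ℝ) ≤ Real.log (Real.log X) ∧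
      1 * Real.log (Real.log X) ^ 41 ≤ Real.log X ^ (1 / (u : ℝ)) ∧
      ((A + 1) * Cv ^ 2) * Real.log (Real.log X) ^ 4 ≤ Real.log X ^ (1 / 2 : ℝ) ∧
      Real.log X ^ (3 * E) ≤ (X : ℝ) ^ (1 : ℝ) := by
    filter_upwards [evt_log_ge 10000, evt_ll_ge _, evt_ll 41 (1 / (u : ℝ)) 1 (by positivity),
      evt_ll 4 (1 / 2) ((A + 1) * Cv ^ 2) (by norm_num), evt_log_pow (3 * E) 1 (by norm_num)] with X a1 a2 a3 a4 a5
    exact ⟨a1, a2, a3, a4, a5⟩
  obtain ⟨X1, hX1⟩ := eventually_atTop.1 hev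
  obtain ⟨X2, hX2⟩ := evt_root (6 * e) (D + 3) (by omega) (32 * 2 ^ d * A + 8)
  refine ⟨Xv + Xp + X1 + X2 + 1, fun X hX F hF hFl m₀ M H hH1 hHD hM hval s hs => ?_⟩
  have gv := hXv X (by omega)
  have gp := hXp X (by omega)
  obtain ⟨hL4, hm, hmw, hmV, hzX⟩ := hX1 X (by omega)
  have gr := hX2 X (by omega)
  clear hXv hXp hX1 hX2 hev
  set L := Real.log X with hL
  set m := Real.log L with hmd
  have hL0 : 0 < L := by linarith
  have hL1 : 1 ≤ L := by linarith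
  have hLp : ∀ n : ℕ, 0 < L ^ n := fun n => by positivity
  have hLmono : ∀ {i j : ℕ}, i ≤ j → L ^ i ≤ L ^ j := fun h => pow_le_pow_right₀ hL1 h
  have hX1 : (1 : ℝ) ≤ X := by exact_mod_cast (by omega : 1 ≤ X)
  have hX0 : (0 : ℝ) < X := by linarith
  have p1 : 0 ≤ ((A : ℝ) + 1) * Cv ^ 2 := by positivity
  have p2 : 0 ≤ 8 * (e : ℝ) ^ 2 := by positivity
  have p3 : (0 : ℝ) ≤ D := Nat.cast_nonneg _
  have p4 : (0 : ℝ) ≤ y0 := Nat.cast_nonneg _
  have p5 : (0 : ℝ) ≤ (d : ℝ) * A := by positivity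
  have p6 : (0 : ℝ) ≤ d := Nat.cast_nonneg _
  have hm204 : 204 ≤ m := by linarith
  have hm_e2 : 8 * (e : ℝ) ^ 2 ≤ m := by linarith
  have hm_D : 2 * (D : ℝ) ≤ m := by linarith
  have hm_e : 4 * (e : ℝ) ≤ m := by linarith
  have hm_dA : (d : ℝ) * A ≤ m := by linarith
  have hm_d : (d : ℝ) ≤ m := by linarith
  have hm_y : (y0 : ℝ) ≤ m := by linarith
  have hm_C : ((A : ℝ) + 1) * Cv ^ 2 ≤ m := by linarith
  clear hm
  have hm0 : 0 < m := by linarith only [hm204]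
  have hm1 : 1 ≤ m := by linarith only [hm204]
  have hsq : √L = L ^ (1 / 2 : ℝ) := Real.sqrt_eq_rpow L
  have hss : √L * √L = L := Real.mul_self_sqrt hL0.le
  have hs0 : 0 ≤ √L := Real.sqrt_nonneg L
  -- `M`
  have hd1 : ((d : ℝ) - 1) = e := by rw [he]; push_cast; ring
  rw [hd1] at hM
  obtain ⟨Y, hY⟩ : ∃ Y : ℝ, Y = (X : ℝ) ^ (1 / ((6 * e : ℕ) : ℝ)) := ⟨_, rfl⟩
  rw [← hY] at gr
  have hYY : Y * Y = (X : ℝ) ^ (1 / (3 * (e : ℝ))) := by
    rw [hY, ← Real.rpow_add hX0]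
    congr 1
    push_cast
    field_simp
    norm_num
  rw [← hYY] at hM
  have hY1 : 1 ≤ Y := by rw [hY]; exact Real.one_le_rpow hX1 (by positivity)
  have hYM : Y ≤ M := by nlinarith
  have hM0 : (0 : ℝ) ≤ M := Nat.cast_nonneg _
  have hHr : (1 : ℝ) ≤ H := by exact_mod_cast hH1
  -- `z`, `w`
  obtain ⟨z, hz⟩ : ∃ z : ℕ, z = ⌊L ^ E⌋₊ := ⟨_, rfl⟩
  obtain ⟨w, hw⟩ : ∃ w : ℕ, w = ⌊L ^ (1 / (u : ℝ))⌋₊ := ⟨_, rfl⟩
  rw [← hz] at gv ⊢
  rw [← hw]
  have hz2 : (z : ℝ) ≤ L ^ E := by rw [hz]; exact Nat.floor_le (hLp E).le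
  have hLu : L ^ (1 / (u : ℝ)) ≤ L := by
    calc L ^ (1 / (u : ℝ)) ≤ L ^ (1 : ℝ) := by
          apply Real.rpow_le_rpow_of_exponent_le hL1
          rw [div_le_one hur0]; exact hur
      _ = L := Real.rpow_one L
  have hLE : L ≤ L ^ E := le_self_pow₀ hL1 (by omega)
  have hwz : w ≤ z := by
    rw [hw, hz]
    exact Nat.floor_le_floor (hLu.trans hLE)
  have hwL : (w : ℝ) ≤ L := by
    have : (w : ℝ) ≤ L ^ (1 / (u : ℝ)) := by rw [hw]; exact Nat.floor_le (by positivity)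
    linarith
  have hwm : m ^ 40 ≤ w := by
    have h1 := Nat.lt_floor_add_one (L ^ (1 / (u : ℝ)))
    rw [← hw] at h1
    have h2 : m ^ 41 = m * m ^ 40 := by ring
    have h3 : 1 ≤ m ^ 40 := one_le_pow₀ hm1
    nlinarith
  have hmw1 : m ≤ w := le_trans (le_self_pow₀ hm1 (by norm_num)) hwm
  have hw1 : 1 ≤ w := by
    have : (1 : ℝ) ≤ w := hm1.trans hmw1
    exact_mod_cast this
  have hwy : y0 ≤ w := by
    have : (y0 : ℝ) ≤ w := hm_y.trans hmw1
    exact_mod_cast this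
  have hwr0 : (0 : ℝ) < w := lt_of_lt_of_le hm0 hmw1
  -- `V`
  obtain ⟨V, hV⟩ : ∃ V : ℝ, V = (Vz z)⁻¹ := ⟨_, rfl⟩
  rw [← hV] at gv
  have hV1 : 1 ≤ V := by rw [hV]; exact one_le_Vz_inv z
  have hV0 : 0 < V := by linarith
  have hV2 : (A + 1) * V ^ 2 ≤ ((A + 1) * Cv ^ 2) * m ^ 4 := by
    calc ((A : ℝ) + 1) * V ^ 2 ≤ (A + 1) * (Cv * m ^ 2) ^ 2 := by gcongr
      _ = _ := by ring
  have hAV5 : (A + 1) * V ^ 2 ≤ m ^ 5 := by
    refine hV2.trans ?_
    calc ((A + 1) * Cv ^ 2) * m ^ 4 ≤ m * m ^ 4 := by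
          exact mul_le_mul_of_nonneg_right hm_C (by positivity)
      _ = m ^ 5 := by ring
  have hAVs : (A + 1) * V ^ 2 ≤ √L := by rw [hsq]; exact hV2.trans hmV
  have hm4s : m ^ 4 ≤ √L := by
    rw [hsq]
    refine le_trans ?_ hmV
    have h1 : 1 ≤ ((A : ℝ) + 1) * Cv ^ 2 := by
      have : 1 ≤ Cv ^ 2 := one_le_pow₀ hCv1
      nlinarith
    have h2 : 0 ≤ m ^ 4 := by positivity
    nlinarith
  have hm2s : m ^ 2 ≤ √L := le_trans (pow_le_pow_right₀ hm1 (by norm_num)) hm4s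
  -- `K`
  obtain ⟨K, hK⟩ : ∃ K : ℕ, K = (A + 1) * X := ⟨_, rfl⟩
  have hKr : (K : ℝ) = (A + 1) * X := by rw [hK]; push_cast; ring
  have hKX : (X : ℝ) ≤ K := by rw [hKr]; nlinarith
  have hKX' : X ≤ K := by exact_mod_cast hKX
  have hK1 : 1 ≤ K := by
    have : (1 : ℝ) ≤ K := by linarith
    exact_mod_cast this
  have hzK : z ^ 3 ≤ K := by
    have h1 : (z : ℝ) ^ 3 ≤ X := by
      calc (z : ℝ) ^ 3 ≤ (L ^ E) ^ 3 := pow_le_pow_left₀ (Nat.cast_nonneg _) hz2 3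
        _ = L ^ (3 * E) := by rw [← pow_mul, mul_comm]
        _ ≤ (X : ℝ) ^ (1 : ℝ) := hzX
        _ = X := Real.rpow_one _
    have h2 : ((z ^ 3 : ℕ) : ℝ) ≤ (K : ℝ) := by push_cast; linarith
    exact_mod_cast h2
  have hwK : (w : ℝ) ≤ K := by
    have h1 : w ≤ z ^ 3 := hwz.trans (Nat.le_self_pow (by norm_num) z)
    exact_mod_cast h1.trans hzK
  have hvalK : ∀ a ∈ Icc (-(X : ℤ)) X, ∀ n ∈ Ioc 0 (M + H), s * (vv F m₀ n + a) ≤ K := by
    intro a ha n hn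
    rw [mem_Icc] at ha
    have h6 := abs_le.1 (hval n hn)
    have ha1 : (a : ℝ) ≤ X := by exact_mod_cast ha.2
    have ha2 : -(X : ℝ) ≤ a := by exact_mod_cast ha.1
    have h7 : ((s * (vv F m₀ n + a) : ℤ) : ℝ) ≤ K := by
      rw [hKr]
      rcases hs with h | h
      · rw [h]; push_cast; linarith [h6.1, h6.2]
      · rw [h]; push_cast; linarith [h6.1, h6.2]
    exact_mod_cast h7
  obtain ⟨TV, hTVd⟩ : ∃ TV : ℝ, TV = 2 ^ d * (4 * (A * X)) := ⟨_, rfl⟩
  have hTV := tv d F (by omega) m₀ (M + H) (A * X) (by positivity) (fun i h6 h7 => hval i (by rw [mem_Ioc]; omega))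
  rw [← hTVd] at hTV
  have hTV0 : 0 ≤ TV := by rw [hTVd]; positivity
  -- the level
  obtain ⟨b, hb1, hb2, hb3⟩ := gp z hz2
  rw [← hY] at hb3
  -- the number of primes
  obtain ⟨k, hk⟩ : ∃ k, k = Nat.log 2 H := ⟨_, rfl⟩
  have hkm : (k : ℝ) ≤ m ^ 2 := by
    rw [hk, hmd]
    exact log2_le H D L hL1 hH1 hHD (by rw [← hmd]; exact hm_D)
  have hkw : 2 * k ≤ w := by
    have h1 : 2 * (k : ℝ) ≤ w := by
      refine le_trans ?_ hwm
      calc 2 * (k : ℝ) ≤ m * m ^ 2 := mul_le_mul (by linarith only [hm204]) hkm (Nat.cast_nonneg _) hm0.le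
        _ = m ^ 3 := by ring
        _ ≤ m ^ 40 := pow_le_pow_right₀ hm1 (by norm_num)
    exact_mod_cast h1
  obtain ⟨κ, hκ⟩ : ∃ κ : ℝ, κ = 1 / m ^ 8 := ⟨_, rfl⟩
  have hm8 : 1 ≤ m ^ 8 := one_le_pow₀ hm1
  have hκ0 : 0 < κ := by rw [hκ]; positivity
  have hκ1 : 2 * κ ≤ 1 := by
    rw [hκ, mul_one_div, div_le_one (by positivity)]
    have : m ≤ m ^ 8 := le_self_pow₀ hm1 (by norm_num)
    linarith only [this, hm204]
  have hκ2 : 8 * (e : ℝ) ^ 2 ≤ κ * w := by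
    rw [hκ, one_div, inv_mul_eq_div, le_div_iff₀ (by positivity)]
    calc 8 * (e : ℝ) ^ 2 * m ^ 8 ≤ m * m ^ 8 := by
          exact mul_le_mul_of_nonneg_right hm_e2 (by positivity)
      _ = m ^ 9 := by ring
      _ ≤ m ^ 40 := pow_le_pow_right₀ hm1 (by norm_num)
      _ ≤ w := hwm
  have hw4e : 4 * e ≤ w := by
    have : 4 * (e : ℝ) ≤ w := hm_e.trans hmw1
    exact_mod_cast this
  have hFl0 : F.leadingCoeff ≠ 0 := by
    intro h
    rw [Polynomial.leadingCoeff_eq_zero] at h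
    rw [h, Polynomial.natDegree_zero] at hF
    omega
  have hFlA : F.leadingCoeff.natAbs ≤ A := by
    have : ((F.leadingCoeff.natAbs : ℕ) : ℝ) ≤ A := by
      rw [Nat.cast_natAbs, Int.cast_abs]; exact hFl
    exact_mod_cast this
  have hAw : A ≤ w := by
    have h1 : (A : ℝ) ≤ d * A := by
      have h2 : (1 : ℝ) ≤ d := by exact_mod_cast (by omega : 1 ≤ d)
      exact le_mul_of_one_le_left hA0 h2
    have : (A : ℝ) ≤ w := h1.trans (hm_dA.trans hmw1)
    exact_mod_cast this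
  have hdw : d ≤ w := by
    have : (d : ℝ) ≤ w := hm_d.trans hmw1
    exact_mod_cast this
  -- the bound for the off-diagonal terms
  obtain ⟨δ, hδ⟩ : ∃ δ : ℝ, δ = 2 * (1 / 2 : ℝ) ^ b * V * M + Y := ⟨_, rfl⟩
  have hR : ∀ i ∈ Ioc 0 H, ∀ j ∈ Ioc 0 H, i < j →
      |∑ k ∈ Icc (1 : ℤ) K, fz w z k * ∑ t ∈ range M, fz w z (k + s * (vv F m₀ (t + j) - vv F m₀ (t + i)))| ≤
      X * M * (1 / (4 * m ^ 2)) + K * (V * (2 * δ)) + V ^ 2 * (H * TV) := by
    intro i hi j hj hij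
    rw [mem_Ioc] at hi hj
    obtain ⟨hdeg, hlead⟩ := Dp_deg F e (by omega) i j hij.ne
    obtain ⟨G, hG⟩ : ∃ G, G = Dp F i j := ⟨_, rfl⟩
    rw [← hG] at hdeg hlead
    have hGe : ∀ t : ℕ, vv F m₀ (t + j) - vv F m₀ (t + i) = G.eval (m₀ + t) := by
      intro t
      rw [hG, Dp_eval]
      unfold vv
      push_cast
      rw [add_assoc, add_assoc]
    have hTD := diff_le F m₀ M H TV hTV i j (by omega) hij.le hj.2
    have hmz : ∀ c : ℤ, |∑ t ∈ range M, lamz z (G.eval (m₀ + t) + c).natAbs - M * hh G c z| ≤ δ := by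
      intro c
      refine (hmod b hb1 z (hwy.trans hwz) G c m₀ hdeg.le M).trans ?_
      rw [hδ]
      apply add_le_add _ hb3
      have := hh_le G c z
      rw [← hV] at this
      gcongr
    have hmw' : ∀ c : ℤ, |∑ t ∈ range M, lamz w (G.eval (m₀ + t) + c).natAbs - M * hh G c w| ≤ δ := by
      intro c
      refine (hmod b hb1 w hwy G c m₀ hdeg.le M).trans ?_
      rw [hδ]
      apply add_le_add
      · have := (hh_le G c w).trans (Vz_anti hwz)
        rw [← hV] at this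
        gcongr
      · refine le_trans ?_ hb3
        apply pow_le_pow_left₀ (Nat.cast_nonneg _)
        exact_mod_cast hwz
    have hoff := fz_off F G w z hw1 hwz s hs m₀ M K i j hGe (H * TV) δ hTD hmz hmw'
    rw [← hV] at hoff
    refine hoff.trans ?_
    apply add_le_add _ le_rfl
    apply add_le_add _ le_rfl
    have hq0 : (j : ℤ) - i ≠ 0 := by omega
    have hS := hh_sum G K w z hw1 hwz (by omega) ((j : ℤ) - i) hq0 k (by
        rw [hk]
        apply Nat.log_mono_right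
        omega) hkw hK1 hzK (by
        intro p _ hpq x
        rw [hG, Dp_eval]
        have h1 : (x + (j : ℤ)) - (x + (i : ℤ)) ∣ F.eval (x + j) - F.eval (x + i) := Polynomial.sub_dvd_eval_sub _ _ F
        have e1 : (x + (j : ℤ)) - (x + (i : ℤ)) = (j : ℤ) - i := by ring
        rw [e1] at h1
        exact hpq.trans h1) (by
        intro p hp hwp hpq hpl
        rw [hlead] at hpl
        have hpi := Nat.prime_iff_prime_int.1 hp
        rcases hpi.dvd_or_dvd hpl with h | h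
        · rcases hpi.dvd_or_dvd h with h' | h'
          · have h2 : (p : ℤ) ∣ ((e + 1 : ℕ) : ℤ) := by push_cast; exact h'
            have h3 := Nat.le_of_dvd (by omega) (Int.natCast_dvd_natCast.1 h2)
            omega
          · have h2 := Int.natAbs_dvd_natAbs.2 h'
            rw [Int.natAbs_natCast] at h2
            have h3 := Nat.le_of_dvd (Int.natAbs_pos.2 hFl0) h2
            omega
        · exact hpq h) κ hκ0 hκ1 (by rw [hdeg]; exact hκ2) (by rw [hdeg]; exact hw4e)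
    rw [hdeg, ← hV] at hS
    exact ar_main (A1 := A + 1) (e2 := (e : ℝ) ^ 2) hX0.le hM0 hV1 hm204 hKr hAV5 hκ hkm
      hwm hwK (by
        have : 0 ≤ (e : ℝ) ^ 2 := by positivity
        linarith only [this, hm_e2]) hS
  have hRpos : 0 ≤ X * M * (1 / (4 * m ^ 2)) + K * (V * (2 * δ)) + V ^ 2 * (H * TV) := by
    rw [hδ]; positivity
  have hE := e0 (fz w z) V (X * M * (1 / (4 * m ^ 2)) + K * (V * (2 * δ)) + V ^ 2 * (H * TV)) TV s F X M H K m₀
    (fun k hk => Pool.Agent.TH892.OW.fz_neg w z k hk) (fun k => by rw [hV]; exact fz_abs w z hwz k) hs hRpos hvalK hTV hR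
  refine hE.trans ?_
  -- the diagonal
  have hdiag : ∑ k ∈ Icc (1 : ℤ) K, fz w z k ^ 2 ≤ X * √L := by
    calc ∑ k ∈ Icc (1 : ℤ) K, fz w z k ^ 2 ≤ ∑ _k ∈ Icc (1 : ℤ) K, V ^ 2 := by
          refine sum_le_sum fun k _ => ?_
          rw [← sq_abs, hV]
          exact pow_le_pow_left₀ (abs_nonneg _) (fz_abs w z hwz k) 2
      _ = K * V ^ 2 := by
          rw [sum_const, nsmul_eq_mul, Int.card_Icc]
          congr 2
          omega
      _ = X * ((A + 1) * V ^ 2) := by rw [hKr]; ring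
      _ ≤ X * √L := mul_le_mul_of_nonneg_left hAVs hX0.le
  have t1 : (H : ℝ) * M * (∑ k ∈ Icc (1 : ℤ) K, fz w z k ^ 2) ≤ X * M * (H * √L) := by
    calc (H : ℝ) * M * (∑ k ∈ Icc (1 : ℤ) K, fz w z k ^ 2) ≤ H * M * (X * √L) := by gcongr
      _ = _ := by ring
  have hsL : √L ≤ L := by
    rw [Real.sqrt_le_left hL0.le]; nlinarith
  have hAV1 : (A + 1) * V ≤ √L := by
    refine le_trans ?_ hAVs
    apply mul_le_mul_of_nonneg_left _ (by positivity)
    exact le_self_pow₀ hV1 (by norm_num)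
  -- the second part
  have t2 : K * (V * (2 * δ)) ≤ X * M * (2 * (1 / (4 * m ^ 2))) := by
    have hb4 : K * (V * (2 * (2 * (1 / 2 : ℝ) ^ b * V * M))) ≤ X * M * (1 / (4 * m ^ 2)) := by
      calc K * (V * (2 * (2 * (1 / 2 : ℝ) ^ b * V * M))) = X * M * (4 * ((A + 1) * V ^ 2) * (1 / 2 : ℝ) ^ b) := by
            rw [hKr]; ring
        _ ≤ X * M * (4 * √L * (1 / L ^ 2)) := by
            apply mul_le_mul_of_nonneg_left _ (by positivity)
            gcongr
        _ ≤ X * M * (1 / (4 * m ^ 2)) := by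
            apply mul_le_mul_of_nonneg_left _ (by positivity)
            rw [mul_one_div, div_le_div_iff₀ (by positivity) (by positivity)]
            have h1 : L ^ 2 = √L * √L * (√L * √L) := by rw [hss]; ring
            have h2 : m ^ 2 ≤ √L := hm2s
            have h3 : 16 ≤ √L := by
              have : m ≤ m ^ 2 := le_self_pow₀ hm1 (by norm_num)
              linarith
            calc 4 * √L * (4 * m ^ 2) ≤ 4 * √L * (4 * √L) := by gcongr
              _ = 16 * (√L * √L) := by ring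
              _ ≤ √L * (√L * √L) := mul_le_mul_of_nonneg_right h3 (by positivity)
              _ ≤ 1 * L ^ 2 := by
                  rw [one_mul, h1]
                  have h4 : 1 ≤ √L := by linarith
                  have h5 : 0 ≤ √L * (√L * √L) := by positivity
                  nlinarith
    have hb5 : K * (V * (2 * Y)) ≤ X * M * (1 / (4 * m ^ 2)) := by
      have h1 : 8 * m ^ 2 * √L ≤ Y := by
        calc 8 * m ^ 2 * √L ≤ 8 * √L * √L := by gcongr
          _ = 8 * L := by rw [mul_assoc, hss]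
          _ ≤ (32 * 2 ^ d * A + 8) * L ^ (D + 3) := by
              apply mul_le_mul
              · have : 0 ≤ 32 * (2 : ℝ) ^ d * A := by positivity
                linarith
              · exact le_self_pow₀ hL1 (by omega)
              · exact hL0.le
              · positivity
          _ ≤ Y := gr
      calc K * (V * (2 * Y)) = X * (2 * ((A + 1) * V) * Y) := by rw [hKr]; ring
        _ ≤ X * (2 * √L * Y) := by gcongr
        _ ≤ X * (Y * (1 / (4 * m ^ 2)) * Y) := by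
            apply mul_le_mul_of_nonneg_left _ hX0.le
            apply mul_le_mul_of_nonneg_right _ (by linarith)
            rw [mul_one_div, le_div_iff₀ (by positivity)]
            linarith
        _ = X * (Y * Y) * (1 / (4 * m ^ 2)) := by ring
        _ ≤ X * M * (1 / (4 * m ^ 2)) := by gcongr
    rw [hδ]
    linarith
  have t3 : V ^ 2 * (H * TV) ≤ X * M * (1 / (8 * m ^ 2)) := by
    have hV2L : V ^ 2 ≤ √L := by
      refine le_trans ?_ hAVs
      have : 0 ≤ V ^ 2 := by positivity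
      nlinarith
    rw [mul_one_div, le_div_iff₀ (by positivity)]
    calc V ^ 2 * (H * TV) * (8 * m ^ 2) ≤ √L * (L ^ D * TV) * (8 * √L) := by gcongr
      _ = X * (32 * 2 ^ d * A * (L ^ D * (√L * √L))) := by rw [hTVd]; ring
      _ = X * (32 * 2 ^ d * A * L ^ (D + 1)) := by rw [hss, pow_succ]
      _ ≤ X * ((32 * 2 ^ d * A + 8) * L ^ (D + 3)) := by
          apply mul_le_mul_of_nonneg_left _ hX0.le
          apply mul_le_mul _ (hLmono (by omega)) (hLp _).le (by positivity)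
          linarith
      _ ≤ X * Y := mul_le_mul_of_nonneg_left gr hX0.le
      _ ≤ X * M := mul_le_mul_of_nonneg_left hYM hX0.le
  have t4 : (H : ℝ) ^ 2 * (X * M * (1 / (4 * m ^ 2)) + K * (V * (2 * δ)) + V ^ 2 * (H * TV) + V ^ 2 * (H * TV)) ≤
      X * M * ((H : ℝ) ^ 2 / m ^ 2) := by
    calc (H : ℝ) ^ 2 * (X * M * (1 / (4 * m ^ 2)) + K * (V * (2 * δ)) + V ^ 2 * (H * TV) + V ^ 2 * (H * TV)) ≤
          (H : ℝ) ^ 2 * (X * M * (1 / (4 * m ^ 2)) + X * M * (2 * (1 / (4 * m ^ 2))) + X * M * (1 / (8 * m ^ 2)) +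
            X * M * (1 / (8 * m ^ 2))) := by gcongr
      _ = _ := by
          field_simp
          ring
  have t5 : X * M * (H * √L + (H : ℝ) ^ 2 / m ^ 2) = X * M * (H * √L) + X * M * ((H : ℝ) ^ 2 / m ^ 2) := by ring
  rw [t5]
  linarith

end Run7.h373.QE
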