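import Pool.Agent.Run7.h373.QE.Var
import Pool.Agent.Run7.h373.QD.Siv
import Pool.Agent.Run7.h285.E2a

/-!
# Project QE: the local products of the difference polynomials
-/

set_option autoImplicit false
set_option maxHeartbeats 1000000

namespace Run7.h373.QE

open Finset
open Polynomial (taylor natDegree leadingCoeff)
open scoped Polynomial
open Pool.Agent.H373R2.T7 (pz Vz lamz mem_pz Vz_ge)
open Pool.Agent.TH204.WR (rho xp hh hh_nonneg hh_mul prod_nonneg' prod_le_one')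
open Pool.Agent.TH892.OW (Vz_anti one_le_Vz_inv card_pf fz lz fz_abs)
open Run7.h373.QD (vv model)

/-- products of numbers close to one -/
lemma prod_close (P : Finset ℕ) (x : ℕ → ℝ) (κ : ℝ) (hx : ∀ p ∈ P, |x p| ≤ 1 / 2) (hκ1 : 2 * κ ≤ 1)
    (h2 : 2 * ∑ p ∈ P, x p ^ 2 ≤ κ) (h1 : |∑ p ∈ P, x p| ≤ κ) : |∏ p ∈ P, (1 - x p) - 1| ≤ 4 * κ := by
  have hpos : ∀ p ∈ P, 0 < 1 - x p := by
    intro p hp
    have := (abs_le.1 (hx p hp)).2
    linarith
  have hprod : ∏ p ∈ P, (1 - x p) = Real.exp (∑ p ∈ P, Real.log (1 - x p)) := by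
    rw [Real.exp_sum]
    apply prod_congr rfl
    intro p hp
    rw [Real.exp_log (hpos p hp)]
  have hlog : |∑ p ∈ P, Real.log (1 - x p)| ≤ 2 * κ := by
    have h3 : ∀ p ∈ P, |x p + Real.log (1 - x p)| ≤ 2 * x p ^ 2 := by
      intro p hp
      have h2 := hx p hp
      have h4 := Real.abs_log_sub_add_sum_range_le (x := x p) (by linarith) 1
      simp only [sum_range_one, zero_add, pow_one, Nat.cast_zero, div_one] at h4
      refine h4.trans ?_
      have h5 : |x p| ^ (1 + 1) = (x p) ^ 2 := by norm_num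
      rw [h5, div_le_iff₀ (by linarith)]
      have h6 : 0 ≤ x p ^ 2 := sq_nonneg _
      nlinarith
    have h4 : ∑ p ∈ P, Real.log (1 - x p) = ∑ p ∈ P, (x p + Real.log (1 - x p)) - ∑ p ∈ P, x p := by
      rw [sum_add_distrib]; ring
    rw [h4]
    refine (abs_sub _ _).trans ?_
    have h5 : |∑ p ∈ P, (x p + Real.log (1 - x p))| ≤ 2 * ∑ p ∈ P, x p ^ 2 := by
      refine (abs_sum_le_sum_abs _ _).trans ((sum_le_sum h3).trans ?_)
      rw [← mul_sum]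
    linarith
  have h3 := Real.abs_exp_sub_one_le (x := ∑ p ∈ P, Real.log (1 - x p)) (by linarith)
  rw [hprod]
  linarith

/-- a tail of the sum of `1 / p²` -/
lemma sum_sq_tail (P : Finset ℕ) (y z : ℕ) (hy : 1 ≤ y) (hP : P ⊆ Ioc y z) : ∑ p ∈ P, 1 / (p : ℝ) ^ 2 ≤ 1 / (y : ℝ) := by
  rcases Nat.lt_or_ge z y with hyz | hyz
  · have : P = ∅ := by
      apply eq_empty_of_forall_notMem
      intro p hp
      have := mem_Ioc.1 (hP hp)
      omega
    rw [this, sum_empty]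
    positivity
  have h5 : ∑ p ∈ P, 1 / (p : ℝ) ^ 2 ≤ ∑ n ∈ Ioc y z, (1 / ((n : ℝ) - 1) - 1 / n) := by
    calc ∑ p ∈ P, 1 / (p : ℝ) ^ 2 ≤ ∑ n ∈ Ioc y z, 1 / (n : ℝ) ^ 2 :=
          sum_le_sum_of_subset_of_nonneg hP (fun _ _ _ => by positivity)
      _ ≤ _ := by
          refine sum_le_sum fun n hn => ?_
          rw [mem_Ioc] at hn
          have h6 : (2 : ℝ) ≤ n := by exact_mod_cast (by omega : 2 ≤ n)
          have h7 : (n : ℝ) - 1 ≠ 0 := by linarith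
          have h8 : (n : ℝ) ≠ 0 := by linarith
          rw [div_sub_div _ _ h7 h8, div_le_div_iff₀ (by positivity) (by apply mul_pos <;> linarith)]
          nlinarith
  refine h5.trans ?_
  have h6 : ∀ z : ℕ, y ≤ z → ∑ n ∈ Ioc y z, (1 / ((n : ℝ) - 1) - 1 / n) = 1 / (y : ℝ) - 1 / z := by
    intro z hz
    induction z, hz using Nat.le_induction with
    | base => simp
    | succ z hz ih =>
      rw [sum_Ioc_succ_top hz, ih]
      push_cast
      ring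
  rw [h6 z hyz]
  have : 0 ≤ 1 / (z : ℝ) := by positivity
  linarith

/-- the primes dividing all the values of the polynomial -/
lemma rho_zero (G : ℤ[X]) (c : ℤ) (p : ℕ) (hG : ∀ x : ℤ, (p : ℤ) ∣ G.eval x) (hc : ¬ (p : ℤ) ∣ c) : rho G c p = 0 := by
  unfold rho
  rw [card_eq_zero, filter_eq_empty_iff]
  intro a _ h
  apply hc
  have := dvd_sub h (hG a)
  rwa [add_sub_cancel_left] at this

lemma hh_le (G : ℤ[X]) (c : ℤ) (z : ℕ) : hh G c z ≤ (Vz z)⁻¹ := by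
  unfold hh
  have h1 := prod_le_one' G c z
  have h2 := Pool.Agent.H373R2.T7.Vz_pos z
  calc (Vz z)⁻¹ * ∏ p ∈ pz z, (1 - (rho G c p : ℝ) / p) ≤ (Vz z)⁻¹ * 1 :=
        mul_le_mul_of_nonneg_left h1 (inv_nonneg.2 h2.le)
    _ = _ := mul_one _

/-- one constant term -/
lemma hh_pair (G : ℤ[X]) (c : ℤ) (w z : ℕ) (hw : 1 ≤ w) (hwz : w ≤ z) (hd : 1 ≤ G.natDegree) (P1 P2 : Finset ℕ)
    (hP : (Ioc w z).filter Nat.Prime = P1 ∪ P2) (hdis : Disjoint P1 P2) (k : ℕ) (hk : #P1 ≤ k) (hkw : 2 * k ≤ w)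
    (hP1 : ∀ p ∈ P1, ∀ x : ℤ, (p : ℤ) ∣ G.eval x) (hP1c : ∀ p ∈ P1, ¬ (p : ℤ) ∣ c)
    (hP2 : ∀ p ∈ P2, ¬ (p : ℤ) ∣ G.leadingCoeff) (κ : ℝ) (hκ1 : 2 * κ ≤ 1)
    (hκ2 : 8 * (G.natDegree : ℝ) ^ 2 ≤ κ * w) (hw4 : 4 * G.natDegree ≤ w) (hS : |∑ p ∈ P2, xp G c p| ≤ κ) :
    |hh G c z - hh G c w| ≤ (Vz w)⁻¹ * (8 * κ + 2 * k / w) := by
  have hwr : (1 : ℝ) ≤ w := by exact_mod_cast hw
  have hw0 : (0 : ℝ) < w := by linarith
  have hκ0 : 0 ≤ κ := (abs_nonneg _).trans hS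
  have hmem : ∀ p ∈ P1 ∪ P2, p.Prime ∧ w < p ∧ p ≤ z := by
    intro p hp
    rw [← hP, mem_filter, mem_Ioc] at hp
    exact ⟨hp.2, hp.1⟩
  -- the first product
  have hA1 : ∀ p ∈ P1, 1 - xp G c p = 1 + 1 / ((p : ℝ) - 1) := by
    intro p hp
    unfold xp
    rw [rho_zero G c p (hP1 p hp) (hP1c p hp)]
    push_cast
    ring
  obtain ⟨A, hA⟩ : ∃ A : ℝ, A = ∏ p ∈ P1, (1 - xp G c p) := ⟨_, rfl⟩
  have hA2 : 1 ≤ A ∧ A ≤ 1 + 2 * k / w := by
    rw [hA, prod_congr rfl hA1]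
    have h1 : ∀ p ∈ P1, (0 : ℝ) ≤ 1 / ((p : ℝ) - 1) ∧ 1 / ((p : ℝ) - 1) ≤ 1 / w := by
      intro p hp
      have h2 := (hmem p (mem_union_left _ hp)).2.1
      have h3 : (w : ℝ) + 1 ≤ p := by exact_mod_cast h2
      constructor
      · apply div_nonneg zero_le_one; linarith
      · apply one_div_le_one_div_of_le hw0; linarith
    constructor
    · calc (1 : ℝ) = ∏ p ∈ P1, (1 : ℝ) := by rw [prod_const_one]
        _ ≤ _ := prod_le_prod (fun _ _ => zero_le_one) fun p hp => by linarith [(h1 p hp).1]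
    · calc ∏ p ∈ P1, (1 + 1 / ((p : ℝ) - 1)) ≤ ∏ p ∈ P1, Real.exp (1 / w) := by
            apply prod_le_prod
            · intro p hp; linarith [(h1 p hp).1]
            · intro p hp
              have := Real.add_one_le_exp (1 / (w : ℝ))
              linarith [(h1 p hp).2]
        _ = Real.exp (#P1 * (1 / w)) := by rw [prod_const, ← Real.exp_nat_mul]
        _ ≤ Real.exp (k * (1 / w)) := by
            apply Real.exp_le_exp.2
            apply mul_le_mul_of_nonneg_right _ (by positivity)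
            exact_mod_cast hk
        _ ≤ 1 + 2 * k / w := by
            have h2 : (k : ℝ) * (1 / w) ≤ 1 / 2 := by
              rw [mul_one_div, div_le_div_iff₀ hw0 (by norm_num)]
              have : (2 : ℝ) * k ≤ w := by exact_mod_cast hkw
              linarith
            have h3 : 0 ≤ (k : ℝ) * (1 / w) := by positivity
            have h4 := Real.abs_exp_sub_one_le (x := (k : ℝ) * (1 / w)) (by rw [abs_of_nonneg h3]; linarith)
            rw [abs_of_nonneg h3] at h4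
            have h5 := (abs_le.1 h4).2
            have h6 : 2 * ((k : ℝ) * (1 / w)) = 2 * k / w := by ring
            linarith
  -- the second product
  obtain ⟨B, hB⟩ : ∃ B : ℝ, B = ∏ p ∈ P2, (1 - xp G c p) := ⟨_, rfl⟩
  have hxp : ∀ p ∈ P2, |xp G c p| ≤ 1 / 2 ∧ xp G c p ^ 2 ≤ 4 * (G.natDegree : ℝ) ^ 2 * (1 / (p : ℝ) ^ 2) := by
    intro p hp
    have hpp := hmem p (mem_union_right _ hp)
    have h1 := xp_le' G c p hpp.1 hd (hP2 p hp)
    have hp0 : (0 : ℝ) < p := by exact_mod_cast hpp.1.pos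
    constructor
    · refine h1.trans ?_
      rw [div_le_div_iff₀ hp0 (by norm_num)]
      have : ((4 * G.natDegree : ℕ) : ℝ) ≤ p := by exact_mod_cast (by omega : 4 * G.natDegree ≤ p)
      push_cast at this
      linarith
    · rw [← sq_abs]
      refine (pow_le_pow_left₀ (abs_nonneg _) h1 2).trans (le_of_eq ?_)
      ring
  have hB2 : |B - 1| ≤ 4 * κ := by
    rw [hB]
    apply prod_close P2 _ κ (fun p hp => (hxp p hp).1) hκ1 _ hS
    have h1 : ∑ p ∈ P2, xp G c p ^ 2 ≤ 4 * (G.natDegree : ℝ) ^ 2 * (1 / w) := by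
      refine (sum_le_sum fun p hp => (hxp p hp).2).trans ?_
      rw [← mul_sum]
      apply mul_le_mul_of_nonneg_left _ (by positivity)
      apply sum_sq_tail P2 w z hw
      intro p hp
      have := hmem p (mem_union_right _ hp)
      rw [mem_Ioc]
      exact this.2
    have h2 : 8 * (G.natDegree : ℝ) ^ 2 * (1 / w) ≤ κ := by
      rw [mul_one_div, div_le_iff₀ hw0]
      exact hκ2
    linarith
  have hhw := hh_nonneg G c w hw
  have e1 : hh G c z - hh G c w = hh G c w * (A * B - 1) := by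
    rw [hh_mul G c w z hwz, hP, prod_union hdis, ← hA, ← hB]
    ring
  rw [e1, abs_mul, abs_of_nonneg hhw]
  have hkw' : 2 * (k : ℝ) / w ≤ 1 := by
    rw [div_le_one hw0]
    exact_mod_cast hkw
  have h3 : |A * B - 1| ≤ 8 * κ + 2 * k / w := by
    have e2 : A * B - 1 = A * (B - 1) + (A - 1) := by ring
    rw [e2]
    refine (abs_add_le _ _).trans ?_
    rw [abs_mul, abs_of_nonneg (by linarith [hA2.1] : 0 ≤ A), abs_of_nonneg (by linarith [hA2.1] : 0 ≤ A - 1)]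
    have h4 : A * |B - 1| ≤ 2 * (4 * κ) := by
      apply mul_le_mul _ hB2 (abs_nonneg _) (by norm_num)
      linarith [hA2.2]
    linarith [hA2.2]
  exact mul_le_mul (hh_le G c w) h3 (abs_nonneg _) (inv_nonneg.2 (Pool.Agent.H373R2.T7.Vz_pos w).le)

open Classical in
/-- the sum over the constant terms -/
theorem hh_sum (G : ℤ[X]) (K w z : ℕ) (hw : 1 ≤ w) (hwz : w ≤ z) (hd : 1 ≤ G.natDegree) (q : ℤ) (hq0 : q ≠ 0) (k : ℕ)
    (hk : Nat.log 2 q.natAbs ≤ k) (hkw : 2 * k ≤ w) (hK : 1 ≤ K) (hzK : z ^ 3 ≤ K)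
    (hP1 : ∀ p : ℕ, p.Prime → (p : ℤ) ∣ q → ∀ x : ℤ, (p : ℤ) ∣ G.eval x)
    (hP2 : ∀ p : ℕ, p.Prime → w < p → ¬ (p : ℤ) ∣ q → ¬ (p : ℤ) ∣ G.leadingCoeff) (κ : ℝ) (hκ0 : 0 < κ) (hκ1 : 2 * κ ≤ 1)
    (hκ2 : 8 * (G.natDegree : ℝ) ^ 2 ≤ κ * w) (hw4 : 4 * G.natDegree ≤ w) :
    ∑ c ∈ Icc (-(K : ℤ)) K, |hh G c z - hh G c w| ≤
      K * ((Vz z)⁻¹ * (24 * κ + 10 * k / w + k / K + 16 * (G.natDegree : ℝ) ^ 2 / (w * κ ^ 2))) := by
  have hwr : (1 : ℝ) ≤ w := by exact_mod_cast hw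
  have hw0 : (0 : ℝ) < w := by linarith
  have hKr : (1 : ℝ) ≤ K := by exact_mod_cast hK
  have hK0 : (0 : ℝ) < K := by linarith
  have hVz := one_le_Vz_inv z
  have hVw := Vz_anti hwz
  have hV0 : 0 < (Vz z)⁻¹ := by linarith
  have hz1 : 1 ≤ z := by omega
  obtain ⟨P1, hP1d⟩ : ∃ P1 : Finset ℕ, P1 = (pz z).filter (fun p : ℕ => w < p ∧ (p : ℤ) ∣ q) := ⟨_, rfl⟩
  obtain ⟨P2, hP2d⟩ : ∃ P2 : Finset ℕ, P2 = ((Ioc w z).filter Nat.Prime).filter (fun p : ℕ => ¬ (p : ℤ) ∣ q) := ⟨_, rfl⟩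
  have hPu : (Ioc w z).filter Nat.Prime = P1 ∪ P2 := by
    ext p
    rw [mem_union, hP1d, hP2d, mem_filter, mem_filter, mem_filter, mem_filter, mem_Ioc, mem_pz]
    constructor
    · rintro ⟨⟨h1, h2⟩, h3⟩
      by_cases h4 : (p : ℤ) ∣ q
      · left; exact ⟨⟨h2, h3⟩, h1, h4⟩
      · right; exact ⟨⟨⟨h1, h2⟩, h3⟩, h4⟩
    · rintro (⟨⟨h1, h2⟩, h3, h4⟩ | ⟨⟨⟨h1, h2⟩, h3⟩, h4⟩)
      · exact ⟨⟨h3, h1⟩, h2⟩
      · exact ⟨⟨h1, h2⟩, h3⟩
  have hdis : Disjoint P1 P2 := by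
    rw [disjoint_left]
    intro p h1 h2
    rw [hP1d, mem_filter] at h1
    rw [hP2d, mem_filter] at h2
    exact h2.2 h1.2.2
  have hcard : #P1 ≤ k := by
    rw [hP1d]; exact card_pf z w q hq0 k hk
  have h1mem : ∀ p ∈ P1, p.Prime ∧ w < p ∧ (p : ℤ) ∣ q := by
    intro p hp
    rw [hP1d, mem_filter, mem_pz] at hp
    exact ⟨hp.1.2, hp.2⟩
  have h2mem : ∀ p ∈ P2, p.Prime ∧ w < p ∧ p ≤ z ∧ ¬ (p : ℤ) ∣ G.leadingCoeff := by
    intro p hp
    rw [hP2d, mem_filter, mem_filter, mem_Ioc] at hp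
    exact ⟨hp.1.2, hp.1.1.1, hp.1.1.2, hP2 p hp.1.2 hp.1.1.1 hp.2⟩
  -- the two exceptional sets
  obtain ⟨B1, hB1⟩ : ∃ B1 : Finset ℤ, B1 = P1.biUnion (fun p => (Icc (-(K : ℤ)) K).filter (fun c : ℤ => (p : ℤ) ∣ c)) := ⟨_, rfl⟩
  obtain ⟨B2, hB2⟩ : ∃ B2 : Finset ℤ, B2 = (Icc (-(K : ℤ)) K).filter (fun c : ℤ => κ < |∑ p ∈ P2, xp G c p|) := ⟨_, rfl⟩
  have hcK : (#(Icc (-(K : ℤ)) K) : ℝ) ≤ 3 * K := by
    rw [Int.card_Icc]
    have : ((K : ℤ) + 1 - -(K : ℤ)).toNat = 2 * K + 1 := by omega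
    rw [this]
    push_cast
    linarith
  have hB1c : (#B1 : ℝ) ≤ k * (3 * K / w + 1) := by
    have h1 : (#B1 : ℝ) ≤ ∑ p ∈ P1, (#((Icc (-(K : ℤ)) K).filter (fun c : ℤ => (p : ℤ) ∣ c)) : ℝ) := by
      rw [hB1]
      exact_mod_cast card_biUnion_le
    refine h1.trans ?_
    have h2 : ∀ p ∈ P1, (#((Icc (-(K : ℤ)) K).filter (fun c : ℤ => (p : ℤ) ∣ c)) : ℝ) ≤ 3 * K / w + 1 := by
      intro p hp
      obtain ⟨hpp, hwp, -⟩ := h1mem p hp
      refine (Run7.h285.E2.cnt p hpp.one_le (-(K : ℤ)) K).trans ?_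
      have hpw : (w : ℝ) ≤ p := by exact_mod_cast hwp.le
      have : (#(Icc (-(K : ℤ)) K) : ℝ) / p ≤ 3 * K / w :=
        div_le_div₀ (by positivity) hcK hw0 hpw
      linarith
    refine (sum_le_sum h2).trans ?_
    rw [sum_const, nsmul_eq_mul]
    apply mul_le_mul_of_nonneg_right _ (by positivity)
    exact_mod_cast hcard
  have hB2c : (#B2 : ℝ) ≤ 16 * (G.natDegree : ℝ) ^ 2 * (K / w) / κ ^ 2 := by
    have h1 := tail_set G K w z P2 hd h2mem hw hK hzK hwz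
    rw [le_div_iff₀ (by positivity)]
    refine le_trans ?_ h1
    calc (#B2 : ℝ) * κ ^ 2 = ∑ c ∈ B2, κ ^ 2 := by rw [sum_const, nsmul_eq_mul]
      _ ≤ ∑ c ∈ B2, (∑ p ∈ P2, xp G c p) ^ 2 := by
          refine sum_le_sum fun c hc => ?_
          rw [hB2, mem_filter] at hc
          rw [← sq_abs (∑ p ∈ P2, xp G c p)]
          exact pow_le_pow_left₀ hκ0.le hc.2.le 2
      _ ≤ _ := by
          rw [hB2]
          exact sum_le_sum_of_subset_of_nonneg (filter_subset _ _) fun _ _ _ => sq_nonneg _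
  -- the sum
  have hterm : ∀ c ∈ Icc (-(K : ℤ)) K, |hh G c z - hh G c w| ≤ (Vz z)⁻¹ * (8 * κ + 2 * k / w) +
      (if c ∈ B1 then (Vz z)⁻¹ else 0) + (if c ∈ B2 then (Vz z)⁻¹ else 0) := by
    intro c hc
    have htriv : |hh G c z - hh G c w| ≤ (Vz z)⁻¹ := by
      have a1 := hh_nonneg G c z hz1
      have a2 := hh_nonneg G c w hw
      have a3 := hh_le G c z
      have a4 := (hh_le G c w).trans hVw
      rw [abs_le]; constructor <;> linarith
    have hpos : 0 ≤ (Vz z)⁻¹ * (8 * κ + 2 * k / w) := by positivity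
    by_cases hc1 : c ∈ B1
    · rw [if_pos hc1]
      split_ifs <;> linarith
    by_cases hc2 : c ∈ B2
    · rw [if_pos hc2, if_neg hc1]
      linarith
    rw [if_neg hc1, if_neg hc2, add_zero, add_zero]
    refine (hh_pair G c w z hw hwz hd P1 P2 hPu hdis k hcard hkw (fun p hp x => hP1 p (h1mem p hp).1 (h1mem p hp).2.2 x)
      (fun p hp hpc => ?_) (fun p hp => (h2mem p hp).2.2.2) κ hκ1 hκ2 hw4 ?_).trans ?_
    · apply hc1
      rw [hB1, mem_biUnion]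
      exact ⟨p, hp, mem_filter.2 ⟨hc, hpc⟩⟩
    · by_contra hcon
      apply hc2
      rw [hB2, mem_filter]
      exact ⟨hc, not_le.1 hcon⟩
    · apply mul_le_mul_of_nonneg_right hVw (by positivity)
  refine (sum_le_sum hterm).trans ?_
  rw [sum_add_distrib, sum_add_distrib, sum_const, nsmul_eq_mul, ← sum_filter, ← sum_filter, sum_const, sum_const,
    nsmul_eq_mul, nsmul_eq_mul]
  have c1 : (#((Icc (-(K : ℤ)) K).filter (fun c => c ∈ B1)) : ℝ) ≤ #B1 := by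
    exact_mod_cast card_le_card (fun c hc => (mem_filter.1 hc).2)
  have c2 : (#((Icc (-(K : ℤ)) K).filter (fun c => c ∈ B2)) : ℝ) ≤ #B2 := by
    exact_mod_cast card_le_card (fun c hc => (mem_filter.1 hc).2)
  have hpos : 0 ≤ (Vz z)⁻¹ * (8 * κ + 2 * k / w) := by positivity
  calc (#(Icc (-(K : ℤ)) K) : ℝ) * ((Vz z)⁻¹ * (8 * κ + 2 * k / w)) +
        (#((Icc (-(K : ℤ)) K).filter (fun c => c ∈ B1)) : ℝ) * (Vz z)⁻¹ +
        (#((Icc (-(K : ℤ)) K).filter (fun c => c ∈ B2)) : ℝ) * (Vz z)⁻¹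
      ≤ (3 * K) * ((Vz z)⁻¹ * (8 * κ + 2 * k / w)) + (k * (3 * K / w + 1)) * (Vz z)⁻¹ +
        (16 * (G.natDegree : ℝ) ^ 2 * (K / w) / κ ^ 2) * (Vz z)⁻¹ := by
        apply add_le_add (add_le_add _ _)
        · exact mul_le_mul_of_nonneg_right (c2.trans hB2c) hV0.le
        · exact mul_le_mul_of_nonneg_right hcK hpos
        · exact mul_le_mul_of_nonneg_right (c1.trans hB1c) hV0.le
    _ = K * ((Vz z)⁻¹ * (24 * κ + 9 * k / w + k / K + 16 * (G.natDegree : ℝ) ^ 2 / (w * κ ^ 2))) := by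
        field_simp
        ring
    _ ≤ _ := by
        apply mul_le_mul_of_nonneg_left _ hK0.le
        apply mul_le_mul_of_nonneg_left _ hV0.le
        have : 9 * (k : ℝ) / w ≤ 10 * k / w := by
          apply div_le_div_of_nonneg_right _ hw0.le
          have : (0 : ℝ) ≤ k := Nat.cast_nonneg _
          linarith
        linarith

end Run7.h373.QE
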