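import Pool.Agent.Run7.h285.E3b
import Pool.Agent.Run7.h373.QE.Tv
import Pool.Agent.Run7.h373.QE.E2b

/-!
# Project QE: long windows, Chebyshev, small values, one pair
-/

set_option autoImplicit false
set_option maxHeartbeats 1000000

namespace Run7.h373.QE

open Finset Filter
open scoped Polynomial
open Pool.Agent.H373R2.T7 (pz Vz lamz mem_pz Vz_ge Vz_inv_le Vz_le_one Vz_inv_small)
open Pool.Agent.TH892.SW (ff ffn wt wt_nonneg wt_le)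
open Pool.Agent.TH892.OW (fz lz evt_ll)
open Run7.h285.E3 (wt_le' ff_two fz_two near_a)
open Run7.h373.QD (vv)

/-! ### long windows -/

lemma vv_shift (F : ℤ[X]) (m₀ : ℤ) (c t i : ℕ) : vv F m₀ (t + (c + i)) = vv F (m₀ + c) (t + i) := by
  unfold vv
  congr 1
  push_cast
  ring

lemma V2_shift (g : ℤ → ℝ) (s : ℤ) (F : ℤ[X]) (X : ℕ) (m₀ : ℤ) (M c H : ℕ) :
    ∑ a ∈ Icc (-(X : ℤ)) X, ∑ t ∈ range M, (∑ i ∈ Ioc c (c + H), g (s * (vv F m₀ (t + i) + a))) ^ 2 =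
      V2 g s F X (m₀ + c) M H := by
  unfold V2
  refine sum_congr rfl fun a _ => sum_congr rfl fun t _ => ?_
  congr 1
  refine sum_nbij' (fun i => i - c) (fun i => c + i) ?_ ?_ ?_ ?_ ?_
  · intro i hi; rw [mem_Ioc] at hi ⊢; omega
  · intro i hi; rw [mem_Ioc] at hi ⊢; omega
  · intro i hi; rw [mem_Ioc] at hi; omega
  · intro i _; omega
  · intro i hi
    rw [mem_Ioc] at hi
    rw [← vv_shift, show c + (i - c) = i by omega]

lemma win_split (f : ℕ → ℝ) (H₁ J r : ℕ) :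
    ∑ n ∈ Ioc 0 (J * H₁ + r), f n = ∑ j ∈ range J, ∑ n ∈ Ioc (j * H₁) (j * H₁ + H₁), f n +
      ∑ n ∈ Ioc (J * H₁) (J * H₁ + r), f n := by
  have h1 : ∀ J : ℕ, ∑ n ∈ Ioc 0 (J * H₁), f n = ∑ j ∈ range J, ∑ n ∈ Ioc (j * H₁) (j * H₁ + H₁), f n := by
    intro J
    induction J with
    | zero => simp
    | succ J ih =>
      rw [sum_range_succ, ← ih, sum_Ioc_consecutive _ (Nat.zero_le _) (Nat.le_add_right _ _)]
      congr 2; ring
  rw [← h1, sum_Ioc_consecutive _ (Nat.zero_le _) (Nat.le_add_right _ _)]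

lemma V2_cs (g : ℤ → ℝ) (s : ℤ) (F : ℤ[X]) (X : ℕ) (m₀ : ℤ) (M H₁ J r : ℕ) :
    V2 g s F X m₀ M (J * H₁ + r) ≤
      ((J : ℝ) + 1) * (∑ j ∈ range J, V2 g s F X (m₀ + ((j * H₁ : ℕ) : ℤ)) M H₁ + V2 g s F X (m₀ + ((J * H₁ : ℕ) : ℤ)) M r) := by
  have key : ∀ (a : ℤ) (t : ℕ), (∑ n ∈ Ioc 0 (J * H₁ + r), g (s * (vv F m₀ (t + n) + a))) ^ 2 ≤
      ((J : ℝ) + 1) * (∑ j ∈ range J, (∑ n ∈ Ioc (j * H₁) (j * H₁ + H₁), g (s * (vv F m₀ (t + n) + a))) ^ 2 +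
        (∑ n ∈ Ioc (J * H₁) (J * H₁ + r), g (s * (vv F m₀ (t + n) + a))) ^ 2) := by
    intro a t
    rw [win_split]
    have h1 := sq_sum_le_card_mul_sum_sq (s := range (J + 1))
      (f := fun j => if j < J then ∑ n ∈ Ioc (j * H₁) (j * H₁ + H₁), g (s * (vv F m₀ (t + n) + a)) else
        ∑ n ∈ Ioc (J * H₁) (J * H₁ + r), g (s * (vv F m₀ (t + n) + a)))
    rw [sum_range_succ, sum_range_succ, card_range] at h1
    have h2 : ∀ P : ℝ → ℝ, ∑ j ∈ range J, P (if j < J then ∑ n ∈ Ioc (j * H₁) (j * H₁ + H₁), g (s * (vv F m₀ (t + n) + a)) else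
        ∑ n ∈ Ioc (J * H₁) (J * H₁ + r), g (s * (vv F m₀ (t + n) + a))) =
        ∑ j ∈ range J, P (∑ n ∈ Ioc (j * H₁) (j * H₁ + H₁), g (s * (vv F m₀ (t + n) + a))) := by
      intro P
      refine sum_congr rfl fun j hj => ?_
      rw [if_pos (mem_range.1 hj)]
    have h3 := h2 (fun x => x)
    have h4 := h2 (fun x => x ^ 2)
    rw [h3, h4] at h1
    simp only [lt_irrefl, if_false] at h1
    push_cast at h1
    exact h1
  have e1 : V2 g s F X m₀ M (J * H₁ + r) = ∑ a ∈ Icc (-(X : ℤ)) X, ∑ t ∈ range M,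
      (∑ n ∈ Ioc 0 (J * H₁ + r), g (s * (vv F m₀ (t + n) + a))) ^ 2 := rfl
  rw [e1]
  refine (sum_le_sum fun a _ => sum_le_sum fun m _ => key a m).trans (le_of_eq ?_)
  simp_rw [← mul_sum, sum_add_distrib]
  congr 2
  · rw [← sum_congr rfl fun j _ => V2_shift g s F X m₀ M (j * H₁) H₁]
    rw [sum_comm (s := range J)]
    refine sum_congr rfl fun a _ => ?_
    exact sum_comm
  · exact V2_shift g s F X m₀ M (J * H₁) r

lemma V2_nonneg (g : ℤ → ℝ) (s : ℤ) (F : ℤ[X]) (X : ℕ) (m₀ : ℤ) (M H : ℕ) : 0 ≤ V2 g s F X m₀ M H :=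
  sum_nonneg fun _ _ => sum_nonneg fun _ _ => sq_nonneg _

lemma V2_zero (g : ℤ → ℝ) (s : ℤ) (F : ℤ[X]) (X : ℕ) (m₀ : ℤ) (M : ℕ) : V2 g s F X m₀ M 0 = 0 := by
  unfold V2
  simp

/-- bounds for short windows give bounds for long windows -/
lemma V2_long (g : ℤ → ℝ) (s : ℤ) (F : ℤ[X]) (X : ℕ) (m₀ : ℤ) (M H₁ H : ℕ) (V : ℝ) (hH₁ : 1 ≤ H₁) (hV : 0 ≤ V)
    (h : ∀ c r : ℕ, 1 ≤ r → r ≤ H₁ → c + r ≤ H → V2 g s F X (m₀ + c) M r ≤ V) (hH : H₁ ≤ H) :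
    V2 g s F X m₀ M H ≤ 4 * ((H : ℝ) / H₁) ^ 2 * V := by
  obtain ⟨J, hJ⟩ : ∃ J, J = H / H₁ := ⟨_, rfl⟩
  obtain ⟨r, hr⟩ : ∃ r, r = H % H₁ := ⟨_, rfl⟩
  have hHJ : H = J * H₁ + r := by rw [hJ, hr, mul_comm]; exact (Nat.div_add_mod H H₁).symm
  have hr1 : r < H₁ := by rw [hr]; exact Nat.mod_lt _ (by omega)
  have hJ1 : 1 ≤ J := by rw [hJ]; exact Nat.div_pos hH (by omega)
  have h1 := V2_cs g s F X m₀ M H₁ J r
  rw [← hHJ] at h1
  refine h1.trans ?_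
  have hHr : (H : ℝ) = J * H₁ + r := by exact_mod_cast hHJ
  have hr0 : (0 : ℝ) ≤ r := Nat.cast_nonneg _
  have h2 : ∀ j ∈ range J, V2 g s F X (m₀ + ((j * H₁ : ℕ) : ℤ)) M H₁ ≤ V := by
    intro j hj
    rw [mem_range] at hj
    apply h _ _ hH₁ le_rfl
    have : (j + 1) * H₁ ≤ J * H₁ := Nat.mul_le_mul_right _ hj
    rw [hHJ]
    rw [add_mul, one_mul] at this
    omega
  have h3 : V2 g s F X (m₀ + ((J * H₁ : ℕ) : ℤ)) M r ≤ V := by
    rcases Nat.eq_zero_or_pos r with h0 | h0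
    · rw [h0, V2_zero]; exact hV
    · apply h _ _ h0 hr1.le
      omega
  have h4 := sum_le_sum h2
  rw [sum_const, card_range, nsmul_eq_mul] at h4
  have hH1r : (0 : ℝ) < H₁ := by exact_mod_cast hH₁
  have hJr : (1 : ℝ) ≤ J := by exact_mod_cast hJ1
  have h5 : (J : ℝ) + 1 ≤ 2 * ((H : ℝ) / H₁) := by
    rw [mul_div_assoc', le_div_iff₀ hH1r]
    nlinarith
  calc ((J : ℝ) + 1) * (∑ j ∈ range J, V2 g s F X (m₀ + ((j * H₁ : ℕ) : ℤ)) M H₁ + V2 g s F X (m₀ + ((J * H₁ : ℕ) : ℤ)) M r)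
      ≤ ((J : ℝ) + 1) * (J * V + V) := mul_le_mul_of_nonneg_left (by linarith) (by linarith)
    _ = ((J : ℝ) + 1) ^ 2 * V := by ring
    _ ≤ (2 * ((H : ℝ) / H₁)) ^ 2 * V := by gcongr
    _ = _ := by ring

/-! ### small values, one pair -/

/-- the number of small values -/
noncomputable def nnY (y : ℕ → ℤ) (H : ℕ) (κ : ℝ) : ℕ := #((Ioc 0 H).filter (fun n : ℕ => ((y n).natAbs : ℝ) < κ))

/-- the number of the primes among the values -/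
def pY (y : ℕ → ℤ) (H : ℕ) : ℕ := #((Ioc 0 H).filter (fun n : ℕ => Nat.Prime (y n).natAbs))

/-- the sum of the weights -/
noncomputable def wY (y : ℕ → ℤ) (H : ℕ) : ℝ := ∑ n ∈ Ioc 0 H, wt (y n).natAbs

lemma cheb2 (A : Finset ℤ) (I : Finset ℕ) (F : ℤ → ℕ → ℝ) (lam S : ℝ) (hl : 0 < lam)
    (h : ∑ a ∈ A, ∑ m ∈ I, F a m ^ 2 ≤ S) :
    (#((A ×ˢ I).filter (fun p => lam < |F p.1 p.2|)) : ℝ) ≤ S / lam ^ 2 := Run7.h285.E3.cheb A I F lam S hl h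

lemma near2 (F : ℤ[X]) (A : Finset ℤ) (m₀ : ℤ) (M H : ℕ) (κ lam : ℝ) (hκ : 0 ≤ κ) (hl : 0 < lam) :
    (#((A ×ˢ range M).filter (fun p => lam < (nnY (fun n => vv F m₀ (p.2 + n) + p.1) H κ : ℝ))) : ℝ) ≤
      M * (H * (2 * κ + 1)) / lam := by
  apply Run7.h285.E3.markov A (range M) (fun a t => (nnY (fun n => vv F m₀ (t + n) + a) H κ : ℝ)) lam _ hl
    (fun _ _ => Nat.cast_nonneg _)
  rw [sum_comm]
  have h1 : ∀ t ∈ range M, ∑ a ∈ A, (nnY (fun n => vv F m₀ (t + n) + a) H κ : ℝ) ≤ H * (2 * κ + 1) := by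
    intro t _
    have e1 : ∑ a ∈ A, (nnY (fun n => vv F m₀ (t + n) + a) H κ : ℝ) =
        ∑ n ∈ Ioc 0 H, (#(A.filter (fun a : ℤ => ((vv F m₀ (t + n) + a).natAbs : ℝ) < κ)) : ℝ) := by
      unfold nnY
      simp_rw [card_filter]
      push_cast
      exact sum_comm
    rw [e1]
    refine (sum_le_sum fun n _ => near_a A _ κ hκ).trans (le_of_eq ?_)
    rw [sum_const, Nat.card_Ioc, nsmul_eq_mul, Nat.sub_zero]
  refine (sum_le_sum h1).trans (le_of_eq ?_)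
  rw [sum_const, card_range, nsmul_eq_mul]

/-- the weights -/
lemma sum_near (y : ℕ → ℤ) (H : ℕ) (κ l ε c0 : ℝ) (c : ℕ → ℝ) (hc : ∀ n, 0 ≤ c n) (hc0 : ∀ n, c n ≤ c0) (hl : 1 ≤ l)
    (hε : 0 ≤ ε) (hwt : ∀ n ∈ Ioc 0 H, κ ≤ ((y n).natAbs : ℝ) →
      |wt (y n).natAbs - 1 / l| ≤ ε * (1 / l)) :
    |∑ n ∈ Ioc 0 H, c n * wt (y n).natAbs - 1 / l * ∑ n ∈ Ioc 0 H, c n| ≤
      ε * (1 / l) * ∑ n ∈ Ioc 0 H, c n + 3 * (nnY y H κ : ℝ) * c0 := by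
  have hl0 : 0 < l := by linarith
  have e1 : ε * (1 / l) * ∑ n ∈ Ioc 0 H, c n + 3 * (nnY y H κ : ℝ) * c0 =
      ∑ n ∈ Ioc 0 H, (ε * (1 / l) * c n + 3 * c0 * (if ((y n).natAbs : ℝ) < κ then 1 else 0)) := by
    rw [sum_add_distrib, ← mul_sum, ← mul_sum, sum_boole]
    unfold nnY
    ring
  rw [e1, mul_sum, ← sum_sub_distrib]
  refine (abs_sum_le_sum_abs _ _).trans (sum_le_sum fun n hn => ?_)
  have e2 : c n * wt (y n).natAbs - 1 / l * c n = c n * (wt (y n).natAbs - 1 / l) := by ring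
  rw [e2, abs_mul, abs_of_nonneg (hc n)]
  have hc00 : 0 ≤ c0 := (hc n).trans (hc0 n)
  split_ifs with h
  · have h1 : |wt (y n).natAbs - 1 / l| ≤ 3 := by
      have h2 := wt_nonneg (y n).natAbs
      have h3 := wt_le' (y n).natAbs
      have h4 : 1 / l ≤ 1 := by rw [div_le_one hl0]; exact hl
      have h5 : 0 ≤ 1 / l := by positivity
      rw [abs_le]; constructor <;> linarith
    have h2 : c n * |wt (y n).natAbs - 1 / l| ≤ c0 * 3 :=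
      mul_le_mul (hc0 n) h1 (abs_nonneg _) hc00
    have h3 : 0 ≤ ε * (1 / l) * c n := by have := hc n; positivity
    linarith
  · have h1 := mul_le_mul_of_nonneg_left (hwt n hn (not_lt.1 h)) (hc n)
    linarith

/-- one pair -/
lemma comb (w z : ℕ) (hw : 2 ≤ w) (hz : 2 ≤ z) (y : ℕ → ℤ) (H : ℕ) (l h V δ0 ε κ N : ℝ) (hl : 1 ≤ l) (hε : 0 < ε)
    (hε1 : ε ≤ 1 / 100) (hh : 0 < h) (hδh : δ0 ≤ h)
    (hG1 : |∑ n ∈ Ioc 0 H, ff z (1 * (y n))| ≤ ε * δ0 * (H / (2 * l)))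
    (hG2 : |∑ n ∈ Ioc 0 H, ff z (-1 * (y n))| ≤ ε * δ0 * (H / (2 * l)))
    (hF1 : |∑ n ∈ Ioc 0 H, fz w z (1 * (y n))| ≤ ε * δ0 * (H / 2))
    (hF2 : |∑ n ∈ Ioc 0 H, fz w z (-1 * (y n))| ≤ ε * δ0 * (H / 2))
    (hN : (nnY y H κ : ℝ) ≤ N) (hN1 : 3 * N * (Vz z)⁻¹ ≤ ε * δ0 * (H / l)) (hN2 : 3 * N ≤ ε * (H / l))
    (hwt : ∀ n ∈ Ioc 0 H, κ ≤ ((y n).natAbs : ℝ) →
      |wt (y n).natAbs - 1 / l| ≤ ε * (1 / l))
    (hV : |V - h| ≤ ε * h)
    (hQ : |∑ n ∈ Ioc 0 H, lamz w (y n).natAbs - H * V| ≤ ε * V * H) :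
    |(pY y H : ℝ) - h * wY y H| ≤ 12 * ε * (h * wY y H) := by
  have hl0 : 0 < l := by linarith
  have hH0 : (0 : ℝ) ≤ H := Nat.cast_nonneg _
  obtain ⟨Qz, hQz⟩ : ∃ Qz, Qz = ∑ n ∈ Ioc 0 H, lamz z (y n).natAbs := ⟨_, rfl⟩
  obtain ⟨Qw, hQw⟩ : ∃ Qw, Qw = ∑ n ∈ Ioc 0 H, lamz w (y n).natAbs := ⟨_, rfl⟩
  obtain ⟨Z, hZ⟩ : ∃ Z, Z = ∑ n ∈ Ioc 0 H, lamz z (y n).natAbs * wt (y n).natAbs := ⟨_, rfl⟩
  have e1 : (pY y H : ℝ) = (∑ n ∈ Ioc 0 H, ff z (1 * (y n)) +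
      ∑ n ∈ Ioc 0 H, ff z (-1 * (y n))) + Z := by
    rw [hZ, ← sum_add_distrib, ← sum_add_distrib]
    unfold pY
    rw [← sum_boole]
    refine sum_congr rfl fun n _ => ?_
    rw [ff_two]; ring
  have e2 : (∑ n ∈ Ioc 0 H, fz w z (1 * (y n)) +
      ∑ n ∈ Ioc 0 H, fz w z (-1 * (y n))) = Qz - Qw := by
    rw [hQz, hQw, ← sum_add_distrib, ← sum_sub_distrib]
    refine sum_congr rfl fun n _ => ?_
    rw [fz_two w z hw hz]
  have e3 := sum_near y H κ l ε (Vz z)⁻¹ (fun n => lamz z (y n).natAbs)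
    (fun n => Pool.Agent.TH892.SW.lamz_nonneg z _ (by omega))
    (fun n => Pool.Agent.TH892.SW.lamz_le z _ (by omega)) hl hε.le hwt
  have e4 := sum_near y H κ l ε 1 (fun _ => 1) (fun _ => zero_le_one) (fun _ => le_rfl) hl hε.le hwt
  rw [← hQz, ← hZ] at e3
  have e5 : ∑ n ∈ Ioc 0 H, (1 : ℝ) = H := by
    rw [sum_const, Nat.card_Ioc, nsmul_eq_mul, mul_one, Nat.sub_zero]
  have e6 : ∑ n ∈ Ioc 0 H, 1 * wt (y n).natAbs = wY y H := by
    unfold wY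
    exact sum_congr rfl fun n _ => one_mul _
  rw [e5, e6] at e4
  rw [← hQw] at hQ
  have hVz0 : 0 < (Vz z)⁻¹ := inv_pos.2 (Pool.Agent.TH892.OW.Vz_pos z)
  have hN3 : 3 * (nnY y H κ : ℝ) * (Vz z)⁻¹ ≤ ε * δ0 * (H / l) :=
    le_trans (mul_le_mul_of_nonneg_right (by linarith) hVz0.le) hN1
  have hN4 : 3 * (nnY y H κ : ℝ) * 1 ≤ ε * (H / l) := by linarith
  have e1' : (pY y H : ℝ) - h * wY y H = ((∑ n ∈ Ioc 0 H, ff z (1 * (y n)) +
      ∑ n ∈ Ioc 0 H, ff z (-1 * (y n)))) + (Z - h * wY y H) := by rw [e1]; ring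
  rw [e1']
  generalize wY y H = W at *
  generalize ∑ n ∈ Ioc 0 H, ff z (1 * (y n)) = G1 at *
  generalize ∑ n ∈ Ioc 0 H, ff z (-1 * (y n)) = G2 at *
  generalize ∑ n ∈ Ioc 0 H, fz w z (1 * (y n)) = F1 at *
  generalize ∑ n ∈ Ioc 0 H, fz w z (-1 * (y n)) = F2 at *
  clear e1 e1' hZ hQz hQw e5 e6 hwt hN1 hN2
  set q := (H : ℝ) / l with hq
  have hq0 : 0 ≤ q := by rw [hq]; positivity
  have hHq : (H : ℝ) = q * l := by rw [hq]; field_simp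
  have hhq : 0 ≤ h * q := by positivity
  have hV2 := abs_le.1 hV
  have hεh : ε * h ≤ 1 / 100 * h := mul_le_mul_of_nonneg_right hε1 hh.le
  have hV3 : V ≤ 101 / 100 * h := by linarith
  have hδq : ε * δ0 * q ≤ ε * (h * q) := by
    have : ε * δ0 * q ≤ ε * h * q := by gcongr
    linarith
  have g1 : |G1 + G2| ≤ ε * (h * q) := by
    have h1 := abs_add_le G1 G2
    have h2 : ε * δ0 * (H / (2 * l)) = ε * δ0 * q / 2 := by rw [hq]; field_simp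
    rw [h2] at hG1 hG2
    linarith
  have g2 : |Qz - Qw| ≤ ε * (h * q) * l := by
    have h1 := abs_add_le F1 F2
    rw [e2] at h1
    have h2 : ε * δ0 * ((H : ℝ) / 2) = ε * δ0 * q * l / 2 := by rw [hHq]; ring
    rw [h2] at hF1 hF2
    have h3 := mul_le_mul_of_nonneg_right hδq hl0.le
    linarith
  have g3 : |Qz - h * q * l| ≤ 4 * ε * (h * q) * l := by
    have h1 : Qz - h * q * l = (Qz - Qw) + (Qw - H * V) + (V - h) * H := by rw [hHq]; ring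
    rw [h1]
    refine (abs_add_le _ _).trans ?_
    have a2 := abs_add_le (Qz - Qw) (Qw - H * V)
    have a3 : |(V - h) * H| ≤ ε * h * H := by
      rw [abs_mul, abs_of_nonneg hH0]
      exact mul_le_mul_of_nonneg_right hV hH0
    have a4 : ε * V * H ≤ ε * (101 / 100 * h) * H := by gcongr
    have a5 : ε * h * H = ε * (h * q) * l := by rw [hHq]; ring
    have a6 : ε * (101 / 100 * h) * H = 101 / 100 * (ε * (h * q) * l) := by rw [hHq]; ring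
    have a7 : 0 ≤ ε * (h * q) * l := by positivity
    rw [a5] at a3
    rw [a6] at a4
    linarith
  have g4 : Qz ≤ 104 / 100 * (h * q * l) := by
    have h1 := (abs_le.1 g3).2
    have h2 : 4 * ε * (h * q) * l ≤ 4 * (1 / 100) * (h * q) * l := by gcongr
    linarith
  have g5 : |Z - 1 / l * Qz| ≤ 205 / 100 * (ε * (h * q)) := by
    have h1 : ε * (1 / l) * Qz ≤ ε * (1 / l) * (104 / 100 * (h * q * l)) := by gcongr
    have h2 : ε * (1 / l) * (104 / 100 * (h * q * l)) = 104 / 100 * (ε * (h * q)) := by field_simp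
    have h3 : 0 ≤ ε * (h * q) := by positivity
    linarith
  have g6 : |1 / l * Qz - h * q| ≤ 4 * (ε * (h * q)) := by
    have h1 : 1 / l * Qz - h * q = 1 / l * (Qz - h * q * l) := by field_simp
    rw [h1, abs_mul, abs_of_pos (by positivity)]
    calc 1 / l * |Qz - h * q * l| ≤ 1 / l * (4 * ε * (h * q) * l) := by gcongr
      _ = _ := by field_simp
  have g7 : |W - q| ≤ 2 * ε * q := by
    have h1 : 1 / l * (H : ℝ) = q := by rw [hq]; ring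
    have h2 : ε * (1 / l) * (H : ℝ) = ε * q := by rw [hq]; ring
    rw [h1, h2] at e4
    linarith
  have g8 : |h * q - h * W| ≤ 2 * (ε * (h * q)) := by
    have h1 : h * q - h * W = -(h * (W - q)) := by ring
    rw [h1, abs_neg, abs_mul, abs_of_pos hh]
    calc h * |W - q| ≤ h * (2 * ε * q) := by gcongr
      _ = _ := by ring
  have g9 : |(G1 + G2) + (Z - h * W)| ≤ 10 * (ε * (h * q)) := by
    have h1 : (G1 + G2) + (Z - h * W) = (G1 + G2) + (Z - 1 / l * Qz) + (1 / l * Qz - h * q) + (h * q - h * W) := by ring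
    rw [h1]
    have b1 := abs_add_le ((G1 + G2) + (Z - 1 / l * Qz) + (1 / l * Qz - h * q)) (h * q - h * W)
    have b2 := abs_add_le ((G1 + G2) + (Z - 1 / l * Qz)) (1 / l * Qz - h * q)
    have b3 := abs_add_le (G1 + G2) (Z - 1 / l * Qz)
    have h3 : 0 ≤ ε * (h * q) := by positivity
    linarith
  have g10 : 98 / 100 * (h * q) ≤ h * W := by
    have h1 := (abs_le.1 g8).2
    have h2 : 2 * (ε * (h * q)) ≤ 2 * (1 / 100 * (h * q)) := by gcongr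
    linarith
  refine g9.trans ?_
  have h1 : 12 * ε * (98 / 100 * (h * q)) ≤ 12 * ε * (h * W) := by gcongr
  have h3 : 0 ≤ ε * (h * q) := by positivity
  linarith


end Run7.h373.QE
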