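import Pool.Agent.Run7.h373.QD.Tail
import Pool.Agent.TH892.OW.B5a
import Pool.Agent.Run7.h385.CR.MomC

/-!
# Project QE: the constants are bounded below and close to their products cut at a small power of `log X`
-/

set_option autoImplicit false
set_option maxHeartbeats 1000000

namespace Run7.h373.QE

open Finset Filter
open Polynomial (natDegree leadingCoeff)
open scoped Polynomial
open Pool.Agent.H373R2.T7 (pz Vz mem_pz Vz_le_one)
open Pool.Agent.TH204.WR (rho xp hh hh_nonneg hh_close V_low tail_second)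
open Pool.Agent.TH892.OW (evt_ll)
open Pool.Agent.H442R2.EHI (evt_log_pow evt_log_ge)

/-- Chebyshev -/
lemma cheb1 (S : Finset ℤ) (f : ℤ → ℝ) (τ T : ℝ) (hτ : 0 < τ) (h : ∑ c ∈ S, f c ^ 2 ≤ T) :
    (#(S.filter (fun c => τ < |f c|)) : ℝ) ≤ T / τ ^ 2 := by
  rw [le_div_iff₀ (by positivity)]
  refine le_trans ?_ h
  calc (#(S.filter (fun c => τ < |f c|)) : ℝ) * τ ^ 2 = ∑ c ∈ S.filter (fun c => τ < |f c|), τ ^ 2 := by
        rw [sum_const, nsmul_eq_mul]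
    _ ≤ ∑ c ∈ S.filter (fun c => τ < |f c|), f c ^ 2 := by
        refine sum_le_sum fun c hc => ?_
        rw [mem_filter] at hc
        rw [← sq_abs (f c)]
        exact pow_le_pow_left₀ hτ.le hc.2.le 2
    _ ≤ _ := sum_le_sum_of_subset_of_nonneg (filter_subset _ _) fun _ _ _ => sq_nonneg _

theorem hg (d : ℕ) (hd : 1 ≤ d) (A : ℕ) : ∀ η : ℝ, 0 < η → ∃ δ0 : ℝ, 0 < δ0 ∧ ∀ ε1 : ℝ, 0 < ε1 → ∀ u : ℕ, 1 ≤ u →
    ∃ B X₀ : ℕ, ∀ X : ℕ, X₀ ≤ X → ∀ F : ℤ[X], F.natDegree = d → |(F.leadingCoeff : ℝ)| ≤ A →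
    ∃ Bad ⊆ Icc (-(X : ℤ)) X, (#Bad : ℝ) ≤ η * X ∧ ∀ a ∈ Icc (-(X : ℤ)) X, a ∉ Bad →
      (∀ p : ℕ, p.Prime → rho F a p < p) → ∀ z : ℕ, Real.log X ^ B ≤ z → z ^ 3 ≤ X →
        δ0 ≤ hh F a z ∧ |hh F a ⌊Real.log X ^ (1 / (u : ℝ))⌋₊ - hh F a z| ≤ ε1 * hh F a z := by
  classical
  intro η hη
  have hd1 : (1 : ℝ) ≤ d := by exact_mod_cast hd
  obtain ⟨w0, hw0⟩ : ∃ w0 : ℕ, w0 = A + 4 * d + 128 * d ^ 2 + ⌈16384 * (d : ℝ) ^ 2 / η⌉₊ + 1 := ⟨_, rfl⟩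
  have hw01 : 1 ≤ w0 := by omega
  have hw0A : A ≤ w0 := by omega
  have hw04 : 4 * d ≤ w0 := by omega
  have hw0r : (1 : ℝ) ≤ w0 := by exact_mod_cast hw01
  have hw0128 : 128 * (d : ℝ) ^ 2 ≤ w0 := by exact_mod_cast (by omega : 128 * d ^ 2 ≤ w0)
  have hw0η : 16384 * (d : ℝ) ^ 2 / η ≤ w0 := by
    refine (Nat.le_ceil _).trans ?_
    exact_mod_cast (by omega : ⌈16384 * (d : ℝ) ^ 2 / η⌉₊ ≤ w0)
  have hV0 : 0 < Vz w0 := Pool.Agent.H373R2.T7.Vz_pos w0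
  obtain ⟨c0, hc0⟩ : ∃ c0 : ℝ, c0 = (1 / (2 * (d : ℝ))) ^ (2 * d) * Vz w0 ^ (2 * d) := ⟨_, rfl⟩
  have hc00 : 0 < c0 := by rw [hc0]; positivity
  refine ⟨c0 / 2, by positivity, fun ε1 hε1 u hu => ?_⟩
  have hur : (1 : ℝ) ≤ u := by exact_mod_cast hu
  have hur0 : (0 : ℝ) < u := by linarith
  obtain ⟨κ1, hκ1⟩ : ∃ κ1 : ℝ, κ1 = min ε1 1 / 16 := ⟨_, rfl⟩
  have hmin : 0 < min ε1 1 := lt_min hε1 one_pos
  have hκ0 : 0 < κ1 := by rw [hκ1]; positivity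
  have hκ1a : 16 * κ1 ≤ ε1 := by rw [hκ1]; have := min_le_left ε1 1; linarith
  have hκ1b : 16 * κ1 ≤ 1 := by rw [hκ1]; have := min_le_right ε1 1; linarith
  obtain ⟨E0, hE0⟩ := Run7.h373.QD.tail_all d hd 1 1 1
  obtain ⟨E, hE⟩ : ∃ E, E = E0 + 1 := ⟨_, rfl⟩
  obtain ⟨Xt, hXt⟩ := hE0 E (by omega)
  have hev : ∀ᶠ X : ℕ in atTop, (10000 + A + 2 / κ1 + 4 / η : ℝ) ≤ Real.log X ∧
      ((w0 : ℝ) + 8 * d ^ 2 / κ1 + 256 * d ^ 2 / (κ1 ^ 2 * η) + 1) * Real.log (Real.log X) ^ 0 ≤ Real.log X ^ (1 / (u : ℝ)) ∧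
      Real.log X ^ (3 * E) ≤ (X : ℝ) ^ (1 : ℝ) := by
    filter_upwards [evt_log_ge _, evt_ll 0 (1 / (u : ℝ)) ((w0 : ℝ) + 8 * d ^ 2 / κ1 + 256 * d ^ 2 / (κ1 ^ 2 * η) + 1) (by positivity),
      evt_log_pow (3 * E) 1 (by norm_num)] with X a1 a2 a3
    exact ⟨a1, a2, a3⟩
  obtain ⟨X1, hX1⟩ := eventually_atTop.1 hev
  refine ⟨E, Xt + X1 + 1, fun X hX F hF hFl => ?_⟩
  obtain ⟨hL, hwu, hzX⟩ := hX1 X (by omega)
  have q1 : 0 < 2 / κ1 := by positivity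
  have q2 : 0 < 4 / η := by positivity
  have q3 : (0 : ℝ) ≤ A := Nat.cast_nonneg _
  have hXtX := hXt X (by omega) F hF
  clear hXt hX1 hev hE0
  rw [pow_zero, mul_one] at hwu
  rw [Real.rpow_one] at hzX
  set L := Real.log X with hLd
  have hL1 : 1 ≤ L := by linarith
  have hL0 : 0 < L := by linarith
  have hX1 : (1 : ℝ) ≤ X := by exact_mod_cast (by omega : 1 ≤ X)
  have hX0 : (0 : ℝ) < X := by linarith
  obtain ⟨Bad3, b1, b2, b3⟩ := hXtX (by rw [pow_one]; linarith)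
  have hF0 : F ≠ 0 := by
    rintro rfl
    rw [Polynomial.natDegree_zero] at hF
    omega
  have hl0 : F.leadingCoeff ≠ 0 := Polynomial.leadingCoeff_ne_zero.2 hF0
  have hFlA : F.leadingCoeff.natAbs ≤ A := by
    have : ((F.leadingCoeff.natAbs : ℕ) : ℝ) ≤ A := by
      rw [Nat.cast_natAbs, Int.cast_abs]; exact hFl
    exact_mod_cast this
  -- `w`, `y`
  obtain ⟨w, hw⟩ : ∃ w : ℕ, w = ⌊L ^ (1 / (u : ℝ))⌋₊ := ⟨_, rfl⟩
  obtain ⟨y, hy⟩ : ∃ y : ℕ, y = ⌊L ^ E⌋₊ := ⟨_, rfl⟩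
  rw [← hw]
  rw [← hy] at b3
  have hy2 : (y : ℝ) ≤ L ^ E := by rw [hy]; exact Nat.floor_le (by positivity)
  have hLu : L ^ (1 / (u : ℝ)) ≤ L := by
    calc L ^ (1 / (u : ℝ)) ≤ L ^ (1 : ℝ) := by
          apply Real.rpow_le_rpow_of_exponent_le hL1
          rw [div_le_one hur0]; exact hur
      _ = L := Real.rpow_one L
  have hLE : L ≤ L ^ E := le_self_pow₀ hL1 (by omega)
  have hwy : w ≤ y := by
    rw [hw, hy]
    exact Nat.floor_le_floor (hLu.trans hLE)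
  have q4 : 0 ≤ 8 * (d : ℝ) ^ 2 / κ1 := by positivity
  have q5 : 0 ≤ 256 * (d : ℝ) ^ 2 / (κ1 ^ 2 * η) := by positivity
  have hwge : (w0 : ℝ) + 8 * d ^ 2 / κ1 + 256 * d ^ 2 / (κ1 ^ 2 * η) ≤ w := by
    have h1 := Nat.lt_floor_add_one (L ^ (1 / (u : ℝ)))
    rw [← hw] at h1
    linarith
  have hw0w : w0 ≤ w := by
    have : (w0 : ℝ) ≤ w := by linarith
    exact_mod_cast this
  have hwr0 : (0 : ℝ) < w := by linarith
  have hy3X : y ^ 3 ≤ X := by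
    have h1 : (y : ℝ) ^ 3 ≤ X := by
      calc (y : ℝ) ^ 3 ≤ (L ^ E) ^ 3 := pow_le_pow_left₀ (Nat.cast_nonneg _) hy2 3
        _ = L ^ (3 * E) := by rw [← pow_mul, mul_comm]
        _ ≤ X := hzX
    exact_mod_cast h1
  have hw3X : w ^ 3 ≤ X := (Nat.pow_le_pow_left hwy 3).trans hy3X
  have hXn : 1 ≤ X := by omega
  -- the exceptional sets
  have v1 := cheb1 (Icc (-(X : ℤ)) X) (fun a => ∑ p ∈ (Ioc w0 w).filter Nat.Prime, xp F a p) (1 / 16) _ (by norm_num)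
    (tail_second F X w0 w (by omega) (hFlA.trans hw0A) hl0 hw01 hXn hw3X hw0w)
  have v2 := cheb1 (Icc (-(X : ℤ)) X) (fun a => ∑ p ∈ (Ioc w y).filter Nat.Prime, xp F a p) (κ1 / 2) _ (by positivity)
    (tail_second F X w y (by omega) (hFlA.trans (hw0A.trans hw0w)) hl0 (by omega) hXn hy3X hwy)
  rw [hF] at v1 v2
  have v1' : (#((Icc (-(X : ℤ)) X).filter (fun a => 1 / 16 < |∑ p ∈ (Ioc w0 w).filter Nat.Prime, xp F a p|)) : ℝ) ≤ η / 4 * X := by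
    refine v1.trans ?_
    have e1 : 16 * (d : ℝ) ^ 2 * (X / w0) / (1 / 16) ^ 2 = (4096 * (d : ℝ) ^ 2 / w0) * X := by field_simp; norm_num
    rw [e1]
    apply mul_le_mul_of_nonneg_right _ hX0.le
    rw [div_le_iff₀ (by linarith)]
    rw [div_le_iff₀ hη] at hw0η
    linarith
  have v2' : (#((Icc (-(X : ℤ)) X).filter (fun a => κ1 / 2 < |∑ p ∈ (Ioc w y).filter Nat.Prime, xp F a p|)) : ℝ) ≤ η / 4 * X := by
    refine v2.trans ?_
    have e1 : 16 * (d : ℝ) ^ 2 * (X / w) / (κ1 / 2) ^ 2 = (64 * (d : ℝ) ^ 2 / (κ1 ^ 2 * w)) * X := by field_simp; norm_num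
    rw [e1]
    apply mul_le_mul_of_nonneg_right _ hX0.le
    rw [div_le_iff₀ (by positivity)]
    have h1 : 256 * (d : ℝ) ^ 2 / (κ1 ^ 2 * η) ≤ w := by linarith
    rw [div_le_iff₀ (by positivity)] at h1
    linarith
  have v3' : (#Bad3 : ℝ) ≤ η / 4 * X := by
    refine b2.trans ?_
    rw [pow_one, div_le_iff₀ hL0]
    have h1 : 4 / η ≤ L := by linarith
    rw [div_le_iff₀ hη] at h1
    nlinarith
  refine ⟨Bad3 ∪ ((Icc (-(X : ℤ)) X).filter (fun a => 1 / 16 < |∑ p ∈ (Ioc w0 w).filter Nat.Prime, xp F a p|) ∪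
    (Icc (-(X : ℤ)) X).filter (fun a => κ1 / 2 < |∑ p ∈ (Ioc w y).filter Nat.Prime, xp F a p|)),
    union_subset b1 (union_subset (filter_subset _ _) (filter_subset _ _)), ?_, ?_⟩
  · have e1 := card_union_le Bad3 ((Icc (-(X : ℤ)) X).filter (fun a => 1 / 16 < |∑ p ∈ (Ioc w0 w).filter Nat.Prime, xp F a p|) ∪
      (Icc (-(X : ℤ)) X).filter (fun a => κ1 / 2 < |∑ p ∈ (Ioc w y).filter Nat.Prime, xp F a p|))
    have e2 := card_union_le ((Icc (-(X : ℤ)) X).filter (fun a => 1 / 16 < |∑ p ∈ (Ioc w0 w).filter Nat.Prime, xp F a p|))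
      ((Icc (-(X : ℤ)) X).filter (fun a => κ1 / 2 < |∑ p ∈ (Ioc w y).filter Nat.Prime, xp F a p|))
    have e3 : (#(Bad3 ∪ ((Icc (-(X : ℤ)) X).filter (fun a => 1 / 16 < |∑ p ∈ (Ioc w0 w).filter Nat.Prime, xp F a p|) ∪
      (Icc (-(X : ℤ)) X).filter (fun a => κ1 / 2 < |∑ p ∈ (Ioc w y).filter Nat.Prime, xp F a p|))) : ℝ) ≤ #Bad3 +
        (#((Icc (-(X : ℤ)) X).filter (fun a => 1 / 16 < |∑ p ∈ (Ioc w0 w).filter Nat.Prime, xp F a p|)) +
        #((Icc (-(X : ℤ)) X).filter (fun a => κ1 / 2 < |∑ p ∈ (Ioc w y).filter Nat.Prime, xp F a p|))) := by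
      exact_mod_cast e1.trans (Nat.add_le_add_left e2 _)
    have e4 : 0 ≤ η * X := by positivity
    linarith
  · intro a ha haB hadm z hz1 hz2
    rw [mem_union, mem_union, not_or, not_or] at haB
    obtain ⟨f1, f2, f3⟩ := haB
    have s1 : |∑ p ∈ (Ioc w0 w).filter Nat.Prime, xp F a p| ≤ 1 / 16 := by
      rw [mem_filter, not_and] at f2
      exact not_lt.1 (f2 ha)
    have s2 : |∑ p ∈ (Ioc w y).filter Nat.Prime, xp F a p| ≤ κ1 / 2 := by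
      rw [mem_filter, not_and] at f3
      exact not_lt.1 (f3 ha)
    have hyz : y ≤ z := by
      have : (y : ℝ) ≤ z := hy2.trans hz1
      exact_mod_cast this
    have s3 := b3 a ha f1 z hyz hz2
    rw [pow_one] at s3
    have s3' : |∑ p ∈ (Ioc y z).filter Nat.Prime, xp F a p| ≤ κ1 / 2 := by
      refine s3.trans ?_
      have h1 : 2 / κ1 ≤ L := by linarith
      rw [div_le_iff₀ hκ0] at h1
      rw [div_le_iff₀ hL0]
      linarith
    have s4 : |∑ p ∈ (Ioc w z).filter Nat.Prime, xp F a p| ≤ κ1 := by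
      have hsplit : ∑ p ∈ (Ioc w z).filter Nat.Prime, xp F a p =
          ∑ p ∈ (Ioc w y).filter Nat.Prime, xp F a p + ∑ p ∈ (Ioc y z).filter Nat.Prime, xp F a p := by
        rw [← Ioc_union_Ioc_eq_Ioc hwy hyz, filter_union, sum_union]
        apply disjoint_filter_filter
        rw [disjoint_left]
        intro a ha hb
        rw [mem_Ioc] at ha hb
        omega
      rw [hsplit]
      refine (abs_add_le _ _).trans ?_
      linarith
    -- the products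
    have hc1 := hh_close F a w0 w (by omega) (hFlA.trans hw0A) hl0 hw0w (1 / 16) (by rw [hF]; linarith) (by rw [hF]; exact hw04)
      (by norm_num) s1
    have hc2 := hh_close F a w z (by omega) (hFlA.trans (hw0A.trans hw0w)) hl0 (hwy.trans hyz) κ1 (by
        rw [hF]
        have h1 : 8 * (d : ℝ) ^ 2 / κ1 ≤ w := by linarith
        rw [div_le_iff₀ hκ0] at h1
        linarith) (by rw [hF]; omega) (by linarith) s4
    have hlow : c0 ≤ hh F a w0 := by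
      have h1 := V_low F a w0 d hd hF.le (fun p hp => hadm p (mem_pz.1 hp).2)
      rw [← hc0] at h1
      unfold hh
      have h2 : 1 ≤ (Vz w0)⁻¹ := (one_le_inv₀ hV0).2 (Vz_le_one w0)
      calc c0 = 1 * c0 := (one_mul _).symm
        _ ≤ (Vz w0)⁻¹ * ∏ p ∈ pz w0, (1 - (rho F a p : ℝ) / p) := mul_le_mul h2 h1 hc00.le (by linarith)
    set R0 := hh F a w0 with hR0
    set R := hh F a w with hR
    set M := hh F a z with hM
    have hR0p : 0 < R0 := by linarith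
    have g1 := abs_le.1 hc1
    have g2 := abs_le.1 hc2
    have hR1 : 3 / 4 * R0 ≤ R := by linarith [g1.1]
    have hRp : 0 < R := by linarith
    have hκR : 4 * κ1 * R ≤ 1 / 4 * R := mul_le_mul_of_nonneg_right (by linarith) hRp.le
    have hM1 : 3 / 4 * R ≤ M := by linarith [g2.1]
    have hMp : 0 < M := by linarith
    refine ⟨by linarith, ?_⟩
    rw [abs_sub_comm]
    refine hc2.trans ?_
    have h1 : R ≤ 4 / 3 * M := by linarith
    calc 4 * κ1 * R ≤ 4 * κ1 * (4 / 3 * M) := mul_le_mul_of_nonneg_left h1 (by positivity)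
      _ = (16 / 3 * κ1) * M := by ring
      _ ≤ ε1 * M := by
          apply mul_le_mul_of_nonneg_right _ hMp.le
          linarith

end Run7.h373.QE
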