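import Pool.Agent.Run7.h373.QE.E3a
import Pool.Agent.Run7.h373.QE.E1
import Pool.Agent.Run7.h373.QE.E2
import Pool.Agent.Run7.h373.QE.Hg
import Pool.Agent.Run7.h285.E3c

/-!
# Project QE: the second moments for all lengths
-/

set_option autoImplicit false
set_option maxHeartbeats 1000000

namespace Run7.h373.QE

open Finset Filter
open scoped Polynomial
open Pool.Agent.TH892.SW (ff ffn wt wt_nonneg wt_le)
open Pool.Agent.TH892.OW (fz lz evt_ll)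
open Run7.h373.QD (vv)
open Pool.Agent.H442R2.EHI (evt_log_pow evt_log_ge)

lemma win_val (F : ℤ[X]) (m₀ : ℤ) (M H c r : ℕ) (K : ℝ) (hc : c + r ≤ H)
    (h : ∀ n ∈ Ioc 0 (M + H), |((vv F m₀ n : ℤ) : ℝ)| ≤ K) :
    ∀ n ∈ Ioc 0 (M + r), |((vv F (m₀ + c) n : ℤ) : ℝ)| ≤ K := by
  intro n hn
  rw [mem_Ioc] at hn
  have h1 := vv_shift F m₀ c 0 n
  rw [zero_add, zero_add] at h1
  rw [← h1]
  exact h _ (by rw [mem_Ioc]; omega)

/-- the second moments of `ff` for all lengths -/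
theorem mom_ff (d : ℕ) (hd : 2 ≤ d) (A : ℕ) (θ : ℝ) (hθ : 0 < θ) : ∃ T : ℝ, 1 ≤ T ∧ ∃ E1 : ℕ, ∀ E : ℕ, E1 ≤ E →
    ∃ B X₀ : ℕ, ∀ X : ℕ, X₀ ≤ X → ∀ F : ℤ[X], F.natDegree = d → |(F.leadingCoeff : ℝ)| ≤ A →
      ∀ (m₀ : ℤ) (M H : ℕ), (X : ℝ) ^ (1 / (3 * ((d : ℝ) - 1))) * Real.log X ^ B ≤ M → T * Real.log X ≤ H →
      (∀ n ∈ Ioc 0 (M + H), |((vv F m₀ n : ℤ) : ℝ)| ≤ A * X) → ∀ s : ℤ, (s = 1 ∨ s = -1) →
      V2 (ff ⌊Real.log X ^ E⌋₊) s F X m₀ M H ≤ X * M * (((H : ℝ) / Real.log X) ^ 2 * θ) := by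
  obtain ⟨K₀, hK, h1⟩ := e1 d hd A
  refine ⟨2 * K₀ / θ + 1, by have : 0 < 2 * K₀ / θ := by positivity
                             linarith, ?_⟩
  obtain ⟨E1, h1⟩ := h1 3 3
  refine ⟨E1, fun E hE => ?_⟩
  obtain ⟨B, X1, h1⟩ := h1 E hE
  obtain ⟨X2, hX2⟩ := eventually_atTop.1 ((evt_log_ge 10000).and (evt_log_ge (16 * K₀ / θ)))
  refine ⟨B, max X1 X2, fun X hX F hF hFl m₀ M H hM hT hval s hs => ?_⟩
  obtain ⟨hl, hlK⟩ := hX2 X (le_trans (le_max_right _ _) hX)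
  have h2 := fun m₁ r hr hr3 hW1 => h1 X (le_trans (le_max_left _ _) hX) F hF hFl m₁ M r hr hr3 hM hW1 s hs
  clear h1 hX2 hX
  generalize Real.log X = l at *
  have hl0 : 0 < l := by linarith
  have hl1 : 1 ≤ l := by linarith
  have hXM : 0 ≤ (X : ℝ) * M := by positivity
  have hq : 2 * K₀ / θ + 1 ≤ (H : ℝ) / l := by rw [le_div_iff₀ hl0]; exact hT
  have hH1 : 1 ≤ H := by
    have h3 : (0 : ℝ) < H := by
      have : 0 < 2 * K₀ / θ := by positivity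
      have : 0 < (2 * K₀ / θ + 1) * l := by positivity
      linarith
    exact_mod_cast h3
  have hKl : 16 * K₀ ≤ θ * l := by rw [div_le_iff₀ hθ] at hlK; linarith
  rcases le_or_gt (H : ℝ) (l ^ 3) with h3 | h3
  · refine (h2 m₀ H hH1 h3 hval).trans ?_
    apply mul_le_mul_of_nonneg_left _ hXM
    set q := (H : ℝ) / l with hqd
    have hq0 : 0 < q := by
      have : 0 < 2 * K₀ / θ := by positivity
      linarith
    have e1 : K₀ * H / l = K₀ * q := by rw [hqd]; ring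
    have e2 : (H : ℝ) ^ 2 / l ^ 3 = q ^ 2 / l := by rw [hqd]; field_simp
    rw [e1, e2]
    have h4 : K₀ * q ≤ q ^ 2 * (θ / 2) := by
      have h5 : 2 * K₀ / θ ≤ q := by linarith
      rw [div_le_iff₀ hθ] at h5
      nlinarith
    have h6 : q ^ 2 / l ≤ q ^ 2 * (θ / 2) := by
      rw [div_le_iff₀ hl0]
      have h7 : 1 ≤ θ / 2 * l := by linarith
      have h8 : 0 ≤ q ^ 2 := sq_nonneg q
      nlinarith
    linarith
  · obtain ⟨H₁, hH₁⟩ : ∃ H₁, H₁ = ⌊l ^ 3⌋₊ := ⟨_, rfl⟩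
    have a1 : (H₁ : ℝ) ≤ l ^ 3 := by rw [hH₁]; exact Nat.floor_le (by positivity)
    have a2 : l ^ 2 ≤ (H₁ : ℝ) := by
      have h4 := Nat.lt_floor_add_one (l ^ 3)
      rw [← hH₁] at h4
      nlinarith [sq_nonneg l]
    have a3 : H₁ ≤ H := by
      have : (H₁ : ℝ) ≤ H := by linarith
      exact_mod_cast this
    have hl2 : 0 < l ^ 2 := by positivity
    have a4 : (0 : ℝ) < H₁ := by linarith
    have a5 : 1 ≤ H₁ := by exact_mod_cast a4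
    have h4 := V2_long (ff ⌊l ^ E⌋₊) s F X m₀ M H₁ H (X * M * (K₀ * H₁ / l + (H₁ : ℝ) ^ 2 / l ^ 3)) a5
      (by positivity) (by
        intro c r hr hr1 hcr
        have hr' : (r : ℝ) ≤ H₁ := by exact_mod_cast hr1
        refine (h2 (m₀ + c) r hr (by linarith) (win_val F m₀ M H c r _ hcr hval)).trans ?_
        gcongr) a3
    refine h4.trans ?_
    have e1 : 4 * ((H : ℝ) / H₁) ^ 2 * (X * M * (K₀ * H₁ / l + (H₁ : ℝ) ^ 2 / l ^ 3)) =
        X * M * (((H : ℝ) / l) ^ 2 * (4 * K₀ * l / H₁ + 4 / l)) := by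
      field_simp
    rw [e1]
    apply mul_le_mul_of_nonneg_left _ hXM
    apply mul_le_mul_of_nonneg_left _ (sq_nonneg _)
    have h5 : 4 * K₀ * l / H₁ ≤ θ / 2 := by
      rw [div_le_iff₀ a4]
      nlinarith
    have h6 : 4 / l ≤ θ / 2 := by
      rw [div_le_iff₀ hl0]
      linarith
    linarith

/-- the second moments of `fz` for all lengths -/
theorem mom_fz (d : ℕ) (hd : 2 ≤ d) (A : ℕ) (θ : ℝ) (hθ : 0 < θ) (E u : ℕ) (hE : 1 ≤ E) (hu : 1 ≤ u) :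
    ∃ X₀ : ℕ, ∀ X : ℕ, X₀ ≤ X → ∀ F : ℤ[X], F.natDegree = d → |(F.leadingCoeff : ℝ)| ≤ A →
      ∀ (m₀ : ℤ) (M H : ℕ), (X : ℝ) ^ (1 / (3 * ((d : ℝ) - 1))) ≤ M → Real.log X ≤ H →
      (∀ n ∈ Ioc 0 (M + H), |((vv F m₀ n : ℤ) : ℝ)| ≤ A * X) → ∀ s : ℤ, (s = 1 ∨ s = -1) →
      V2 (fz ⌊Real.log X ^ (1 / (u : ℝ))⌋₊ ⌊Real.log X ^ E⌋₊) s F X m₀ M H ≤ X * M * ((H : ℝ) ^ 2 * θ) := by
  obtain ⟨X1, h1⟩ := e2 d hd A 3 E u hE hu
  obtain ⟨X2, hX2⟩ := eventually_atTop.1 (((evt_log_ge 10000).and (evt_log_ge ((8 / θ) ^ 2))).and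
    (evt_log_ge (Real.exp (8 / θ + 1))))
  refine ⟨max X1 X2, fun X hX F hF hFl m₀ M H hM hT hval s hs => ?_⟩
  obtain ⟨⟨hl, hls⟩, hle⟩ := hX2 X (le_trans (le_max_right _ _) hX)
  have h2 := fun m₁ r hr hr3 hW1 => h1 X (le_trans (le_max_left _ _) hX) F hF hFl m₁ M r hr hr3 hM hW1 s hs
  clear h1 hX2 hX
  have h8 : 0 < 8 / θ := by positivity
  have hm : 8 / θ + 1 ≤ Real.log (Real.log X) := by
    rw [Real.le_log_iff_exp_le (by linarith)]; exact hle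
  generalize ⌊Real.log X ^ (1 / (u : ℝ))⌋₊ = w at *
  generalize ⌊Real.log X ^ E⌋₊ = z at *
  generalize Real.log X = l at *
  generalize Real.log l = m at *
  have hl0 : 0 < l := by linarith
  have hl1 : 1 ≤ l := by linarith
  have hs8 : 8 / θ ≤ √l := Real.le_sqrt_of_sq_le hls
  have hs0 : 0 < √l := by linarith
  have hss : √l * √l = l := Real.mul_self_sqrt hl0.le
  have hm0 : 0 < m := by linarith
  have b1 : 4 / √l ≤ θ / 2 := by
    rw [div_le_iff₀ hs0]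
    rw [div_le_iff₀ hθ] at hs8
    linarith
  have b2 : 4 / m ^ 2 ≤ θ / 2 := by
    rw [div_le_iff₀ (by positivity)]
    have h3 : 8 / θ ≤ m ^ 2 := by nlinarith
    rw [div_le_iff₀ hθ] at h3
    linarith
  have hXM : 0 ≤ (X : ℝ) * M := by positivity
  have hHr : (0 : ℝ) < H := by linarith
  have hH1 : 1 ≤ H := by exact_mod_cast hHr
  rcases le_or_gt (H : ℝ) (l ^ 3) with h3 | h3
  · refine (h2 m₀ H hH1 h3 hval).trans ?_
    apply mul_le_mul_of_nonneg_left _ hXM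
    have h4 : (H : ℝ) * √l ≤ (H : ℝ) ^ 2 * (1 / √l) := by
      rw [mul_one_div, le_div_iff₀ hs0]
      have : (H : ℝ) * √l * √l = H * l := by rw [mul_assoc, hss]
      rw [this]
      nlinarith
    have h5 : (H : ℝ) ^ 2 * (1 / √l) ≤ (H : ℝ) ^ 2 * (θ / 2) := by
      apply mul_le_mul_of_nonneg_left _ (sq_nonneg _)
      have : 1 / √l ≤ 4 / √l := by gcongr; norm_num
      linarith
    have h6 : (H : ℝ) ^ 2 / m ^ 2 ≤ (H : ℝ) ^ 2 * (θ / 2) := by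
      rw [div_eq_mul_one_div]
      apply mul_le_mul_of_nonneg_left _ (sq_nonneg _)
      have : 1 / m ^ 2 ≤ 4 / m ^ 2 := by gcongr; norm_num
      linarith
    linarith
  · obtain ⟨H₁, hH₁⟩ : ∃ H₁, H₁ = ⌊l ^ 3⌋₊ := ⟨_, rfl⟩
    have a1 : (H₁ : ℝ) ≤ l ^ 3 := by rw [hH₁]; exact Nat.floor_le (by positivity)
    have a2 : l ≤ (H₁ : ℝ) := by
      have h4 := Nat.lt_floor_add_one (l ^ 3)
      rw [← hH₁] at h4
      have h5 : l ^ 3 = l * l ^ 2 := by ring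
      nlinarith [sq_nonneg l]
    have a3 : H₁ ≤ H := by
      have : (H₁ : ℝ) ≤ H := by linarith
      exact_mod_cast this
    have a4 : (0 : ℝ) < H₁ := by linarith
    have a5 : 1 ≤ H₁ := by exact_mod_cast a4
    have h4 := V2_long (fz w z) s F X m₀ M H₁ H (X * M * (H₁ * √l + (H₁ : ℝ) ^ 2 / m ^ 2)) a5
      (by positivity) (by
        intro c r hr hr1 hcr
        have hr' : (r : ℝ) ≤ H₁ := by exact_mod_cast hr1
        refine (h2 (m₀ + c) r hr (by linarith) (win_val F m₀ M H c r _ hcr hval)).trans ?_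
        gcongr) a3
    refine h4.trans ?_
    have e1 : 4 * ((H : ℝ) / H₁) ^ 2 * (X * M * (H₁ * √l + (H₁ : ℝ) ^ 2 / m ^ 2)) =
        X * M * ((H : ℝ) ^ 2 * (4 * √l / H₁ + 4 / m ^ 2)) := by
      field_simp
    rw [e1]
    apply mul_le_mul_of_nonneg_left _ hXM
    apply mul_le_mul_of_nonneg_left _ (sq_nonneg _)
    have h5 : 4 * √l / H₁ ≤ 4 / √l := by
      rw [div_le_div_iff₀ a4 hs0]
      rw [mul_assoc, hss]
      linarith
    linarith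

end Run7.h373.QE
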