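import Pool.Agent.Run7.h373.QE.E3b

/-!
# Project QE: the signed version: the sieve model on the integers with positive values, one pair
-/

set_option autoImplicit false
set_option maxHeartbeats 1000000

namespace Run7.h373.QE

open Finset Filter
open scoped Polynomial
open Pool.Agent.H373R2.T7 (pz Vz lamz mem_pz)
open Pool.Agent.TH892.SW (ff ffn wt wt_nonneg wt_le)
open Pool.Agent.TH892.OW (fz lz evt_ll)
open Pool.Agent.TH204.WR (rho hh hh_nonneg)
open Run7.h373.QD (vv pieces model)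

/-- the sieve model on the integers of a window with positive values -/
theorem model_s (d : ℕ) (hd : 1 ≤ d) : ∃ C1 y0 : ℕ, 1 ≤ C1 ∧ 2 ≤ y0 ∧ ∀ k : ℕ, C1 ≤ k → ∀ z : ℕ, y0 ≤ z → ∀ (F : ℤ[X]) (c m : ℤ),
    F.natDegree ≤ d → (∀ p ∈ pz z, rho F c p < p) → ∀ (s : ℤ) (H : ℕ),
    |∑ i ∈ (Ioc 0 H).filter (fun i : ℕ => 1 ≤ s * (vv F m i + c)), (lamz z (vv F m i + c).natAbs - hh F c z)| ≤
      (2 * (1 / 2 : ℝ) ^ k) * hh F c z * H + 2 ^ d * (z : ℝ) ^ (C1 * k + 1) := by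
  obtain ⟨C1, y0, hC1, hy0, h⟩ := model d hd
  refine ⟨C1, y0, hC1, hy0, fun k hk z hz F c m hF hadm s H => ?_⟩
  obtain ⟨β, hβ⟩ : ∃ β : ℕ → ℝ, β = fun i : ℕ => lamz z (vv F m i + c).natAbs - hh F c z := ⟨_, rfl⟩
  have hb : ∀ i j, i ≤ j → |∑ n ∈ Ioc i j, β n| ≤ (2 * (1 / 2 : ℝ) ^ k) * hh F c z * ((j : ℝ) - i) + (z : ℝ) ^ (C1 * k + 1) := by
    intro i j hij
    rw [hβ]
    exact h k hk z hz F c m hF hadm i j hij
  have hR := hh_nonneg F c z (by omega)
  obtain ⟨δ, hδd⟩ : ∃ δ : ℝ, δ = (2 * (1 / 2 : ℝ) ^ k) * hh F c z := ⟨_, rfl⟩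
  have hδ : 0 ≤ δ := by rw [hδd]; positivity
  rw [← hδd] at hb ⊢
  have hR2 : (0 : ℝ) ≤ (z : ℝ) ^ (C1 * k + 1) := by positivity
  have e0 : ∑ i ∈ (Ioc 0 H).filter (fun i : ℕ => 1 ≤ s * (vv F m i + c)), (lamz z (vv F m i + c).natAbs - hh F c z) =
      ∑ i ∈ (Ioc 0 H).filter (fun i : ℕ => 1 ≤ s * (vv F m i + c)), β i := by rw [hβ]
  rw [e0]
  obtain ⟨err, herr⟩ : ∃ err : ℕ → ℕ → ℝ, err = fun u v =>
      |∑ i ∈ (Ioc u v).filter (fun i : ℕ => 1 ≤ s * (vv F m i + c)), β i| - δ * ((v : ℝ) - u) := ⟨_, rfl⟩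
  have hsub : ∀ u v w, u ≤ v → v ≤ w → err u w ≤ err u v + err v w := by
    intro u v w huv hvw
    have hsplit : (Ioc u w).filter (fun i : ℕ => 1 ≤ s * (vv F m i + c)) =
        (Ioc u v).filter (fun i : ℕ => 1 ≤ s * (vv F m i + c)) ∪ (Ioc v w).filter (fun i : ℕ => 1 ≤ s * (vv F m i + c)) := by
      rw [← filter_union, Ioc_union_Ioc_eq_Ioc huv hvw]
    have hdis : Disjoint ((Ioc u v).filter (fun i : ℕ => 1 ≤ s * (vv F m i + c))) ((Ioc v w).filter (fun i : ℕ => 1 ≤ s * (vv F m i + c))) := by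
      apply disjoint_filter_filter
      rw [disjoint_left]
      intro i h1 h2
      rw [mem_Ioc] at h1 h2
      omega
    rw [herr]
    simp only
    rw [hsplit, sum_union hdis]
    have := abs_add_le (∑ i ∈ (Ioc u v).filter (fun i : ℕ => 1 ≤ s * (vv F m i + c)), β i)
      (∑ i ∈ (Ioc v w).filter (fun i : ℕ => 1 ≤ s * (vv F m i + c)), β i)
    linarith
  obtain ⟨G, hG⟩ : ∃ G : ℤ[X], G = Polynomial.C (2 * s) * F + Polynomial.C (2 * s * c - 1) := ⟨_, rfl⟩
  have hGe : G.natDegree ≤ d := by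
    rw [hG]
    refine (Polynomial.natDegree_add_le _ _).trans (max_le ?_ ?_)
    · exact (Polynomial.natDegree_C_mul_le _ _).trans hF
    · rw [Polynomial.natDegree_C]; exact Nat.zero_le _
  have hGv : ∀ i : ℕ, vv G m i = 2 * (s * (vv F m i + c)) - 1 := by
    intro i
    unfold vv
    rw [hG, Polynomial.eval_add, Polynomial.eval_mul, Polynomial.eval_C, Polynomial.eval_C]
    ring
  have key := pieces err hsub m d G hGe ((z : ℝ) ^ (C1 * k + 1)) (by
    intro u v huv hsg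
    rw [herr]
    simp only
    rcases Nat.eq_or_lt_of_le huv with h0 | h0
    · rw [h0, Ioc_self, filter_empty, sum_empty, abs_zero, sub_self]
      linarith
    rcases hsg with hsg | hsg
    · by_cases hv : 1 ≤ s * (vv F m v + c)
      · have e1 : (Ioc u v).filter (fun i : ℕ => 1 ≤ s * (vv F m i + c)) = Ioc u v := by
          apply filter_true_of_mem
          intro i hi
          rw [mem_Ioc] at hi
          rcases Nat.eq_or_lt_of_le hi.2 with h1 | h1
          · rw [h1]; exact hv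
          · have h2 := hsg i hi.1 h1
            rw [hGv] at h2
            omega
        rw [e1]
        have := hb u v huv
        linarith
      · have e1 : (Ioc u v).filter (fun i : ℕ => 1 ≤ s * (vv F m i + c)) = Ioc u (v - 1) := by
          ext i
          rw [mem_filter, mem_Ioc, mem_Ioc]
          constructor
          · rintro ⟨h1, h2⟩
            rcases Nat.eq_or_lt_of_le h1.2 with h3 | h3
            · rw [h3] at h2; exact absurd h2 hv
            · omega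
          · rintro ⟨h1, h2⟩
            refine ⟨by omega, ?_⟩
            have h3 := hsg i h1 (by omega)
            rw [hGv] at h3
            omega
        rw [e1]
        have h1 := hb u (v - 1) (by omega)
        have h2 : ((v - 1 : ℕ) : ℝ) = v - 1 := by rw [Nat.cast_sub (by omega), Nat.cast_one]
        rw [h2] at h1
        have h3 : δ * ((v : ℝ) - 1 - u) = δ * ((v : ℝ) - u) - δ := by ring
        rw [h3] at h1
        linarith
    · by_cases hv : 1 ≤ s * (vv F m v + c)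
      · have e1 : (Ioc u v).filter (fun i : ℕ => 1 ≤ s * (vv F m i + c)) = Ioc (v - 1) v := by
          ext i
          rw [mem_filter, mem_Ioc, mem_Ioc]
          constructor
          · rintro ⟨h1, h2⟩
            rcases Nat.eq_or_lt_of_le h1.2 with h3 | h3
            · omega
            · have h4 := hsg i h1.1 h3
              rw [hGv] at h4
              omega
          · rintro ⟨h1, h2⟩
            have h3 : i = v := by omega
            rw [h3]
            exact ⟨by omega, hv⟩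
        rw [e1]
        have h1 := hb (v - 1) v (by omega)
        have h2 : ((v - 1 : ℕ) : ℝ) = v - 1 := by rw [Nat.cast_sub (by omega), Nat.cast_one]
        rw [h2] at h1
        have h3 : (1 : ℝ) ≤ (v : ℝ) - u := by
          have : (u : ℝ) + 1 ≤ v := by exact_mod_cast h0
          linarith
        have h4 : δ * ((v : ℝ) - (v - 1)) ≤ δ * ((v : ℝ) - u) := mul_le_mul_of_nonneg_left (by linarith) hδ
        linarith
      · have e1 : (Ioc u v).filter (fun i : ℕ => 1 ≤ s * (vv F m i + c)) = ∅ := by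
          apply filter_false_of_mem
          intro i hi
          rw [mem_Ioc] at hi
          rcases Nat.eq_or_lt_of_le hi.2 with h1 | h1
          · rw [h1]; exact hv
          · have h2 := hsg i hi.1 h1
            rw [hGv] at h2
            omega
        rw [e1, sum_empty, abs_zero]
        have h3 : (0 : ℝ) ≤ (v : ℝ) - u := by
          have : (u : ℝ) ≤ v := by exact_mod_cast huv
          linarith
        have := mul_nonneg hδ h3
        linarith) 0 H (Nat.zero_le _)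
  rw [herr] at key
  simp only [Nat.cast_zero, sub_zero] at key
  linarith

/-- the fundamental lemma on the positive part of one window -/
lemma fl_s (d : ℕ) (hd : 1 ≤ d) (ε₁ : ℝ) (he0 : 0 < ε₁) : ∃ u y0 : ℕ, 1 ≤ u ∧ 2 ≤ y0 ∧ ∀ w : ℕ, y0 ≤ w → ∀ F : ℤ[X],
    F.natDegree = d → ∀ (a m₀ : ℤ) (t H : ℕ), (∀ p : ℕ, p.Prime → rho F a p < p) → ∀ l δ : ℝ, (2 ^ (d + 1) / (ε₁ * δ)) ^ 2 ≤ l → 0 < δ →
    δ ≤ hh F a w → (w : ℝ) ≤ l ^ (1 / (u : ℝ)) → l ≤ H → ∀ s : ℤ,
    |∑ n ∈ (Ioc 0 H).filter (fun n : ℕ => 1 ≤ s * (vv F m₀ (t + n) + a)), lamz w (vv F m₀ (t + n) + a).natAbs -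
      hh F a w * (#((Ioc 0 H).filter (fun n : ℕ => 1 ≤ s * (vv F m₀ (t + n) + a))) : ℝ)| ≤ ε₁ * hh F a w * H := by
  obtain ⟨C1, y0, hC1, hy0, hm⟩ := model_s d hd
  obtain ⟨b, hb1, hb2⟩ : ∃ b : ℕ, C1 ≤ b ∧ 2 * (1 / 2 : ℝ) ^ b ≤ ε₁ / 2 := by
    obtain ⟨n, hn⟩ := exists_pow_lt_of_lt_one (show (0 : ℝ) < ε₁ / 4 by positivity) (show (1 / 2 : ℝ) < 1 by norm_num)
    refine ⟨C1 + n, by omega, ?_⟩
    have h4 : (1 / 2 : ℝ) ^ (C1 + n) ≤ (1 / 2 : ℝ) ^ n := pow_le_pow_of_le_one (by norm_num) (by norm_num) (by omega)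
    linarith
  refine ⟨2 * (C1 * b + 1), y0, by omega, hy0, fun w hw F hF a m₀ t H hadm l δ hl hδ hδh hwl hlH s => ?_⟩
  have hq : 0 < 2 ^ (d + 1) / (ε₁ * δ) := by positivity
  have hl0 : 0 < l := lt_of_lt_of_le (by positivity) hl
  have hvs : ∀ n : ℕ, vv F m₀ (t + n) = vv F (m₀ + t) n := by
    intro n
    have h2 := vv_shift F m₀ t 0 n
    rw [zero_add, zero_add] at h2
    exact h2
  simp only [hvs]
  have h1 := hm b hb1 w hw F a (m₀ + t) hF.le (fun p hp => hadm p (mem_pz.1 hp).2) s H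
  rw [sum_sub_distrib, sum_const, nsmul_eq_mul, mul_comm ((#((Ioc 0 H).filter (fun i : ℕ => 1 ≤ s * (vv F (m₀ + t) i + a))) : ℕ) : ℝ)] at h1
  refine h1.trans ?_
  have hh0 : 0 ≤ hh F a w := by linarith
  have hH0 : (0 : ℝ) ≤ H := Nat.cast_nonneg _
  have h2 : 2 * (1 / 2 : ℝ) ^ b * hh F a w * H ≤ ε₁ / 2 * hh F a w * H := by gcongr
  have h3 : (w : ℝ) ^ (C1 * b + 1) ≤ √l := by
    calc (w : ℝ) ^ (C1 * b + 1) ≤ (l ^ (1 / ((2 * (C1 * b + 1) : ℕ) : ℝ))) ^ (C1 * b + 1) :=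
          pow_le_pow_left₀ (Nat.cast_nonneg _) hwl _
      _ = √l := by
          rw [← Real.rpow_natCast, ← Real.rpow_mul hl0.le, Real.sqrt_eq_rpow]
          congr 1
          push_cast
          field_simp
  have h4 : 2 ^ d * √l ≤ ε₁ / 2 * hh F a w * H := by
    have h5 : 2 ^ (d + 1) / (ε₁ * δ) ≤ √l := Real.le_sqrt_of_sq_le hl
    rw [div_le_iff₀ (by positivity), pow_succ] at h5
    have h6 : √l * √l = l := Real.mul_self_sqrt hl0.le
    have h7 : 0 ≤ √l := Real.sqrt_nonneg _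
    calc 2 ^ d * √l = √l * 2 ^ d := mul_comm _ _
      _ ≤ √l * (√l * (ε₁ * δ) / 2) := mul_le_mul_of_nonneg_left (by linarith) h7
      _ = ε₁ / 2 * δ * (√l * √l) := by ring
      _ = ε₁ / 2 * δ * l := by rw [h6]
      _ ≤ ε₁ / 2 * hh F a w * H := by gcongr
  have h5 : 2 ^ d * (w : ℝ) ^ (C1 * b + 1) ≤ 2 ^ d * √l := mul_le_mul_of_nonneg_left h3 (by positivity)
  calc 2 * (1 / 2 : ℝ) ^ b * hh F a w * H + 2 ^ d * (w : ℝ) ^ (C1 * b + 1) ≤ ε₁ / 2 * hh F a w * H + ε₁ / 2 * hh F a w * H := by linarith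
    _ = _ := by ring

/-! ### one pair -/

/-- the number of the primes `s y(n)` -/
def pS (s : ℤ) (y : ℕ → ℤ) (H : ℕ) : ℕ := #((Ioc 0 H).filter (fun n : ℕ => Nat.Prime (s * y n).toNat))

/-- the sum of the weights of the integers `s y(n) ≥ 2` -/
noncomputable def wS (s : ℤ) (y : ℕ → ℤ) (H : ℕ) : ℝ := ∑ n ∈ (Ioc 0 H).filter (fun n : ℕ => 2 ≤ s * y n), wt (s * y n).toNat

lemma toNat_natAbs (s v : ℤ) (hs : s = 1 ∨ s = -1) (h : 0 ≤ s * v) : (s * v).toNat = v.natAbs := by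
  rcases hs with h1 | h1 <;> rw [h1] at h ⊢ <;> omega

lemma wt_one : wt 1 = 0 := by unfold wt; simp

lemma wS_eq (s : ℤ) (hs : s = 1 ∨ s = -1) (y : ℕ → ℤ) (H : ℕ) :
    wS s y H = ∑ n ∈ Ioc 0 H, (if 1 ≤ s * y n then 1 else 0) * wt (y n).natAbs := by
  unfold wS
  rw [sum_filter]
  refine sum_congr rfl fun n _ => ?_
  by_cases h : 2 ≤ s * y n
  · rw [if_pos h, if_pos (by omega), one_mul, toNat_natAbs s _ hs (by omega)]
  · rw [if_neg h]
    by_cases h2 : 1 ≤ s * y n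
    · have h3 : (y n).natAbs = 1 := by
        rw [← toNat_natAbs s _ hs (by omega)]; omega
      rw [h3, wt_one, mul_zero]
    · rw [if_neg h2, zero_mul]

lemma pS_eq (s : ℤ) (hs : s = 1 ∨ s = -1) (y : ℕ → ℤ) (H z : ℕ) : (pS s y H : ℝ) =
    ∑ n ∈ Ioc 0 H, ff z (s * y n) + ∑ n ∈ Ioc 0 H, (if 1 ≤ s * y n then lamz z (y n).natAbs else 0) * wt (y n).natAbs := by
  unfold pS
  rw [← sum_boole, ← sum_add_distrib]
  refine sum_congr rfl fun n _ => ?_
  unfold ff
  by_cases h : 2 ≤ s * y n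
  · rw [if_pos h, if_pos (show 1 ≤ s * y n by omega)]
    unfold ffn
    rw [toNat_natAbs s _ hs (by omega)]
    ring
  · rw [if_neg h, if_neg (fun hp => by have := hp.two_le; omega)]
    by_cases h2 : 1 ≤ s * y n
    · have h3 : (y n).natAbs = 1 := by
        rw [← toNat_natAbs s _ hs (by omega)]; omega
      rw [h3, wt_one, mul_zero, add_zero]
    · rw [if_neg h2, zero_mul, add_zero]

lemma fz_eq (w z : ℕ) (s : ℤ) (hs : s = 1 ∨ s = -1) (y : ℕ → ℤ) (H : ℕ) : ∑ n ∈ Ioc 0 H, fz w z (s * y n) =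
    ∑ n ∈ Ioc 0 H, (if 1 ≤ s * y n then lamz z (y n).natAbs else 0) - ∑ n ∈ (Ioc 0 H).filter (fun n : ℕ => 1 ≤ s * y n), lamz w (y n).natAbs := by
  rw [sum_filter, ← sum_sub_distrib]
  refine sum_congr rfl fun n _ => ?_
  unfold fz lz
  by_cases h : 1 ≤ s * y n
  · rw [if_pos h, if_pos h, if_pos h, if_pos h, toNat_natAbs s _ hs (by omega)]
  · rw [if_neg h, if_neg h, if_neg h, if_neg h]

/-- one pair, one sign -/
lemma comb_s (w z : ℕ) (hz : 2 ≤ z) (s : ℤ) (hs : s = 1 ∨ s = -1) (y : ℕ → ℤ) (H : ℕ) (l h V δ0 ε κ N : ℝ)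
    (hl : 1 ≤ l) (hε : 0 < ε) (hε1 : ε ≤ 1 / 100) (hh : 0 < h) (hδh : δ0 ≤ h)
    (hG : |∑ n ∈ Ioc 0 H, ff z (s * y n)| ≤ ε * δ0 * (H / l))
    (hF : |∑ n ∈ Ioc 0 H, fz w z (s * y n)| ≤ ε * δ0 * H)
    (hN : (nnY y H κ : ℝ) ≤ N) (hN1 : 3 * N * (Vz z)⁻¹ ≤ ε * δ0 * (H / l)) (hN2 : 3 * N ≤ ε * (H / l))
    (hwt : ∀ n ∈ Ioc 0 H, κ ≤ ((y n).natAbs : ℝ) → |wt (y n).natAbs - 1 / l| ≤ ε * (1 / l))
    (hV : |V - h| ≤ ε * h)
    (hQ : |∑ n ∈ (Ioc 0 H).filter (fun n : ℕ => 1 ≤ s * y n), lamz w (y n).natAbs -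
      V * (#((Ioc 0 H).filter (fun n : ℕ => 1 ≤ s * y n)) : ℝ)| ≤ ε * V * H) :
    |(pS s y H : ℝ) - h * wS s y H| ≤ 12 * ε * (h * (H / l)) := by
  have hl0 : 0 < l := by linarith
  have hH0 : (0 : ℝ) ≤ H := Nat.cast_nonneg _
  have hVz0 : 0 < (Vz z)⁻¹ := inv_pos.2 (Pool.Agent.TH892.OW.Vz_pos z)
  have e1 := pS_eq s hs y H z
  have e2 := fz_eq w z s hs y H
  have e3 := sum_near y H κ l ε (Vz z)⁻¹ (fun n => if 1 ≤ s * y n then lamz z (y n).natAbs else 0)
    (fun n => by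
      split_ifs
      · exact Pool.Agent.TH892.SW.lamz_nonneg z _ (by omega)
      · exact le_rfl)
    (fun n => by
      split_ifs
      · exact Pool.Agent.TH892.SW.lamz_le z _ (by omega)
      · exact hVz0.le) hl hε.le hwt
  have e4 := sum_near y H κ l ε 1 (fun n => if 1 ≤ s * y n then 1 else 0)
    (fun n => by
      split_ifs
      · exact zero_le_one
      · exact le_rfl)
    (fun n => by
      split_ifs
      · exact le_rfl
      · exact zero_le_one) hl hε.le hwt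
  rw [← wS_eq s hs y H, sum_boole] at e4
  have e5 : (#((Ioc 0 H).filter (fun n : ℕ => 1 ≤ s * y n)) : ℝ) ≤ H := by
    have h1 := card_filter_le (Ioc 0 H) (fun n : ℕ => 1 ≤ s * y n)
    rw [Nat.card_Ioc, Nat.sub_zero] at h1
    exact_mod_cast h1
  have e6 : (0 : ℝ) ≤ (#((Ioc 0 H).filter (fun n : ℕ => 1 ≤ s * y n)) : ℝ) := Nat.cast_nonneg _
  have hN3 : 3 * (nnY y H κ : ℝ) * (Vz z)⁻¹ ≤ ε * δ0 * (H / l) :=
    le_trans (mul_le_mul_of_nonneg_right (by linarith) hVz0.le) hN1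
  have hN4 : 3 * (nnY y H κ : ℝ) * 1 ≤ ε * (H / l) := by linarith
  generalize wS s y H = W at *
  generalize (pS s y H : ℝ) = P at *
  generalize ∑ n ∈ Ioc 0 H, ff z (s * y n) = G1 at *
  generalize ∑ n ∈ Ioc 0 H, fz w z (s * y n) = F1 at *
  generalize ∑ n ∈ Ioc 0 H, (if 1 ≤ s * y n then lamz z (y n).natAbs else 0) * wt (y n).natAbs = Z at *
  generalize ∑ n ∈ Ioc 0 H, (if 1 ≤ s * y n then lamz z (y n).natAbs else 0) = Qz at *
  generalize ∑ n ∈ (Ioc 0 H).filter (fun n : ℕ => 1 ≤ s * y n), lamz w (y n).natAbs = Qw at *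
  generalize (#((Ioc 0 H).filter (fun n : ℕ => 1 ≤ s * y n)) : ℝ) = K at *
  clear hwt hN1 hN2 hN
  subst e1
  subst e2
  set q := (H : ℝ) / l with hq
  have hq0 : 0 ≤ q := by rw [hq]; positivity
  have hHq : (H : ℝ) = q * l := by rw [hq]; field_simp
  have hhq : 0 ≤ h * q := by positivity
  have hV2 := abs_le.1 hV
  have hεh : ε * h ≤ 1 / 100 * h := mul_le_mul_of_nonneg_right hε1 hh.le
  have hV3 : V ≤ 101 / 100 * h := by linarith
  have hV0 : 0 ≤ V := by linarith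
  have hδq : ε * δ0 * q ≤ ε * (h * q) := by
    have : ε * δ0 * q ≤ ε * h * q := by gcongr
    linarith
  have hx : 0 ≤ ε * (h * q) := by positivity
  have hKq : 1 / l * K ≤ q := by
    rw [hq, one_div, inv_mul_eq_div]; gcongr
  have hKq0 : 0 ≤ 1 / l * K := by positivity
  have g2 : |Qz - Qw| ≤ ε * (h * q) * l := by
    have h2 : ε * δ0 * (H : ℝ) = ε * δ0 * q * l := by rw [hHq]; ring
    rw [h2] at hF
    have h3 := mul_le_mul_of_nonneg_right hδq hl0.le
    linarith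
  have g3 : |Qw - V * K| ≤ 101 / 100 * (ε * (h * q)) * l := by
    have a4 : ε * V * H ≤ ε * (101 / 100 * h) * H := by gcongr
    have a6 : ε * (101 / 100 * h) * H = 101 / 100 * (ε * (h * q)) * l := by rw [hHq]; ring
    linarith
  have g4 : Qz ≤ 104 / 100 * (h * q) * l := by
    have h1 := (abs_le.1 g2).2
    have h2 := (abs_le.1 g3).2
    have h3 : V * K ≤ 101 / 100 * h * H := by gcongr
    have h4 : 101 / 100 * h * H = 101 / 100 * (h * q) * l := by rw [hHq]; ring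
    have h5 : ε * (h * q) * l ≤ 1 / 100 * (h * q) * l := by gcongr
    have h6 : 0 ≤ h * q * l := by positivity
    linarith
  have g5 : |Z - 1 / l * Qz| ≤ 205 / 100 * (ε * (h * q)) := by
    have h1 : ε * (1 / l) * Qz ≤ ε * (1 / l) * (104 / 100 * (h * q) * l) := by gcongr
    have h2 : ε * (1 / l) * (104 / 100 * (h * q) * l) = 104 / 100 * (ε * (h * q)) := by field_simp
    linarith
  have g6 : |1 / l * Qz - 1 / l * (V * K)| ≤ 202 / 100 * (ε * (h * q)) := by
    have h1 : 1 / l * Qz - 1 / l * (V * K) = 1 / l * ((Qz - Qw) + (Qw - V * K)) := by ring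
    rw [h1, abs_mul, abs_of_pos (by positivity)]
    have h2 := abs_add_le (Qz - Qw) (Qw - V * K)
    have h3 : 0 ≤ ε * (h * q) * l := by positivity
    calc 1 / l * |(Qz - Qw) + (Qw - V * K)| ≤ 1 / l * (202 / 100 * (ε * (h * q)) * l) := by
          apply mul_le_mul_of_nonneg_left _ (by positivity)
          linarith
      _ = _ := by field_simp
  have g7 : |1 / l * (V * K) - h * (1 / l * K)| ≤ ε * (h * q) := by
    have h1 : 1 / l * (V * K) - h * (1 / l * K) = (V - h) * (1 / l * K) := by ring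
    rw [h1, abs_mul, abs_of_nonneg hKq0]
    calc |V - h| * (1 / l * K) ≤ (ε * h) * q := mul_le_mul hV hKq hKq0 (by positivity)
      _ = _ := by ring
  have g8 : |h * (1 / l * K) - h * W| ≤ 2 * (ε * (h * q)) := by
    have h0 : ε * (1 / l) * K ≤ ε * q := by
      rw [mul_assoc]; exact mul_le_mul_of_nonneg_left hKq hε.le
    have h00 : |W - 1 / l * K| ≤ 2 * ε * q := by linarith
    have h1 : h * (1 / l * K) - h * W = -(h * (W - 1 / l * K)) := by ring
    rw [h1, abs_neg, abs_mul, abs_of_pos hh]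
    calc h * |W - 1 / l * K| ≤ h * (2 * ε * q) := by gcongr
      _ = _ := by ring
  have g1 : |G1| ≤ ε * (h * q) := by linarith
  have h1 : G1 + Z - h * W = G1 + (Z - 1 / l * Qz) + (1 / l * Qz - 1 / l * (V * K)) + (1 / l * (V * K) - h * (1 / l * K)) +
      (h * (1 / l * K) - h * W) := by ring
  rw [h1]
  have b1 := abs_add_le (G1 + (Z - 1 / l * Qz) + (1 / l * Qz - 1 / l * (V * K)) + (1 / l * (V * K) - h * (1 / l * K)))
    (h * (1 / l * K) - h * W)
  have b2 := abs_add_le (G1 + (Z - 1 / l * Qz) + (1 / l * Qz - 1 / l * (V * K))) (1 / l * (V * K) - h * (1 / l * K))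
  have b3 := abs_add_le (G1 + (Z - 1 / l * Qz)) (1 / l * Qz - 1 / l * (V * K))
  have b4 := abs_add_le G1 (Z - 1 / l * Qz)
  linarith

end Run7.h373.QE
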