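import Pool.Agent.TH204.WR.W13

/-!
# Project QE: the local densities at a set of larger primes, second moment over the constant term
-/

set_option autoImplicit false

namespace Run7.h373.QE

open Finset Polynomial
open Pool.Agent.H373R2.T7 (pz Vz lamz mem_pz Vz_ge)
open Pool.Agent.TH204.WR (rho xp hh hh_nonneg hh_mul rho_card rho_mean rho_periodic crt_sum per_sum sum_Icc_range)

lemma rho_le_nd (F : ℤ[X]) (t : ℤ) (p : ℕ) (hp : p.Prime) (hd : 1 ≤ F.natDegree)
    (hl : ¬ (p : ℤ) ∣ F.leadingCoeff) : rho F t p ≤ F.natDegree := by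
  have : Fact p.Prime := ⟨hp⟩
  set Fp : (ZMod p)[X] := F.map (Int.castRingHom (ZMod p)) + C (t : ZMod p) with hFp
  have hz : univ.filter (fun x : ZMod p => (F.map (Int.castRingHom (ZMod p))).eval x + (t : ZMod p) = 0) =
      univ.filter (fun x : ZMod p => Fp.eval x = 0) := by
    apply filter_congr
    intro x _
    rw [hFp, eval_add, eval_C]
  have hne : Fp ≠ 0 := by
    intro h0
    have h1 : Fp.coeff F.natDegree = 0 := by rw [h0, coeff_zero]
    rw [hFp, coeff_add, coeff_C, if_neg (by omega), add_zero, coeff_map] at h1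
    have h2 : ((F.leadingCoeff : ℤ) : ZMod p) = 0 := by simpa using h1
    rw [ZMod.intCast_zmod_eq_zero_iff_dvd] at h2
    exact hl h2
  rw [rho_card F t p, hz]
  have h1 : #(univ.filter (fun x : ZMod p => Fp.eval x = 0)) ≤ #Fp.roots.toFinset := by
    apply card_le_card
    intro x hx
    rw [mem_filter] at hx
    rw [Multiset.mem_toFinset, mem_roots hne]
    exact hx.2
  refine h1.trans ((Multiset.toFinset_card_le _).trans ((card_roots' _).trans ?_))
  rw [hFp]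
  refine (natDegree_add_C).le.trans ?_
  exact natDegree_map_le

lemma xp_le' (F : ℤ[X]) (t : ℤ) (p : ℕ) (hp : p.Prime) (hd : 1 ≤ F.natDegree)
    (hl : ¬ (p : ℤ) ∣ F.leadingCoeff) : |xp F t p| ≤ 2 * F.natDegree / p := by
  have h1 := rho_le_nd F t p hp hd hl
  have hp2 : (2 : ℝ) ≤ p := by exact_mod_cast hp.two_le
  have h2 : (rho F t p : ℝ) ≤ F.natDegree := by exact_mod_cast h1
  have h3 : (1 : ℝ) ≤ F.natDegree := by exact_mod_cast hd
  have h4 : (0 : ℝ) ≤ rho F t p := Nat.cast_nonneg _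
  unfold xp
  rw [abs_div, abs_of_pos (show (0 : ℝ) < (p : ℝ) - 1 by linarith), div_le_div_iff₀ (by linarith) (by linarith)]
  have h5 : |(rho F t p : ℝ) - 1| ≤ F.natDegree := by rw [abs_le]; constructor <;> linarith
  calc |(rho F t p : ℝ) - 1| * p ≤ F.natDegree * (2 * ((p : ℝ) - 1)) := by
        apply mul_le_mul h5 (by linarith) (by linarith) (by linarith)
    _ = _ := by ring

/-- two different primes -/
lemma cross' (F : ℤ[X]) (x p q : ℕ) (hp : p.Prime) (hq : q.Prime) (hpq : p ≠ q) (hd : 1 ≤ F.natDegree)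
    (hlp : ¬ (p : ℤ) ∣ F.leadingCoeff) (hlq : ¬ (q : ℤ) ∣ F.leadingCoeff) :
    |∑ t ∈ Icc (-(x : ℤ)) x, xp F t p * xp F t q| ≤ 4 * (F.natDegree : ℝ) ^ 2 := by
  rw [sum_Icc_range]
  have hco : Nat.Coprime p q := (Nat.coprime_primes hp hq).2 hpq
  have hp0 : (0 : ℝ) < p := by exact_mod_cast hp.pos
  have hq0 : (0 : ℝ) < q := by exact_mod_cast hq.pos
  have hmod : ∀ (r : ℕ) (s : ℕ), xp F (((s % r : ℕ) : ℤ) - x) r = xp F ((s : ℤ) - x) r := by
    intro r s
    unfold xp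
    have h1 : (((s % r : ℕ) : ℤ) - x) = ((s : ℤ) - x) + (-((s / r : ℕ) : ℤ)) * r := by
      have h7 : s % r + r * (s / r) = s := Nat.mod_add_div s r
      have h8 : ((s % r : ℕ) : ℤ) + (r : ℤ) * ((s / r : ℕ) : ℤ) = s := by exact_mod_cast h7
      linarith
    rw [h1, rho_periodic]
  have hsum0 : ∀ r : ℕ, r.Prime → ∑ i ∈ range r, xp F ((i : ℤ) - x) r = 0 := by
    intro r hr
    unfold xp
    rw [← sum_div, sum_sub_distrib, sum_const, card_range, nsmul_eq_mul, mul_one]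
    have h1 := rho_mean F (-(x : ℤ)) r hr.pos
    have h2 : ∑ i ∈ range r, (rho F ((i : ℤ) - x) r : ℝ) = r := by
      have h3 : ((∑ i ∈ range r, rho F ((i : ℤ) + -(x : ℤ)) r : ℕ) : ℝ) = r := by rw [h1]
      push_cast at h3
      rw [← h3]
      refine sum_congr rfl fun i _ => ?_
      rw [sub_eq_add_neg]
    rw [h2, sub_self, zero_div]
  have h := per_sum (p * q) (Nat.mul_pos hp.pos hq.pos) (fun s => xp F ((s : ℤ) - x) p * xp F ((s : ℤ) - x) q)
    (by
      intro n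
      show xp F (((n + p * q : ℕ) : ℤ) - x) p * xp F (((n + p * q : ℕ) : ℤ) - x) q = xp F ((n : ℤ) - x) p * xp F ((n : ℤ) - x) q
      rw [← hmod p (n + p * q), ← hmod q (n + p * q), ← hmod p n, ← hmod q n, Nat.add_mul_mod_self_left,
        Nat.add_mul_mod_self_right])
    (by
      rw [crt_sum p q hco hp.pos hq.pos (fun s => xp F ((s : ℤ) - x) p) (fun s => xp F ((s : ℤ) - x) q)
        (fun n => hmod p n) (fun n => hmod q n), hsum0 p hp, zero_mul])
    ((2 * F.natDegree / p) * (2 * F.natDegree / q)) (by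
      intro n
      rw [abs_mul]
      exact mul_le_mul (xp_le' F _ p hp hd hlp) (xp_le' F _ q hq hd hlq) (abs_nonneg _) (by positivity))
    (2 * x + 1)
  refine h.trans (le_of_eq ?_)
  push_cast
  field_simp
  norm_num

/-- the second moment for a set of primes -/
theorem tail_set (F : ℤ[X]) (x y z : ℕ) (P : Finset ℕ) (hd : 1 ≤ F.natDegree)
    (hPm : ∀ p ∈ P, p.Prime ∧ y < p ∧ p ≤ z ∧ ¬ (p : ℤ) ∣ F.leadingCoeff) (hy : 1 ≤ y) (hx : 1 ≤ x) (hz : z ^ 3 ≤ x)
    (hyz : y ≤ z) :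
    ∑ t ∈ Icc (-(x : ℤ)) x, (∑ p ∈ P, xp F t p) ^ 2 ≤ 16 * (F.natDegree : ℝ) ^ 2 * (x / y) := by
  classical
  set d : ℝ := ((F.natDegree : ℕ) : ℝ) with hdd
  have hd0 : 0 ≤ d := Nat.cast_nonneg _
  have hPs : P ⊆ Ioc y z := by
    intro p hp
    rw [mem_Ioc]
    exact ⟨(hPm p hp).2.1, (hPm p hp).2.2.1⟩
  have hxr : (1 : ℝ) ≤ x := by exact_mod_cast hx
  have hyr : (1 : ℝ) ≤ y := by exact_mod_cast hy
  have hyzr : (y : ℝ) ≤ z := by exact_mod_cast hyz
  have e1 : ∑ t ∈ Icc (-(x : ℤ)) x, (∑ p ∈ P, xp F t p) ^ 2 = ∑ p ∈ P, ∑ q ∈ P, ∑ t ∈ Icc (-(x : ℤ)) x, xp F t p * xp F t q := by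
    have : ∀ t : ℤ, (∑ p ∈ P, xp F t p) ^ 2 = ∑ p ∈ P, ∑ q ∈ P, xp F t p * xp F t q := by
      intro t
      rw [sq, sum_mul_sum]
    simp_rw [this]
    rw [sum_comm]
    refine sum_congr rfl fun p _ => ?_
    rw [sum_comm]
  rw [e1]
  have h1 : ∀ p ∈ P, ∑ q ∈ P, ∑ t ∈ Icc (-(x : ℤ)) x, xp F t p * xp F t q ≤ 4 * d ^ 2 * z + 12 * d ^ 2 * x * (1 / (p : ℝ) ^ 2) := by
    intro p hp
    obtain ⟨hpp, hpy, hpz, hpl⟩ := hPm p hp
    have hp0 : (0 : ℝ) < p := by exact_mod_cast hpp.pos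
    have h2 : ∀ q ∈ P, ∑ t ∈ Icc (-(x : ℤ)) x, xp F t p * xp F t q ≤ 4 * d ^ 2 + (if q = p then 12 * d ^ 2 * x * (1 / (p : ℝ) ^ 2) else 0) := by
      intro q hq
      obtain ⟨hqp, hqy, hqz, hql⟩ := hPm q hq
      split_ifs with hc
      · subst hc
        have h3 : ∑ t ∈ Icc (-(x : ℤ)) x, xp F t q * xp F t q ≤ ∑ _t ∈ Icc (-(x : ℤ)) x, (2 * d / q) ^ 2 := by
          refine sum_le_sum fun t _ => ?_
          rw [← sq, ← sq_abs]
          exact pow_le_pow_left₀ (abs_nonneg _) (xp_le' F t q hqp hd hql) 2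
        refine h3.trans ?_
        rw [sum_const, Int.card_Icc, nsmul_eq_mul]
        have h4 : ((((x : ℤ) + 1 - -(x : ℤ)).toNat : ℕ) : ℝ) = 2 * x + 1 := by
          have : ((x : ℤ) + 1 - -(x : ℤ)).toNat = 2 * x + 1 := by omega
          rw [this]; push_cast; ring
        rw [h4]
        have h5 : (2 * (x : ℝ) + 1) * (2 * d / q) ^ 2 ≤ (3 * x) * (2 * d / q) ^ 2 := by
          apply mul_le_mul_of_nonneg_right _ (by positivity)
          linarith
        have h6 : (3 * (x : ℝ)) * (2 * d / q) ^ 2 = 12 * d ^ 2 * x * (1 / (q : ℝ) ^ 2) := by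
          field_simp
          ring
        have h7 : 0 ≤ 4 * d ^ 2 := by positivity
        linarith
      · have h3 := cross' F x p q hpp hqp (fun h => hc h.symm) hd hpl hql
        have h4 := le_abs_self (∑ t ∈ Icc (-(x : ℤ)) x, xp F t p * xp F t q)
        linarith
    refine (sum_le_sum h2).trans ?_
    rw [sum_add_distrib, sum_const, nsmul_eq_mul, sum_ite_eq' P p, if_pos hp]
    have h3 : (#P : ℝ) ≤ z := by
      have : #P ≤ z := by
        refine (card_le_card hPs).trans ?_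
        rw [Nat.card_Ioc]
        omega
      exact_mod_cast this
    have h4 : (#P : ℝ) * (4 * d ^ 2) ≤ z * (4 * d ^ 2) := mul_le_mul_of_nonneg_right h3 (by positivity)
    linarith
  refine (sum_le_sum h1).trans ?_
  rw [sum_add_distrib, sum_const, nsmul_eq_mul, ← mul_sum]
  have h3 : (#P : ℝ) ≤ z := by
    have : #P ≤ z := by
      refine (card_le_card hPs).trans ?_
      rw [Nat.card_Ioc]
      omega
    exact_mod_cast this
  have h4 : ∑ p ∈ P, 1 / (p : ℝ) ^ 2 ≤ 1 / (y : ℝ) := by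
    have h5 : ∑ p ∈ P, 1 / (p : ℝ) ^ 2 ≤ ∑ n ∈ Ioc y z, (1 / ((n : ℝ) - 1) - 1 / n) := by
      calc ∑ p ∈ P, 1 / (p : ℝ) ^ 2 ≤ ∑ n ∈ Ioc y z, 1 / (n : ℝ) ^ 2 :=
            sum_le_sum_of_subset_of_nonneg hPs (fun _ _ _ => by positivity)
        _ ≤ _ := by
            refine sum_le_sum fun n hn => ?_
            rw [mem_Ioc] at hn
            have h6 : (2 : ℝ) ≤ n := by exact_mod_cast (by omega : 2 ≤ n)
            have h7 : (n : ℝ) - 1 ≠ 0 := by linarith
            have h8 : (n : ℝ) ≠ 0 := by linarith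
            rw [div_sub_div _ _ h7 h8, div_le_div_iff₀ (by positivity) (by apply mul_pos <;> linarith)]
            nlinarith
    refine h5.trans ?_
    have h6 : ∀ z : ℕ, y ≤ z → ∑ n ∈ Ioc y z, (1 / ((n : ℝ) - 1) - 1 / n) = 1 / (y : ℝ) - 1 / z := by
      intro z hz
      induction z, hz using Nat.le_induction with
      | base => simp
      | succ z hz ih =>
        rw [sum_Ioc_succ_top hz, ih]
        push_cast
        ring
    rw [h6 z hyz]
    have : 0 ≤ 1 / (z : ℝ) := by positivity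
    linarith
  have h5 : (#P : ℝ) * (4 * d ^ 2 * z) ≤ 4 * d ^ 2 * (x / y) := by
    calc (#P : ℝ) * (4 * d ^ 2 * z) ≤ z * (4 * d ^ 2 * z) := mul_le_mul_of_nonneg_right h3 (by positivity)
      _ = 4 * d ^ 2 * ((z : ℝ) ^ 2) := by ring
      _ ≤ 4 * d ^ 2 * (x / y) := by
          apply mul_le_mul_of_nonneg_left _ (by positivity)
          rw [le_div_iff₀ (by linarith)]
          calc (z : ℝ) ^ 2 * y ≤ z ^ 2 * z := mul_le_mul_of_nonneg_left hyzr (by positivity)
            _ = (z : ℝ) ^ 3 := by ring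
            _ ≤ x := by exact_mod_cast hz
  have h6 : 12 * d ^ 2 * x * ∑ p ∈ P, 1 / (p : ℝ) ^ 2 ≤ 12 * d ^ 2 * x * (1 / y) :=
    mul_le_mul_of_nonneg_left h4 (by positivity)
  have h7 : 12 * d ^ 2 * (x : ℝ) * (1 / y) = 12 * d ^ 2 * (x / y) := by ring
  linarith

end Run7.h373.QE
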